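import Pool.Agent.HWN.Defs

set_option autoImplicit false

namespace Pool.Agent.HWN

open Module TensorProduct

universe u

section AnyField

variable {k : Type u} [Field k] {V : Type u} [AddCommGroup V] [Module k V] [FiniteDimensional k V]
variable (K : Type u) [Field K] [Algebra k K]

private theorem AnyField_KK (X Y : Module.End k V) :
    finrank K (KK (X.baseChange K) (Y.baseChange K)) ≤ finrank k (KK X Y) := by
  have key : ∀ Z : Module.End k V, LinearMap.range Z ≤ KK X Y →
      LinearMap.range (Z.baseChange K) ≤ LinearMap.range ((KK X Y).subtype.baseChange K) := by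
    intro Z hZ
    have e : Z = (KK X Y).subtype ∘ₗ Z.codRestrict (KK X Y) (fun c => hZ ⟨c, rfl⟩) := by
      ext v; rfl
    rw [e, LinearMap.baseChange_comp]
    exact LinearMap.range_comp_le_range _ _
  have h1 : KK (X.baseChange K) (Y.baseChange K) ≤
      LinearMap.range ((KK X Y).subtype.baseChange K) :=
    sup_le (key X le_sup_left) (key Y le_sup_right)
  calc finrank K (KK (X.baseChange K) (Y.baseChange K))
      ≤ finrank K (LinearMap.range ((KK X Y).subtype.baseChange K)) :=
        Submodule.finrank_mono h1
    _ ≤ finrank K (K ⊗[k] (KK X Y)) := LinearMap.finrank_range_le _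
    _ = finrank k (KK X Y) := Module.finrank_baseChange

private theorem AnyField_SS (X Y : Module.End k V) :
    finrank k (SS X Y) ≤ finrank K (SS (X.baseChange K) (Y.baseChange K)) := by
  have hinj : Function.Injective ((SS X Y).subtype.baseChange K) :=
    Module.Flat.lTensor_preserves_injective_linearMap (M := K) (SS X Y).subtype
      (SS X Y).injective_subtype
  have key : ∀ Z : Module.End k V, SS X Y ≤ LinearMap.ker Z →
      LinearMap.range ((SS X Y).subtype.baseChange K) ≤ LinearMap.ker (Z.baseChange K) := by
    intro Z hZ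
    rw [LinearMap.range_le_ker_iff, ← LinearMap.baseChange_comp]
    have e : Z ∘ₗ (SS X Y).subtype = 0 := by
      ext v
      exact hZ v.2
    rw [e, LinearMap.baseChange_zero]
  have h1 : LinearMap.range ((SS X Y).subtype.baseChange K) ≤
      SS (X.baseChange K) (Y.baseChange K) :=
    le_inf (key X inf_le_left) (key Y inf_le_right)
  calc finrank k (SS X Y) = finrank K (K ⊗[k] (SS X Y)) := Module.finrank_baseChange.symm
    _ = finrank K (LinearMap.range ((SS X Y).subtype.baseChange K)) :=
        (LinearMap.finrank_range_of_inj hinj).symm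
    _ ≤ _ := Submodule.finrank_mono h1

/-- the map `Z ↦ X Z - Z X` -/
private def AnyField_D (X : Module.End k V) : Module.End k V →ₗ[k] Module.End k V :=
  LinearMap.mulLeft k X - LinearMap.mulRight k X

omit [FiniteDimensional k V] in
private theorem AnyField_D_apply (X Z : Module.End k V) : AnyField_D X Z = X * Z - Z * X := rfl

private theorem AnyField_cen (X Y : Module.End k V) :
    finrank K (cen (X.baseChange K) (Y.baseChange K)) ≤ finrank k (cen X Y) := by
  have j : IsBaseChange K (TensorProduct.mk k K V 1) := TensorProduct.isBaseChange k V K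
  have E := j.end
  have hend : ∀ Z : Module.End k V, j.endHom Z = Z.baseChange K := by
    intro Z
    refine TensorProduct.AlgebraTensorModule.ext fun a v => ?_
    have h1 := j.endHom_comp_apply Z v
    have e1 : (a ⊗ₜ[k] v : K ⊗[k] V) = a • (TensorProduct.mk k K V 1 v) := by
      simp [TensorProduct.smul_tmul']
    rw [e1, map_smul, map_smul, h1]
    rfl
  have hcomm : ∀ (W : Module.End k V) (t : K ⊗[k] (Module.End k V)),
      E.equiv ((AnyField_D W).baseChange K t) + E.equiv t * W.baseChange K =
        W.baseChange K * E.equiv t := by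
    intro W t
    induction t with
    | zero =>
      have h0 : E.equiv (0 : K ⊗[k] (Module.End k V)) = 0 := map_zero _
      rw [map_zero, h0, zero_mul, mul_zero, add_zero]
    | tmul a Z =>
      rw [LinearMap.baseChange_tmul, IsBaseChange.equiv_tmul, IsBaseChange.equiv_tmul, hend, hend,
        mul_smul_comm, smul_mul_assoc, ← LinearMap.baseChange_mul, ← LinearMap.baseChange_mul,
        ← smul_add, ← LinearMap.baseChange_add, AnyField_D_apply, sub_add_cancel]
    | add s t hs ht =>
      rw [map_add, map_add, map_add, mul_add, add_mul, ← hs, ← ht]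
      abel
  let φ : Module.End k V →ₗ[k] (Module.End k V × Module.End k V) :=
    (LinearMap.inl k _ _) ∘ₗ (AnyField_D X) + (LinearMap.inr k _ _) ∘ₗ (AnyField_D Y)
  have hφ : ∀ Z, φ Z = (X * Z - Z * X, Y * Z - Z * Y) := by
    intro Z
    show ((AnyField_D X Z, 0) + (0, AnyField_D Y Z) : Module.End k V × Module.End k V) = _
    rw [AnyField_D_apply, AnyField_D_apply, Prod.mk_add_mk, add_zero, zero_add]
  have hker : LinearMap.ker φ = cen X Y := by
    ext Z
    rw [LinearMap.mem_ker, hφ, mem_cen, Prod.mk_eq_zero, sub_eq_zero, sub_eq_zero]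
  have hmem : ∀ Z' : cen (X.baseChange K) (Y.baseChange K),
      E.equiv.symm (Z' : Module.End K (K ⊗[k] V)) ∈ LinearMap.ker (φ.baseChange K) := by
    intro Z'
    obtain ⟨h1, h2⟩ := mem_cen.1 Z'.2
    have hz : ∀ W : Module.End k V, W.baseChange K * (Z' : Module.End K (K ⊗[k] V)) =
        Z' * W.baseChange K → (AnyField_D W).baseChange K (E.equiv.symm Z') = 0 := by
      intro W hW
      apply E.equiv.injective
      have h3 := hcomm W (E.equiv.symm Z')
      rw [LinearEquiv.apply_symm_apply, hW] at h3
      rw [map_zero]
      refine LinearMap.ext fun v => ?_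
      have h5 := LinearMap.congr_fun h3 v
      rw [LinearMap.add_apply] at h5
      exact add_eq_right.1 h5
    rw [LinearMap.mem_ker]
    have e : φ.baseChange K = (LinearMap.inl k (Module.End k V) (Module.End k V)).baseChange K ∘ₗ
        (AnyField_D X).baseChange K +
        (LinearMap.inr k (Module.End k V) (Module.End k V)).baseChange K ∘ₗ
        (AnyField_D Y).baseChange K := by
      rw [← LinearMap.baseChange_comp, ← LinearMap.baseChange_comp, ← LinearMap.baseChange_add]
    rw [e, LinearMap.add_apply, LinearMap.comp_apply, LinearMap.comp_apply, hz X h1, hz Y h2,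
      map_zero, map_zero, add_zero]
  let ψ : cen (X.baseChange K) (Y.baseChange K) →ₗ[K] LinearMap.ker (φ.baseChange K) :=
    ((E.equiv.symm.toLinearMap).comp (cen (X.baseChange K) (Y.baseChange K)).subtype).codRestrict
      _ hmem
  have hψ : Function.Injective ψ := by
    intro a b hab
    have h1 := congrArg Subtype.val hab
    exact Subtype.ext (E.equiv.symm.injective h1)
  calc finrank K (cen (X.baseChange K) (Y.baseChange K))
      ≤ finrank K (LinearMap.ker (φ.baseChange K)) := LinearMap.finrank_le_finrank_of_injective hψ
    _ = finrank K (K ⊗[k] (LinearMap.ker φ)) :=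
        (LinearEquiv.finrank_eq (LinearMap.tensorKerEquiv K K φ)).symm
    _ = finrank k (LinearMap.ker φ) := Module.finrank_baseChange
    _ = finrank k (cen X Y) := by rw [hker]

end AnyField

/-! [HWN AnyField]  From algebraically closed fields to all fields. -/
theorem thm3_of (k : Type u) [Field k] (V : Type u) [AddCommGroup V] [Module k V]
    [FiniteDimensional k V] (X Y : Module.End k V) (hXY : Commute X Y) (hY : IsNilpotent Y)
    (hm : MuTwo X Y) (hs : STwo X Y)
    (h2 : ∀ (K : Type u) [Field K] [IsAlgClosed K] (W : Type u) [AddCommGroup W] [Module K W]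
      [FiniteDimensional K W] (X Y : Module.End K W), Commute X Y → IsNilpotent Y →
      MuTwo X Y → STwo X Y → finrank K W + 1 ≤ finrank K (cen X Y)) :
    finrank k V + 1 ≤ finrank k (cen X Y) := by
  have hV : finrank (AlgebraicClosure k) (AlgebraicClosure k ⊗[k] V) = finrank k V :=
    Module.finrank_baseChange
  have h := h2 (AlgebraicClosure k) (AlgebraicClosure k ⊗[k] V)
    (X.baseChange (AlgebraicClosure k)) (Y.baseChange (AlgebraicClosure k)) ?_ ?_ ?_ ?_
  · rw [hV] at h
    exact h.trans (AnyField_cen _ X Y)
  · show X.baseChange (AlgebraicClosure k) * Y.baseChange (AlgebraicClosure k) =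
      Y.baseChange (AlgebraicClosure k) * X.baseChange (AlgebraicClosure k)
    rw [← LinearMap.baseChange_mul, ← LinearMap.baseChange_mul]
    exact congrArg (LinearMap.baseChange (AlgebraicClosure k)) hXY
  · obtain ⟨n, hn⟩ := hY
    refine ⟨n, ?_⟩
    rw [← LinearMap.baseChange_pow, hn, LinearMap.baseChange_zero]
  · unfold MuTwo at hm ⊢
    rw [hV]
    have := AnyField_KK (AlgebraicClosure k) X Y
    omega
  · unfold STwo at hs ⊢
    exact hs.trans (AnyField_SS _ X Y)

end Pool.Agent.HWN
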