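import Pool.Agent.HWN.Defs

/-! The case analysis (section 4 of the text). -/

set_option autoImplicit false

namespace Pool.Agent.HWN

open Module

section

variable {k : Type*} {V : Type*} [Field k] [AddCommGroup V] [Module k V]

private theorem Cases_fr [FiniteDimensional k V] {W : Type*} [AddCommGroup W] [Module k W]
    (f : V →ₗ[k] W) (S : Submodule k V) :
    finrank k (S.map f) + finrank k (S ⊓ LinearMap.ker f : Submodule k V) = finrank k S := by
  have h := LinearMap.finrank_range_add_finrank_ker (f.domRestrict S)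
  have h1 : LinearMap.range (f.domRestrict S) = S.map f := LinearMap.range_domRestrict S f
  have h2 : finrank k (LinearMap.ker (f.domRestrict S)) =
      finrank k (S ⊓ LinearMap.ker f : Submodule k V) := by
    have e : (LinearMap.ker (f.domRestrict S)).map S.subtype =
        (S ⊓ LinearMap.ker f : Submodule k V) := by
      ext v
      constructor
      · rintro ⟨u, hu, rfl⟩
        exact ⟨u.2, hu⟩
      · rintro ⟨h1, h2⟩
        exact ⟨⟨v, h1⟩, h2, rfl⟩
    rw [← e]
    exact LinearEquiv.finrank_eq (Submodule.equivSubtypeMap S _)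
  rw [h1, h2] at h
  exact h

theorem PP_anti (Y : Module.End k V) {a b : ℕ} (h : a ≤ b) : PP Y b ≤ PP Y a := by
  refine inf_le_inf_left _ ?_
  rintro _ ⟨u, rfl⟩
  refine ⟨(Y ^ (b - 1 - (a - 1))) u, ?_⟩
  rw [← Module.End.mul_apply, ← pow_add, show a - 1 + (b - 1 - (a - 1)) = b - 1 by omega]

theorem FF_mono (Y : Module.End k V) {a b : ℕ} (h : a ≤ b) : FF Y a ≤ FF Y b := by
  refine sup_le_sup_left ?_ _
  intro u hu
  have hu' : (Y ^ a) u = 0 := hu
  change (Y ^ b) u = 0
  rw [show b = (b - a) + a by omega, pow_add, Module.End.mul_apply, hu', map_zero]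

/-- the dimensions of `F_a` and `P_(a+1)` -/
theorem FF_PP [FiniteDimensional k V] (Y : Module.End k V) (a : ℕ) :
    finrank k (FF Y a) + finrank k (PP Y (a + 1)) = finrank k V := by
  -- `rk Y^a = rk Y^(a+1) + dim P_(a+1)`
  have h1 := Cases_fr Y (LinearMap.range (Y ^ a))
  have e1 : (LinearMap.range (Y ^ a)).map Y = LinearMap.range (Y ^ (a + 1)) := by
    rw [pow_succ', Module.End.mul_eq_comp, LinearMap.range_comp]
  have e2 : (LinearMap.range (Y ^ a) ⊓ LinearMap.ker Y : Submodule k V) = PP Y (a + 1) := by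
    rw [inf_comm]; rfl
  rw [e1, e2] at h1
  -- `V → V / range Y^(a+1)`
  let Q := LinearMap.range (Y ^ (a + 1))
  have h2 := LinearMap.finrank_range_add_finrank_ker (Q.mkQ ∘ₗ (Y ^ a))
  have e3 : LinearMap.ker (Q.mkQ ∘ₗ (Y ^ a)) = FF Y a := by
    ext u
    rw [LinearMap.mem_ker, LinearMap.comp_apply, Submodule.mkQ_apply,
      Submodule.Quotient.mk_eq_zero]
    constructor
    · rintro ⟨w, hw⟩
      refine Submodule.mem_sup.mpr ⟨Y w, ⟨w, rfl⟩, u - Y w, ?_, by abel⟩
      change (Y ^ a) (u - Y w) = 0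
      rw [map_sub, ← hw, pow_succ, Module.End.mul_apply, sub_self]
    · intro hu
      obtain ⟨_, ⟨w, rfl⟩, u', hu', rfl⟩ := Submodule.mem_sup.mp hu
      have hu'' : (Y ^ a) u' = 0 := hu'
      refine ⟨w, ?_⟩
      rw [map_add, hu'', add_zero, pow_succ, Module.End.mul_apply]
  have e4 : LinearMap.range (Q.mkQ ∘ₗ (Y ^ a)) = (LinearMap.range (Y ^ a)).map Q.mkQ :=
    LinearMap.range_comp _ _
  have h3 := Cases_fr Q.mkQ (LinearMap.range (Y ^ a))
  have e5 : (LinearMap.range (Y ^ a) ⊓ LinearMap.ker Q.mkQ : Submodule k V) = Q := by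
    rw [Submodule.ker_mkQ]
    refine inf_eq_right.mpr ?_
    rintro _ ⟨u, rfl⟩
    rw [pow_succ]
    exact ⟨Y u, rfl⟩
  rw [e5] at h3
  rw [e3, e4] at h2
  have hQ : finrank k Q = finrank k (LinearMap.range (Y ^ (a + 1))) := rfl
  omega

private theorem Cases_dual (T : Module.End k V) (l : Module.Dual k V) (S : Submodule k V)
    (h : ∀ u : V, T u ∈ S → l u = 0) :
    ∃ r : Module.Dual k V, (∀ u : V, r (T u) = l u) ∧ ∀ u ∈ S, r u = 0 := by
  -- `V → V / S`
  have hk : l ∈ (LinearMap.ker (S.mkQ ∘ₗ T)).dualAnnihilator := by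
    rw [Submodule.mem_dualAnnihilator]
    intro u hu
    apply h
    rw [LinearMap.mem_ker, LinearMap.comp_apply, Submodule.mkQ_apply,
      Submodule.Quotient.mk_eq_zero] at hu
    exact hu
  rw [← LinearMap.range_dualMap_eq_dualAnnihilator_ker] at hk
  obtain ⟨r, hr⟩ := hk
  refine ⟨r ∘ₗ S.mkQ, fun u => ?_, fun u hu => ?_⟩
  · rw [← hr]; rfl
  · change r (S.mkQ u) = 0
    rw [Submodule.mkQ_apply, (Submodule.Quotient.mk_eq_zero S).mpr hu, map_zero]

variable (X Y : Module.End k V)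

private theorem Cases_42 (hY : IsNilpotent Y) (hS : ¬ LinearMap.ker Y ≤ SS X Y) :
    ∃ (a : ℕ) (v : V) (r : Module.Dual k V), Prim Y a v r ∧ ∀ u ∈ SS X Y, r u = 0 := by
  obtain ⟨N, hN⟩ := hY
  have hex : ∃ c, PP Y (c + 1) ≤ SS X Y := ⟨N, by
    rintro u ⟨-, w, hw⟩
    rw [Nat.add_sub_cancel, hN] at hw
    rw [← hw]
    exact Submodule.zero_mem _⟩
  classical
  let a := Nat.find hex
  have ha : PP Y (a + 1) ≤ SS X Y := Nat.find_spec hex
  have ha1 : 1 ≤ a := by
    by_contra h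
    have h0 : a = 0 := by omega
    apply hS
    refine le_trans ?_ ha
    rw [h0]
    intro u hu
    exact ⟨hu, u, rfl⟩
  have ha2 : ¬ PP Y a ≤ SS X Y := by
    have := Nat.find_min hex (m := a - 1) (by omega)
    rwa [show a - 1 + 1 = a by omega] at this
  obtain ⟨p, hp, hpS⟩ := SetLike.not_le_iff_exists.mp ha2
  obtain ⟨hp0, v, hv⟩ := hp
  have hp0' : Y p = 0 := hp0
  have hnot : p ∉ SS X Y ⊔ LinearMap.range (Y ^ a) := by
    intro h
    obtain ⟨s, hs, w, hw, hsw⟩ := Submodule.mem_sup.mp h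
    apply hpS
    rw [← hsw]
    refine Submodule.add_mem _ hs (ha ⟨?_, ?_⟩)
    · have : w = p - s := by rw [← hsw]; abel
      change Y w = 0
      rw [this, map_sub, hp0', show Y s = 0 from hs.2, sub_zero]
    · rw [Nat.add_sub_cancel]; exact hw
  obtain ⟨r, hr0, hr1⟩ := Submodule.exists_le_ker_of_notMem hnot
  refine ⟨a, v, r, ⟨ha1, ?_, fun u => hr1 (Submodule.mem_sup_right ⟨u, rfl⟩), ?_, v, ?_, ?_⟩,
    fun u hu => hr1 (Submodule.mem_sup_left hu)⟩
  · rw [show a = a - 1 + 1 by omega, pow_succ', Module.End.mul_apply, hv, hp0']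
  · rw [hv]; exact fun h => hnot (Submodule.mem_sup_right h)
  · rw [show a = a - 1 + 1 by omega, pow_succ', Module.End.mul_apply, hv, hp0']
  · rw [hv]; exact hr0

private theorem Cases_43 (hY : IsNilpotent Y) (hK : ¬ KK X Y ≤ LinearMap.range Y) :
    ∃ (a : ℕ) (v : V) (r : Module.Dual k V), Prim Y a v r ∧ v ∈ KK X Y := by
  obtain ⟨N, hN⟩ := hY
  have hYK : LinearMap.range Y ≤ KK X Y := le_sup_right
  have hex : ∃ c, ¬ (KK X Y ⊓ LinearMap.ker (Y ^ c) ≤ LinearMap.range Y) := ⟨N, by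
    intro h
    apply hK
    intro u hu
    refine h ⟨hu, ?_⟩
    change (Y ^ N) u = 0
    rw [hN]; rfl⟩
  classical
  let a := Nat.find hex
  have ha : ¬ (KK X Y ⊓ LinearMap.ker (Y ^ a) ≤ LinearMap.range Y) := Nat.find_spec hex
  have ha1 : 1 ≤ a := by
    by_contra h
    have h0 : a = 0 := by omega
    apply ha
    rw [h0]
    rintro u ⟨-, hu⟩
    have hu' : u = 0 := hu
    rw [hu']; exact Submodule.zero_mem _
  have ha2 : KK X Y ⊓ LinearMap.ker (Y ^ (a - 1)) ≤ LinearMap.range Y := by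
    have := Nat.find_min hex (m := a - 1) (by omega)
    exact not_not.mp this
  obtain ⟨v, ⟨hvK, hv⟩, hvY⟩ := SetLike.not_le_iff_exists.mp ha
  have hv' : (Y ^ a) v = 0 := hv
  have hnot : (Y ^ (a - 1)) v ∉ LinearMap.range (Y ^ a) := by
    rintro ⟨w, hw⟩
    apply hvY
    have h1 : v - Y w ∈ KK X Y ⊓ LinearMap.ker (Y ^ (a - 1)) := by
      refine ⟨Submodule.sub_mem _ hvK (hYK ⟨w, rfl⟩), ?_⟩
      change (Y ^ (a - 1)) (v - Y w) = 0
      rw [map_sub, ← hw, ← Module.End.mul_apply, ← pow_succ, show a - 1 + 1 = a by omega,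
        sub_self]
    have h2 := ha2 h1
    have : v = (v - Y w) + Y w := by abel
    rw [this]
    exact Submodule.add_mem _ h2 ⟨w, rfl⟩
  obtain ⟨r, hr0, hr1⟩ := Submodule.exists_le_ker_of_notMem hnot
  exact ⟨a, v, r, ⟨ha1, hv', fun u => hr1 ⟨u, rfl⟩, hnot, v, hv', hr0⟩, hvK⟩

/-- the main case `μ = s = 2` -/
private theorem Cases_22 [FiniteDimensional k V] (hXY : Commute X Y) (hY : IsNilpotent Y)
    (hK2 : finrank k (KK X Y) + 2 = finrank k V) (hS2 : finrank k (SS X Y) = 2)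
    (hA : ∀ (a : ℕ) (u : V), 1 ≤ a → Y ((Y ^ (a - 1)) u) = 0 →
      X ((Y ^ (a - 1)) u) ∈ LinearMap.range (Y ^ a))
    (hS : ¬ LinearMap.ker Y ≤ SS X Y) (hK : ¬ KK X Y ≤ LinearMap.range Y) :
    ∃ (a : ℕ) (v : V) (r : Module.Dual k V), Prim Y a v r ∧
      (v ∈ KK X Y ∨
        ∃ q : Module.Dual k V, (∀ u : V, q (Y u) = 0) ∧ ∀ u : V, r ((Y ^ (a - 1)) u) = q (X u)) ∧
      ((∀ u ∈ SS X Y, r u = 0) ∨ ∃ p : V, Y p = 0 ∧ (Y ^ (a - 1)) v = X p) := by
  classical
  obtain ⟨N, hN⟩ := hY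
  have hXYc : ∀ u : V, X (Y u) = Y (X u) := fun u => LinearMap.congr_fun hXY.eq u
  -- (A2)
  have hA2 : ∀ a : ℕ, 1 ≤ a → ∀ u : V, (Y ^ a) u = 0 → X u ∈ FF Y (a - 1) := by
    intro a ha u hu
    have h1 : Y ((Y ^ (a - 1)) u) = 0 := by
      rw [← Module.End.mul_apply, ← pow_succ', show a - 1 + 1 = a by omega, hu]
    obtain ⟨w, hw⟩ := hA a u ha h1
    refine Submodule.mem_sup.mpr ⟨Y w, ⟨w, rfl⟩, X u - Y w, ?_, by abel⟩
    change (Y ^ (a - 1)) (X u - Y w) = 0
    have h2 : X ((Y ^ (a - 1)) u) = (Y ^ (a - 1)) (X u) :=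
      LinearMap.congr_fun (hXY.pow_right (a - 1)).eq u
    rw [map_sub, ← h2, ← hw, ← Module.End.mul_apply, ← pow_succ, show a - 1 + 1 = a by omega,
      sub_self]
  have hA3 : ∀ a : ℕ, 1 ≤ a → ∀ u ∈ FF Y a, X u ∈ FF Y (a - 1) := by
    intro a ha u hu
    obtain ⟨_, ⟨w, rfl⟩, u', hu', rfl⟩ := Submodule.mem_sup.mp hu
    rw [map_add, hXYc]
    exact Submodule.add_mem _ (Submodule.mem_sup_left ⟨_, rfl⟩) (hA2 a ha u' hu')
  -- the function g
  set g : ℕ → ℕ := fun c => finrank k (PP Y (c + 1)) with hg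
  have hgF : ∀ c, finrank k (FF Y c) + g c = finrank k V := fun c => FF_PP Y c
  have hganti : ∀ c d, c ≤ d → g d ≤ g c := fun c d h =>
    Submodule.finrank_mono (PP_anti Y (by omega))
  -- level a
  have hexa : ∃ c, PP Y (c + 1) ≤ SS X Y := ⟨N, by
    rintro u ⟨-, w, hw⟩
    rw [Nat.add_sub_cancel, hN] at hw
    rw [← hw]
    exact Submodule.zero_mem _⟩
  obtain ⟨a, ha1, haS, ha2⟩ : ∃ a, 1 ≤ a ∧ PP Y (a + 1) ≤ SS X Y ∧ ¬ PP Y a ≤ SS X Y := by
    refine ⟨Nat.find hexa, ?_, Nat.find_spec hexa, ?_⟩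
    · by_contra h
      have h0 : Nat.find hexa = 0 := by omega
      apply hS
      refine le_trans ?_ (Nat.find_spec hexa)
      rw [h0]
      intro u hu
      exact ⟨hu, u, rfl⟩
    · have h1 : 1 ≤ Nat.find hexa := by
        by_contra h
        have h0 : Nat.find hexa = 0 := by omega
        apply hS
        refine le_trans ?_ (Nat.find_spec hexa)
        rw [h0]
        intro u hu
        exact ⟨hu, u, rfl⟩
      have := Nat.find_min hexa (m := Nat.find hexa - 1) (by omega)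
      rwa [show Nat.find hexa - 1 + 1 = Nat.find hexa by omega] at this
  obtain ⟨p, hp, hpS⟩ := SetLike.not_le_iff_exists.mp ha2
  obtain ⟨hp0, v1, hv1⟩ := hp
  have hp0' : Y p = 0 := hp0
  set w := X p with hw
  have hw0 : w ≠ 0 := fun h => hpS ⟨h, hp0⟩
  have hYw : Y w = 0 := by rw [hw, ← hXYc, hp0', map_zero]
  have hwa : w ∈ PP Y (a + 1) := by
    refine ⟨hYw, ?_⟩
    rw [Nat.add_sub_cancel, hw, ← hv1]
    exact hA a v1 ha1 (by rw [hv1]; exact hp0')
  -- level f of w
  have hexf : ∃ c, w ∉ PP Y (c + 1) := ⟨N, by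
    rintro ⟨-, u, hu⟩
    rw [Nat.add_sub_cancel, hN] at hu
    exact hw0 hu.symm⟩
  obtain ⟨f, hfa, hwf, hwf'⟩ : ∃ f, a < f ∧ w ∈ PP Y f ∧ w ∉ PP Y (f + 1) := by
    have h1 : a < Nat.find hexf := by
      by_contra h
      exact Nat.find_spec hexf (PP_anti Y (by omega) hwa)
    refine ⟨Nat.find hexf, h1, ?_, Nat.find_spec hexf⟩
    have := Nat.find_min hexf (m := Nat.find hexf - 1) (by omega)
    rw [not_not, show Nat.find hexf - 1 + 1 = Nat.find hexf by omega] at this
    exact this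
  -- level b
  have hexb : ∃ c, KK X Y ≤ FF Y c := ⟨N, by
    intro u _
    refine Submodule.mem_sup_right ?_
    change (Y ^ N) u = 0
    rw [hN]; rfl⟩
  obtain ⟨b, hb1, hKb, hKb'⟩ : ∃ b, 1 ≤ b ∧ KK X Y ≤ FF Y b ∧ ¬ KK X Y ≤ FF Y (b - 1) := by
    have h1 : 1 ≤ Nat.find hexb := by
      by_contra h
      have h0 : Nat.find hexb = 0 := by omega
      have h2 := Nat.find_spec hexb
      rw [h0] at h2
      apply hK
      refine h2.trans ?_
      refine sup_le le_rfl ?_
      intro u hu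
      have hu' : u = 0 := hu
      rw [hu']; exact Submodule.zero_mem _
    exact ⟨Nat.find hexb, h1, Nat.find_spec hexb, Nat.find_min hexb (by omega)⟩
  obtain ⟨κ, hκ, hκb⟩ := SetLike.not_le_iff_exists.mp hKb'
  obtain ⟨q, hq0, hq1⟩ := Submodule.exists_le_ker_of_notMem hκb
  have hqY : ∀ u : V, q (Y u) = 0 := fun u => hq1 (Submodule.mem_sup_left ⟨u, rfl⟩)
  set l : Module.Dual k V := q ∘ₗ X with hl
  have hlY : ∀ u : V, l (Y u) = 0 := fun u => by
    rw [hl, LinearMap.comp_apply, hXYc, hqY]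
  have hlF : FF Y b ≤ LinearMap.ker l := fun u hu => hq1 (hA3 b hb1 u hu)
  have hl0 : ∃ u, l u ≠ 0 := by
    obtain ⟨_, ⟨u, rfl⟩, _, ⟨u', rfl⟩, hκ'⟩ := Submodule.mem_sup.mp hκ
    refine ⟨u, ?_⟩
    rw [← hκ', map_add, hqY, add_zero] at hq0
    exact hq0
  have hexe : ∃ c, ¬ FF Y c ≤ LinearMap.ker l := ⟨N, by
    intro h
    obtain ⟨u, hu⟩ := hl0
    apply hu
    refine h (Submodule.mem_sup_right ?_)
    change (Y ^ N) u = 0
    rw [hN]; rfl⟩
  obtain ⟨e, hbe, hle, hle'⟩ : ∃ e, b < e ∧ FF Y (e - 1) ≤ LinearMap.ker l ∧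
      ¬ FF Y e ≤ LinearMap.ker l := by
    have h1 : b < Nat.find hexe := by
      by_contra h
      exact Nat.find_spec hexe ((FF_mono Y (by omega)).trans hlF)
    exact ⟨Nat.find hexe, h1, not_not.mp (Nat.find_min hexe (by omega)), Nat.find_spec hexe⟩
  obtain ⟨v', hv', hlv'⟩ : ∃ v' : V, (Y ^ e) v' = 0 ∧ l v' ≠ 0 := by
    by_contra h
    push Not at h
    apply hle'
    refine sup_le ?_ ?_
    · rintro _ ⟨u, rfl⟩
      exact hlY u
    · intro u hu
      exact h u hu
  -- numbers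
  have ga : g a ≤ 2 := by
    have := Submodule.finrank_mono haS
    rw [hS2] at this
    exact this
  have ga' : g a < g (a - 1) := by
    have h1 : PP Y (a + 1) < PP Y a := by
      refine lt_of_le_of_ne (PP_anti Y (by omega)) ?_
      intro h
      exact ha2 (h ▸ haS)
    have := Submodule.finrank_lt_finrank_of_lt h1
    simp only [hg]
    rwa [show a - 1 + 1 = a by omega]
  have gb : g b ≤ 2 := by
    have h1 := Submodule.finrank_mono hKb
    have h2 := hgF b
    omega
  have gb' : g b < g (b - 1) := by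
    have h1 : FF Y (b - 1) < FF Y b := by
      refine lt_of_le_of_ne (FF_mono Y (by omega)) ?_
      intro h
      exact hKb' (h ▸ hKb)
    have h2 := Submodule.finrank_lt_finrank_of_lt h1
    have h3 := hgF b
    have h4 := hgF (b - 1)
    omega
  have gf : g f < g (f - 1) := by
    have h1 : PP Y (f + 1) < PP Y f := by
      refine lt_of_le_of_ne (PP_anti Y (by omega)) ?_
      intro h
      exact hwf' (h ▸ hwf)
    have := Submodule.finrank_lt_finrank_of_lt h1
    simp only [hg]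
    rwa [show f - 1 + 1 = f by omega]
  have ge : g e < g (e - 1) := by
    have h1 : FF Y (e - 1) < FF Y e := by
      refine lt_of_le_of_ne (FF_mono Y (by omega)) ?_
      intro h
      exact hle' (h ▸ hle)
    have h2 := Submodule.finrank_lt_finrank_of_lt h1
    have h3 := hgF e
    have h4 := hgF (e - 1)
    omega
  -- `a = b`
  have hab : a = b → g a = 2 → ∃ (a : ℕ) (v : V) (r : Module.Dual k V), Prim Y a v r ∧
      (v ∈ KK X Y ∨
        ∃ q : Module.Dual k V, (∀ u : V, q (Y u) = 0) ∧ ∀ u : V, r ((Y ^ (a - 1)) u) = q (X u)) ∧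
      ((∀ u ∈ SS X Y, r u = 0) ∨ ∃ p : V, Y p = 0 ∧ (Y ^ (a - 1)) v = X p) := by
    intro hab hga
    subst hab
    have hKF : KK X Y = FF Y a := by
      refine Submodule.eq_of_le_of_finrank_eq hKb ?_
      have := hgF a
      omega
    have hSP : PP Y (a + 1) = SS X Y := Submodule.eq_of_le_of_finrank_eq haS (by
      rw [hS2]; exact hga)
    obtain ⟨v, hv, hvF⟩ : ∃ v : V, (Y ^ a) v = 0 ∧ v ∉ FF Y (a - 1) := by
      by_contra h
      push Not at h
      apply hKb'
      refine hKb.trans (sup_le le_sup_left ?_)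
      intro u hu
      exact h u hu
    have hpa : p ∉ LinearMap.range (Y ^ a) := by
      intro h
      apply hpS
      rw [← hSP]
      exact ⟨hp0, by rwa [Nat.add_sub_cancel]⟩
    obtain ⟨r, hr0, hr1⟩ := Submodule.exists_le_ker_of_notMem hpa
    refine ⟨a, v, r, ⟨ha1, hv, fun u => hr1 ⟨u, rfl⟩, ?_, v1, ?_, ?_⟩, Or.inl ?_, Or.inl ?_⟩
    · rintro ⟨u, hu⟩
      apply hvF
      refine Submodule.mem_sup.mpr ⟨Y u, ⟨u, rfl⟩, v - Y u, ?_, by abel⟩
      change (Y ^ (a - 1)) (v - Y u) = 0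
      rw [map_sub, ← hu, ← Module.End.mul_apply, ← pow_succ, show a - 1 + 1 = a by omega,
        sub_self]
    · rw [show a = a - 1 + 1 by omega, pow_succ', Module.End.mul_apply, hv1, hp0']
    · rw [hv1]; exact hr0
    · rw [hKF]; exact Submodule.mem_sup_right hv
    · intro u hu
      rw [← hSP] at hu
      have := hu.2
      rw [Nat.add_sub_cancel] at this
      exact hr1 this
  rcases lt_trichotomy e f with hef | hef | hef
  · by_cases hea : a < e
    · -- (ii)
      have i1 := hganti a (e - 1) (by omega)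
      have i2 := hganti e (f - 1) (by omega)
      have i3 := hganti b (e - 1) (by omega)
      refine hab ?_ (by omega)
      rcases lt_trichotomy a b with h | h | h
      · have := hganti a (b - 1) (by omega)
        omega
      · exact h
      · have := hganti b (a - 1) (by omega)
        omega
    · -- (iii)
      have i1 := hganti b (e - 1) (by omega)
      have i2 := hganti (e - 1) (a - 1) (by omega)
      have i3 := hganti a (f - 1) (by omega)
      have hea' : e = a := by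
        by_contra h
        have := hganti e (a - 1) (by omega)
        omega
      subst hea'
      -- S ∩ P_e = P_(e+1)
      have hSP : SS X Y ⊓ PP Y e = PP Y (e + 1) := by
        refine (Submodule.eq_of_le_of_finrank_le (le_inf haS (PP_anti Y (by omega))) ?_).symm
        have h1 : SS X Y ⊓ PP Y e < PP Y e := by
          refine lt_of_le_of_ne inf_le_right ?_
          intro h
          exact ha2 (inf_eq_right.mp h)
        have h2 := Submodule.finrank_lt_finrank_of_lt h1
        have h3 : g (e - 1) = finrank k (PP Y e) := by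
          simp only [hg]; rw [show e - 1 + 1 = e by omega]
        have h4 : g e = finrank k (PP Y (e + 1)) := rfl
        omega
      obtain ⟨r, hr1, hr2⟩ := Cases_dual (Y ^ (e - 1)) l (SS X Y) (by
        intro u hu
        have h1 : (Y ^ (e - 1)) u ∈ SS X Y ⊓ PP Y e := ⟨hu, hu.2, u, rfl⟩
        rw [hSP] at h1
        obtain ⟨-, w', hw'⟩ := h1
        rw [Nat.add_sub_cancel] at hw'
        have h2 : u - Y w' ∈ FF Y (e - 1) := by
          refine Submodule.mem_sup_right ?_
          change (Y ^ (e - 1)) (u - Y w') = 0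
          rw [map_sub, ← hw', ← Module.End.mul_apply, ← pow_succ, show e - 1 + 1 = e by omega,
            sub_self]
        have h3 : l (u - Y w') = 0 := hle h2
        rw [map_sub, hlY, sub_zero] at h3
        exact h3)
      -- a primitive element of level e
      have hp2 : p ∉ LinearMap.range (Y ^ e) := by
        intro h
        exact hpS (haS ⟨hp0, by rwa [Nat.add_sub_cancel]⟩)
      refine ⟨e, v1, r, ⟨ha1, ?_, ?_, ?_, v', hv', ?_⟩, Or.inr ⟨q, hqY, fun u => ?_⟩, Or.inl hr2⟩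
      · rw [show e = e - 1 + 1 by omega, pow_succ', Module.End.mul_apply, hv1, hp0']
      · intro u
        rw [show e = e - 1 + 1 by omega, pow_succ, Module.End.mul_apply, hr1, hlY]
      · rw [hv1]; exact hp2
      · rw [hr1]; exact hlv'
      · rw [hr1]; rfl
  · -- (i)
    subst hef
    obtain ⟨-, v, hv⟩ := hwf
    obtain ⟨r, hr1, -⟩ := Cases_dual (Y ^ (e - 1)) l ⊥ (by
      intro u hu
      exact hle (Submodule.mem_sup_right hu))
    refine ⟨e, v, r, ⟨by omega, ?_, ?_, ?_, v', hv', ?_⟩, Or.inr ⟨q, hqY, fun u => ?_⟩,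
      Or.inr ⟨p, hp0', hv⟩⟩
    · rw [show e = e - 1 + 1 by omega, pow_succ', Module.End.mul_apply, hv, hYw]
    · intro u
      rw [show e = e - 1 + 1 by omega, pow_succ, Module.End.mul_apply, hr1, hlY]
    · rw [hv]
      intro h
      exact hwf' ⟨hYw, by rwa [Nat.add_sub_cancel]⟩
    · rw [hr1]; exact hlv'
    · rw [hr1]; rfl
  · by_cases hfb : b < f
    · -- (iv)
      have i1 := hganti b (f - 1) (by omega)
      have i2 := hganti f (e - 1) (by omega)
      have i3 := hganti a (f - 1) (by omega)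
      refine hab ?_ (by omega)
      rcases lt_trichotomy a b with h | h | h
      · have := hganti a (b - 1) (by omega)
        omega
      · exact h
      · have := hganti b (a - 1) (by omega)
        omega
    · -- (v)
      have i1 := hganti a (f - 1) (by omega)
      have i2 := hganti (f - 1) (b - 1) (by omega)
      have i3 := hganti b (e - 1) (by omega)
      have hfb' : f = b := by
        by_contra h
        have := hganti f (b - 1) (by omega)
        omega
      subst hfb'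
      -- K + F_(f-1) = F_f
      have hsum : KK X Y ⊔ FF Y (f - 1) = FF Y f := by
        refine Submodule.eq_of_le_of_finrank_le (sup_le hKb (FF_mono Y (by omega))) ?_
        have h1 : KK X Y < KK X Y ⊔ FF Y (f - 1) := by
          refine lt_of_le_of_ne le_sup_left ?_
          intro h
          have h2 : FF Y (f - 1) ≤ KK X Y := h ▸ le_sup_right
          apply hKb'
          refine le_of_eq (Submodule.eq_of_le_of_finrank_eq h2 ?_).symm
          have h3 := hgF (f - 1)
          omega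
        have h2 := Submodule.finrank_lt_finrank_of_lt h1
        have h3 := hgF f
        omega
      obtain ⟨-, u, hu⟩ := hwf
      have huf : (Y ^ f) u = 0 := by
        rw [show f = f - 1 + 1 by omega, pow_succ', Module.End.mul_apply, hu, hYw]
      have huF : u ∈ KK X Y ⊔ FF Y (f - 1) := by
        rw [hsum]; exact Submodule.mem_sup_right huf
      obtain ⟨κ', hκ', x1, hx1, hux⟩ := Submodule.mem_sup.mp huF
      obtain ⟨_, ⟨w', rfl⟩, u1, hu1, hx1'⟩ := Submodule.mem_sup.mp hx1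
      have hu1' : (Y ^ (f - 1)) u1 = 0 := hu1
      have hvK : u - u1 ∈ KK X Y := by
        have : u - u1 = κ' + Y w' := by rw [← hux, ← hx1']; abel
        rw [this]
        exact Submodule.add_mem _ hκ' (Submodule.mem_sup_right ⟨w', rfl⟩)
      have hvw : (Y ^ (f - 1)) (u - u1) = w := by rw [map_sub, hu1', sub_zero, hu]
      have hwn : w ∉ LinearMap.range (Y ^ f) := by
        intro h
        exact hwf' ⟨hYw, by rwa [Nat.add_sub_cancel]⟩
      obtain ⟨r, hr0, hr1⟩ := Submodule.exists_le_ker_of_notMem hwn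
      refine ⟨f, u - u1, r, ⟨by omega, ?_, fun u => hr1 ⟨u, rfl⟩, ?_, u - u1, ?_, ?_⟩,
        Or.inl hvK, Or.inr ⟨p, hp0', hvw⟩⟩
      · rw [show f = f - 1 + 1 by omega, pow_succ', Module.End.mul_apply, hvw, hYw]
      · rw [hvw]; exact hwn
      · rw [show f = f - 1 + 1 by omega, pow_succ', Module.End.mul_apply, hvw, hYw]
      · rw [hvw]; exact hr0

end

/-- the case analysis -/
theorem cases {k : Type*} {V : Type*} [Field k] [AddCommGroup V] [Module k V]
    [FiniteDimensional k V] (X Y : Module.End k V) (hXY : Commute X Y) (hY : IsNilpotent Y)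
    (hm : MuTwo X Y) (hs : STwo X Y)
    (hA : ∀ (a : ℕ) (u : V), 1 ≤ a → Y ((Y ^ (a - 1)) u) = 0 →
      X ((Y ^ (a - 1)) u) ∈ LinearMap.range (Y ^ a)) :
    (KK X Y = LinearMap.range Y ∧ SS X Y = LinearMap.ker Y) ∨
    ∃ (a : ℕ) (v : V) (r : Module.Dual k V), Prim Y a v r ∧
      (finrank k (KK X Y) + 3 ≤ finrank k V ∨ v ∈ KK X Y ∨
        ∃ q : Module.Dual k V, (∀ u : V, q (Y u) = 0) ∧ ∀ u : V, r ((Y ^ (a - 1)) u) = q (X u)) ∧
      (3 ≤ finrank k (SS X Y) ∨ (∀ u ∈ SS X Y, r u = 0) ∨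
        ∃ p : V, Y p = 0 ∧ (Y ^ (a - 1)) v = X p) := by
  have hYK : LinearMap.range Y ≤ KK X Y := le_sup_right
  have hSY : SS X Y ≤ LinearMap.ker Y := inf_le_right
  have hn := LinearMap.finrank_range_add_finrank_ker Y
  unfold MuTwo at hm
  unfold STwo at hs
  have h42 : finrank k (KK X Y) + 3 ≤ finrank k V → ¬ LinearMap.ker Y ≤ SS X Y → ∃ (a : ℕ)
      (v : V) (r : Module.Dual k V), Prim Y a v r ∧
      (finrank k (KK X Y) + 3 ≤ finrank k V ∨ v ∈ KK X Y ∨
        ∃ q : Module.Dual k V, (∀ u : V, q (Y u) = 0) ∧ ∀ u : V, r ((Y ^ (a - 1)) u) = q (X u)) ∧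
      (3 ≤ finrank k (SS X Y) ∨ (∀ u ∈ SS X Y, r u = 0) ∨
        ∃ p : V, Y p = 0 ∧ (Y ^ (a - 1)) v = X p) := by
    intro h1 h2
    obtain ⟨a, v, r, hp, hr⟩ := Cases_42 X Y hY h2
    exact ⟨a, v, r, hp, Or.inl h1, Or.inr (Or.inl hr)⟩
  have h43 : 3 ≤ finrank k (SS X Y) → ¬ KK X Y ≤ LinearMap.range Y → ∃ (a : ℕ)
      (v : V) (r : Module.Dual k V), Prim Y a v r ∧
      (finrank k (KK X Y) + 3 ≤ finrank k V ∨ v ∈ KK X Y ∨
        ∃ q : Module.Dual k V, (∀ u : V, q (Y u) = 0) ∧ ∀ u : V, r ((Y ^ (a - 1)) u) = q (X u)) ∧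
      (3 ≤ finrank k (SS X Y) ∨ (∀ u ∈ SS X Y, r u = 0) ∨
        ∃ p : V, Y p = 0 ∧ (Y ^ (a - 1)) v = X p) := by
    intro h1 h2
    obtain ⟨a, v, r, hp, hr⟩ := Cases_43 X Y hY h2
    exact ⟨a, v, r, hp, Or.inr (Or.inl hr), Or.inl h1⟩
  by_cases hS : LinearMap.ker Y ≤ SS X Y
  · by_cases hK : KK X Y ≤ LinearMap.range Y
    · exact Or.inl ⟨le_antisymm hK hYK, le_antisymm hSY hS⟩
    · right
      refine h43 ?_ hK
      have h1 := Submodule.finrank_mono hS
      have h2 : LinearMap.range Y < KK X Y := lt_of_le_not_ge hYK hK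
      have h3 := Submodule.finrank_lt_finrank_of_lt h2
      omega
  · right
    by_cases hK : KK X Y ≤ LinearMap.range Y
    · refine h42 ?_ hS
      have h1 := Submodule.finrank_mono hK
      have h2 : SS X Y < LinearMap.ker Y := lt_of_le_not_ge hSY hS
      have h3 := Submodule.finrank_lt_finrank_of_lt h2
      omega
    · by_cases h1 : finrank k (KK X Y) + 3 ≤ finrank k V
      · exact h42 h1 hS
      · by_cases h2 : 3 ≤ finrank k (SS X Y)
        · exact h43 h2 hK
        · obtain ⟨a, v, r, hp, hm', hs'⟩ := Cases_22 X Y hXY hY (by omega) (by omega) hA hS hK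
          exact ⟨a, v, r, hp, Or.inr hm', Or.inr hs'⟩

end Pool.Agent.HWN
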