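import Pool.Agent.HWC.Defs

/-! The statement of MP_7dc157_al.CodimensionTwo. -/

set_option autoImplicit false

namespace Pool.Agent.HWN

open IsLocalRing Module Pool.Agent.HWC

/-- `M` is generated by `rank M + 1` elements. -/
def OneMore (R M : Type) [CommRing R] [AddCommGroup M] [Module R M] : Prop :=
  ∃ g : Fin (finrank R M + 1) → M, Submodule.span R (Set.range g) = ⊤

/-- Let `R` be a one-dimensional Gorenstein local domain with maximal ideal `(x, y, z)`, `x ≠ 0`, such
that `R / x R` contains a field (for instance, such that `R` contains a field). Let `M` be a finitely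
generated torsionfree `R`-module of rank at most one (for instance an ideal), or such that `M` or
`M*` is generated by one element more than the rank. If `M ⊗ M*` is reflexive, then `M` is free. -/
def CodimTwo : Prop :=
  ∀ (R : Type) [CommRing R] [IsDomain R] [IsLocalRing R] [IsNoetherianRing R], GorOne R →
    ∀ x y z : R, x ≠ 0 → maximalIdeal R = Ideal.span {x, y, z} →
    (∃ (F : Type) (_ : Field F), Nonempty (F →+* R ⧸ Ideal.span {x})) →
    ∀ (M : Type) [AddCommGroup M] [Module R M] [Module.Finite R M] [NoZeroSMulDivisors R M],
    finrank R M ≤ 1 ∨ OneMore R M ∨ OneMore R (Module.Dual R M) →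
    Module.IsReflexive R (TensorProduct R M (Module.Dual R M)) → Module.Free R M

end Pool.Agent.HWN
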