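import Pool.Agent.HWN.GProps

/-! Sufficient conditions for `dim V/K ≥ 2` and `dim S ≥ 2` to persist for `X + t G`. -/

set_option autoImplicit false

namespace Pool.Agent.HWN

open Module

universe u

theorem mu_cond {k : Type*} {V : Type*} [Field k] [AddCommGroup V] [Module k V]
    [FiniteDimensional k V] (X Y : Module.End k V) (a : ℕ) (ha : 1 ≤ a) (v : V)
    (r : Module.Dual k V) (hm : MuTwo X Y)
    (h : finrank k (KK X Y) + 3 ≤ finrank k V ∨ v ∈ KK X Y ∨
      ∃ q : Module.Dual k V, (∀ u : V, q (Y u) = 0) ∧ ∀ u : V, r ((Y ^ (a - 1)) u) = q (X u)) :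
    ∀ t : k, MuTwo (X + t • GG Y a v r) Y := by
  intro t
  unfold MuTwo at hm ⊢
  -- the value of `X + tG`
  have hval : ∀ u : V, ∃ w : V, (X + t • GG Y a v r) u =
      X u + (t * r ((Y ^ (a - 1)) u)) • v + Y w := by
    intro u
    obtain ⟨w, hw⟩ := GG_mod Y a ha v r u
    refine ⟨t • w, ?_⟩
    rw [LinearMap.add_apply, LinearMap.smul_apply, map_smul, hw, smul_sub, mul_smul]
    abel
  have hX : ∀ u : V, X u ∈ KK X Y := fun u => Submodule.mem_sup_left ⟨u, rfl⟩
  have hY : ∀ u : V, Y u ∈ KK X Y := fun u => Submodule.mem_sup_right ⟨u, rfl⟩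
  rcases h with h | h | ⟨q, hq1, hq2⟩
  · have h1 : KK (X + t • GG Y a v r) Y ≤ KK X Y ⊔ Submodule.span k {v} := by
      refine sup_le ?_ ?_
      · rintro _ ⟨u, rfl⟩
        obtain ⟨w, hw⟩ := hval u
        rw [hw]
        refine Submodule.add_mem _ (Submodule.add_mem _ (Submodule.mem_sup_left (hX u)) ?_)
          (Submodule.mem_sup_left (hY w))
        exact Submodule.mem_sup_right (Submodule.smul_mem _ _ (Submodule.mem_span_singleton_self v))
      · rintro _ ⟨u, rfl⟩
        exact Submodule.mem_sup_left (hY u)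
    have h2 := Submodule.finrank_mono h1
    have h3 := Submodule.finrank_add_le_finrank_add_finrank (KK X Y) (Submodule.span k {v})
    have h4 : finrank k (Submodule.span k {v}) ≤ 1 := by
      have := finrank_span_le_card (R := k) ({v} : Set V)
      simpa using this
    omega
  · have h1 : KK (X + t • GG Y a v r) Y ≤ KK X Y := by
      refine sup_le ?_ ?_
      · rintro _ ⟨u, rfl⟩
        obtain ⟨w, hw⟩ := hval u
        rw [hw]
        exact Submodule.add_mem _ (Submodule.add_mem _ (hX u) (Submodule.smul_mem _ _ h)) (hY w)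
      · rintro _ ⟨u, rfl⟩
        exact hY u
    have h2 := Submodule.finrank_mono h1
    omega
  · let φ : Module.End k V := 1 + t • q.smulRight v
    have hφ : ∀ u : V, φ u = u + (t * q u) • v := by
      intro u
      simp [φ, mul_smul]
    have h1 : KK (X + t • GG Y a v r) Y ≤ (KK X Y).map φ := by
      have hYφ : ∀ w : V, Y w ∈ (KK X Y).map φ := by
        intro w
        refine ⟨Y w, hY w, ?_⟩
        rw [hφ, hq1, mul_zero, zero_smul, add_zero]
      refine sup_le ?_ ?_
      · rintro _ ⟨u, rfl⟩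
        obtain ⟨w, hw⟩ := hval u
        rw [hw]
        refine Submodule.add_mem _ ⟨X u, hX u, ?_⟩ (hYφ w)
        rw [hφ, hq2]
      · rintro _ ⟨u, rfl⟩
        exact hYφ u
    have h2 := Submodule.finrank_mono h1
    have h3 := Submodule.finrank_map_le φ (KK X Y)
    omega

theorem s_cond {k : Type*} {V : Type*} [Field k] [AddCommGroup V] [Module k V]
    [FiniteDimensional k V] (X Y : Module.End k V) (hXY : Commute X Y) (a : ℕ) (ha : 1 ≤ a) (v : V)
    (r : Module.Dual k V) (hs : STwo X Y)
    (h : 3 ≤ finrank k (SS X Y) ∨ (∀ u ∈ SS X Y, r u = 0) ∨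
      ∃ p : V, Y p = 0 ∧ (Y ^ (a - 1)) v = X p) :
    ∀ t : k, STwo (X + t • GG Y a v r) Y := by
  intro t
  unfold STwo at hs ⊢
  have hval : ∀ u : V, Y u = 0 → (X + t • GG Y a v r) u =
      X u + (t * r u) • (Y ^ (a - 1)) v := by
    intro u hu
    rw [LinearMap.add_apply, LinearMap.smul_apply, GG_ker Y a ha v r u hu, mul_smul]
  have hin : ∀ u ∈ SS X Y, r u = 0 → u ∈ SS (X + t • GG Y a v r) Y := by
    intro u hu hr
    refine ⟨?_, hu.2⟩
    change (X + t • GG Y a v r) u = 0
    rw [hval u hu.2, hr, mul_zero, zero_smul, add_zero]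
    exact hu.1
  rcases h with h | h | ⟨p, hp1, hp2⟩
  · have h1 : (SS X Y ⊓ LinearMap.ker r : Submodule k V) ≤ SS (X + t • GG Y a v r) Y :=
      fun u hu => hin u hu.1 hu.2
    have h2 := Submodule.finrank_mono h1
    have h3 := Submodule.finrank_sup_add_finrank_inf_eq (SS X Y) (LinearMap.ker r)
    have h4 := LinearMap.finrank_range_add_finrank_ker r
    have h5 : finrank k (LinearMap.range r) ≤ 1 := by
      have := Submodule.finrank_le (LinearMap.range r)
      rwa [finrank_self] at this
    have h6 := Submodule.finrank_le (SS X Y ⊔ LinearMap.ker r)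
    omega
  · have h1 : SS X Y ≤ SS (X + t • GG Y a v r) Y := fun u hu => hin u hu (h u hu)
    have h2 := Submodule.finrank_mono h1
    omega
  · let P := LinearMap.ker Y
    let ψ : P →ₗ[k] P := LinearMap.id + t • LinearMap.smulRight (r ∘ₗ P.subtype) (⟨p, hp1⟩ : P)
    have hψ : ∀ u : P, ((ψ u : P) : V) = (u : V) + (t * r (u : V)) • p := by
      intro u
      simp [ψ, mul_smul]
    let S : Submodule k P := (SS X Y).comap P.subtype
    have hS : finrank k S = finrank k (SS X Y) := by
      refine LinearEquiv.finrank_eq (Submodule.comapSubtypeEquivOfLe ?_)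
      exact inf_le_right
    have hker : (S.comap ψ).map P.subtype ≤ SS (X + t • GG Y a v r) Y := by
      rintro _ ⟨u, hu, rfl⟩
      have hu1 : ((ψ u : P) : V) ∈ SS X Y := hu
      refine ⟨?_, u.2⟩
      change (X + t • GG Y a v r) (u : V) = 0
      rw [hval _ u.2, hp2, ← map_smul, ← map_add, ← hψ]
      exact hu1.1
    have hdim : finrank k S ≤ finrank k (S.comap ψ) := by
      have e1 : S.comap ψ = LinearMap.ker (S.mkQ ∘ₗ ψ) := by
        rw [LinearMap.ker_comp, Submodule.ker_mkQ]
      have e2 := LinearMap.finrank_range_add_finrank_ker (S.mkQ ∘ₗ ψ)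
      have e3 : finrank k (LinearMap.range (S.mkQ ∘ₗ ψ)) ≤ finrank k (P ⧸ S) :=
        Submodule.finrank_le _
      have e4 := Submodule.finrank_quotient_add_finrank S
      rw [e1]
      omega
    have h1 := Submodule.finrank_mono hker
    have h2 : finrank k ((S.comap ψ).map P.subtype) = finrank k (S.comap ψ) :=
      LinearEquiv.finrank_eq (Submodule.equivSubtypeMap P (S.comap ψ)).symm
    omega

end Pool.Agent.HWN
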