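import Pool.Agent.HWC.PkgOf
import Pool.Agent.HWC.LiftRefl
import Pool.Agent.HWC.ExistsAF
import Pool.Agent.HWC.DimsL
import Pool.Agent.HWC.CommutL
import Pool.Agent.HWC.FreeQuotL
import Pool.Agent.HWC.Reflex

/-! From a module `M` over `R` to the module `M / x M` over the algebra `R / x R`. -/

set_option autoImplicit false

namespace Pool.Agent.HWN

open IsLocalRing Module Pool.Agent.HWC

/-- the rank is the rank up to a power of `x` -/
theorem rank_of_AF (R M : Type) [CommRing R] [IsDomain R] [IsNoetherianRing R] [AddCommGroup M]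
    [Module R M] [Module.Finite R M] (hM : TF R M) (x : R) (hx0 : x ≠ 0) (q : ℕ)
    (h : AF R M x q) : finrank R M = q := by
  obtain ⟨N, j, p, hjp, hpj⟩ := h
  have hxN : x ^ N ≠ 0 := pow_ne_zero N hx0
  have hj : Function.Injective j := by
    rw [injective_iff_map_eq_zero]
    intro v hv
    have h1 : x ^ N • v = 0 := by rw [← hpj, hv, map_zero]
    exact (smul_eq_zero.mp h1).resolve_left hxN
  have hp : Function.Injective p := by
    rw [injective_iff_map_eq_zero]
    intro v hv
    have h1 : x ^ N • v = 0 := by rw [← hjp, hv, map_zero]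
    exact (hM _ _ h1).resolve_left hxN
  refine le_antisymm ?_ ?_
  · have := LinearMap.finrank_le_finrank_of_injective hp
    rwa [Module.finrank_fin_fun] at this
  · have := LinearMap.finrank_le_finrank_of_injective hj
    rwa [Module.finrank_fin_fun] at this

/-- the passage to `R / x R`; the algebra structure over `k` maps onto the residue field. -/
theorem core (R : Type) [CommRing R] [IsDomain R] [IsLocalRing R] [IsNoetherianRing R]
    (hR : Pkg R) (x : R) (hx : x ∈ maximalIdeal R) (hx0 : x ≠ 0) (k : Type) [Field k]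
    [Algebra k (R ⧸ Ideal.span {x})] [IsLocalRing (R ⧸ Ideal.span {x})]
    (hres : Function.Surjective (algebraMap k (ResidueField (R ⧸ Ideal.span {x}))))
    (M : Type) [AddCommGroup M] [Module R M] [Module.Finite R M] [NoZeroSMulDivisors R M]
    (q : ℕ) (hAF : AF R M x q)
    (hrefl : Module.IsReflexive R (TensorProduct R M (Module.Dual R M)))
    (hB : ∀ [Module.Finite k (R ⧸ Ideal.span {x})]
      [Module k (M ⧸ (Ideal.span {x} • ⊤ : Submodule R M))]
      [IsScalarTower k (R ⧸ Ideal.span {x}) (M ⧸ (Ideal.span {x} • ⊤ : Submodule R M))]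
      [Module.Finite k (M ⧸ (Ideal.span {x} • ⊤ : Submodule R M))],
      finrank k (M ⧸ (Ideal.span {x} • ⊤ : Submodule R M)) =
        q * finrank k (R ⧸ Ideal.span {x}) →
      finrank k (Module.End (R ⧸ Ideal.span {x}) (M ⧸ (Ideal.span {x} • ⊤ : Submodule R M))) =
        q ^ 2 * finrank k (R ⧸ Ideal.span {x}) →
      Module.Free (R ⧸ Ideal.span {x}) (M ⧸ (Ideal.span {x} • ⊤ : Submodule R M))) :
    Module.Free R M := by
  have hTF : TF R M := fun s m h0 => smul_eq_zero.mp h0
  have hLR : Lift R M x := lift_of_reflexive R hR M hTF hrefl _ hx0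
  let X : Submodule R M := Ideal.span {x} • ⊤
  have hkR : ∀ m : M, X.mkQ m = 0 ↔ ∃ w : M, m = x • w := by
    intro m
    rw [show X.mkQ m = 0 ↔ m ∈ (Ideal.span {x} • ⊤ : Submodule R M) from
      Submodule.Quotient.mk_eq_zero X,
      Submodule.ideal_span_singleton_smul, Submodule.mem_smul_pointwise_iff_exists]
    constructor
    · rintro ⟨w, -, hw⟩; exact ⟨w, hw.symm⟩
    · rintro ⟨w, hw⟩; exact ⟨w, trivial, hw.symm⟩
  have hfin := finLen R hR x hx0
  have hdR := dimsL R R M (M ⧸ X) x hfin
    (fun s hs => (mul_eq_zero.mp hs).resolve_left hx0)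
    (fun m hm => (smul_eq_zero.mp hm).resolve_left hx0) q hAF X.mkQ X.mkQ_surjective hkR
  refine free_of_quotL R M x hx hx0 q hAF hfin hdR.1 ?_
  have hs : Function.Surjective (algebraMap R (R ⧸ Ideal.span {x})) :=
    Ideal.Quotient.mk_surjective
  have l1 : Module.length (R ⧸ Ideal.span {x}) (M ⧸ X) = Module.length R (M ⧸ X) :=
    (Module.length_eq_of_surjective hs).symm
  have l2 : Module.length (R ⧸ Ideal.span {x}) (R ⧸ Ideal.span {x}) =
      Module.length R (R ⧸ Ideal.span {x}) :=
    (Module.length_eq_of_surjective hs).symm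
  have l3 : Module.length (R ⧸ Ideal.span {x}) (Module.End (R ⧸ Ideal.span {x}) (M ⧸ X)) =
      Module.length R (Module.End (R ⧸ Ideal.span {x}) (M ⧸ X)) :=
    (Module.length_eq_of_surjective hs).symm
  have e : Module.length R (Module.End (R ⧸ Ideal.span {x}) (M ⧸ X)) =
      Module.length R (Module.End R (M ⧸ X)) := by
    refine LinearEquiv.length_eq (LinearEquiv.ofBijective (⟨⟨fun f => f.restrictScalars R,
      fun _ _ => rfl⟩, fun _ _ => rfl⟩ :
        Module.End (R ⧸ Ideal.span {x}) (M ⧸ X) →ₗ[R] Module.End R (M ⧸ X)) ⟨?_, ?_⟩)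
    · intro f g hfg
      exact LinearMap.ext fun v => LinearMap.congr_fun hfg v
    · intro f
      refine ⟨⟨⟨f, f.map_add⟩, ?_⟩, rfl⟩
      intro a v
      obtain ⟨a, rfl⟩ := Ideal.Quotient.mk_surjective a
      exact f.map_smul a v
  have hfN : Module.Finite (R ⧸ Ideal.span {x}) (M ⧸ X) :=
    Module.Finite.of_restrictScalars_finite R _ _
  -- lengths over `k`
  let _ : Module k (M ⧸ X) := Module.compHom (M ⧸ X) (algebraMap k (R ⧸ Ideal.span {x}))
  have hst : IsScalarTower k (R ⧸ Ideal.span {x}) (M ⧸ X) := ⟨fun s r m => by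
    rw [Algebra.smul_def, mul_smul]; rfl⟩
  have hκ : Module.length k (ResidueField (R ⧸ Ideal.span {x})) = 1 := by
    have e1 : Module.length k (ResidueField (R ⧸ Ideal.span {x})) =
        Module.length (ResidueField (R ⧸ Ideal.span {x}))
          (ResidueField (R ⧸ Ideal.span {x})) := Module.length_eq_of_surjective hres
    rw [e1, Module.length_eq_one_iff]
    infer_instance
  have hBt : Module.length (R ⧸ Ideal.span {x}) (R ⧸ Ideal.span {x}) ≠ ⊤ := by rw [l2]; exact hfin
  have hNt : Module.length (R ⧸ Ideal.span {x}) (M ⧸ X) ≠ ⊤ := by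
    rw [l1, hdR.1]; exact WithTop.mul_ne_top (ENat.natCast_ne_top _) hfin
  have hEt : Module.length (R ⧸ Ideal.span {x})
      (Module.End (R ⧸ Ideal.span {x}) (M ⧸ X)) ≠ ⊤ := by
    rw [l3, e]; exact hdR.2.1
  have s1 := len_scale k (R ⧸ Ideal.span {x}) (M ⧸ X) hNt
  have s2 := len_scale k (R ⧸ Ideal.span {x}) (R ⧸ Ideal.span {x}) hBt
  have s3 := len_scale k (R ⧸ Ideal.span {x})
    (Module.End (R ⧸ Ideal.span {x}) (M ⧸ X)) hEt
  rw [hκ, one_mul] at s1 s2 s3
  have hfB : Module.Finite k (R ⧸ Ideal.span {x}) := by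
    have h1 : Module.length k (R ⧸ Ideal.span {x}) ≠ ⊤ := by rw [s2]; exact hBt
    have h2 := Module.length_ne_top_iff.mp h1
    have h3 := (isFiniteLength_iff_isNoetherian_isArtinian.mp h2).1
    exact Module.IsNoetherian.finite k _
  have hfNk : Module.Finite k (M ⧸ X) := Module.Finite.trans (R ⧸ Ideal.span {x}) _
  have hart : IsArtinianRing (R ⧸ Ideal.span {x}) := IsArtinianRing.of_finite k _
  have hfE : Module.Finite (R ⧸ Ideal.span {x})
    (Module.End (R ⧸ Ideal.span {x}) (M ⧸ X)) := inferInstance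
  have hfEk : Module.Finite k (Module.End (R ⧸ Ideal.span {x}) (M ⧸ X)) :=
    Module.Finite.trans (R ⧸ Ideal.span {x}) _
  rw [Module.length_eq_finrank, l1, hdR.1, ← l2, ← s2, Module.length_eq_finrank] at s1
  rw [Module.length_eq_finrank, l3, e, hdR.2.2.2.mp hLR, ← l2, ← s2,
    Module.length_eq_finrank] at s3
  exact hB (by exact_mod_cast s1) (by exact_mod_cast s3)

end Pool.Agent.HWN
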