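import Mathlib

/-! Pairs of commuting matrices, for (HWC) in codimension two (MP_7dc157_al): definitions. -/

set_option autoImplicit false

namespace Pool.Agent.HWN

open Module

universe u

section

variable {k : Type*} {V : Type*} [Field k] [AddCommGroup V] [Module k V]

/-- the endomorphisms commuting with `X` and `Y` -/
def cen (X Y : Module.End k V) : Submodule k (Module.End k V) where
  carrier := {Z | X * Z = Z * X ∧ Y * Z = Z * Y}
  zero_mem' := ⟨by rw [mul_zero, zero_mul], by rw [mul_zero, zero_mul]⟩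
  add_mem' := by
    rintro Z W ⟨h1, h2⟩ ⟨h3, h4⟩
    exact ⟨by rw [mul_add, add_mul, h1, h3], by rw [mul_add, add_mul, h2, h4]⟩
  smul_mem' := by
    rintro c Z ⟨h1, h2⟩
    exact ⟨by rw [mul_smul_comm, smul_mul_assoc, h1], by rw [mul_smul_comm, smul_mul_assoc, h2]⟩

theorem mem_cen {X Y Z : Module.End k V} : Z ∈ cen X Y ↔ X * Z = Z * X ∧ Y * Z = Z * Y := Iff.rfl

/-- `K = XV + YV` -/
def KK (X Y : Module.End k V) : Submodule k V := LinearMap.range X ⊔ LinearMap.range Y

/-- `S = ker X ∩ ker Y` -/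
def SS (X Y : Module.End k V) : Submodule k V := LinearMap.ker X ⊓ LinearMap.ker Y

/-- `dim V/K ≥ 2` -/
def MuTwo (X Y : Module.End k V) : Prop := finrank k (KK X Y) + 2 ≤ finrank k V

/-- `dim S ≥ 2` -/
def STwo (X Y : Module.End k V) : Prop := 2 ≤ finrank k (SS X Y)

/-- `G(a,v,r) = Σ_{j<a} r(Y^j u) Y^{a-1-j} v` -/
noncomputable def GG (Y : Module.End k V) (a : ℕ) (v : V) (r : Module.Dual k V) :
    Module.End k V :=
  ∑ j ∈ Finset.range a, LinearMap.smulRight (r ∘ₗ (Y ^ j)) ((Y ^ (a - 1 - j)) v)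

/-- `P_a = ker Y ∩ Y^(a-1) V` -/
def PP (Y : Module.End k V) (a : ℕ) : Submodule k V :=
  LinearMap.ker Y ⊓ LinearMap.range (Y ^ (a - 1))

/-- `F_a = YV + ker Y^a` -/
def FF (Y : Module.End k V) (a : ℕ) : Submodule k V :=
  LinearMap.range Y ⊔ LinearMap.ker (Y ^ a)

/-- the pair `(v, r)` is primitive of level `a` -/
structure Prim (Y : Module.End k V) (a : ℕ) (v : V) (r : Module.Dual k V) : Prop where
  pos : 1 ≤ a
  hv : (Y ^ a) v = 0
  hr : ∀ u : V, r ((Y ^ a) u) = 0
  hv' : (Y ^ (a - 1)) v ∉ LinearMap.range (Y ^ a)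
  hr' : ∃ v' : V, (Y ^ a) v' = 0 ∧ r ((Y ^ (a - 1)) v') ≠ 0

end

/-- Theorem 2 for dimensions smaller than `n` -/
def IH (k : Type*) [Field k] (n : ℕ) : Prop :=
  ∀ (V : Type u) [AddCommGroup V] [Module k V] [FiniteDimensional k V] (X Y : Module.End k V),
    Commute X Y → IsNilpotent Y → MuTwo X Y → STwo X Y → finrank k V < n →
    finrank k V + 1 ≤ finrank k (cen X Y)

end Pool.Agent.HWN
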