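import Pool.Agent.HWN.Frob

set_option autoImplicit false

namespace Pool.Agent.HWN

open Module

universe u

/-! [HWN Mod1]  Modules over Gorenstein algebras with two-generated maximal ideal.

`h3` is Theorem 2 over the field `k` (proved in parallel).

PAPER PROOF. `B` is a local Artinian ring, `m = maximalIdeal B = (y, z)` is nilpotent, `B = k + m`. Let `X`, `Y` be
the multiplications by `y`, `z` on `N` (as `k`-linear maps): they commute and are nilpotent.
(1) `B` is generated by `y`, `z` as a `k`-algebra: with `A = Algebra.adjoin k {y, z}`, `B = k + yB + zB`, so by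
induction `B = A + m^j` for all `j`. Hence a `k`-linear `Z : N → N` is `B`-linear iff it commutes with `X` and `Y`, and
`Module.End B N ≃ₗ[k] cen X Y`; so `finrank (cen X Y) = finrank B = finrank N`.
(2) By `h3` not both `MuTwo X Y` and `STwo X Y`.
(3) Not `MuTwo`: `KK X Y = mN` (as `k`-space `yN + zN`), so `dim N/mN ≤ 1` and by Nakayama `N = B v` for some `v`
(`N = kv + mN`). `B → N, b ↦ b v` is onto and `finrank N = finrank B`: bijective, `N ≅ B`.
(4) Not `STwo`: `S = SS X Y = {u | m u = 0}` has dimension `≤ 1`. `InfIrred ⊥`: the socle of `B` (annihilator of `m`) is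
one-dimensional, `= k s` (two independent socle elements span `k`-lines which are ideals with intersection `0`;
nonzero as `m` is nilpotent); every nonzero ideal of `B` contains `s`. Let `φ : B → k` be linear with `φ s ≠ 0`. Then
`B → Hom_k(B, k)`, `b ↦ (c ↦ φ (b c))` is injective (its kernel is an ideal not containing `s`), so bijective by
dimension; it is `B`-linear for `(c f)(d) = f(c d)`. If `N = 0` it is free. Otherwise `S ≠ 0`, `S = k u0`; choose
`ψ : N → k` linear with `ψ u0 ≠ 0`; `N → Hom_k(B, k)`, `n ↦ (b ↦ ψ (b n))` is `B`-linear, its kernel is a submodule not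
containing `u0`, and a nonzero submodule contains a nonzero element killed by `m`: so it is injective, and bijective
by dimension. Hence `N ≅ Hom_k(B, k) ≅ B` is free. (Concretely: for `n ∈ N` let `β n ∈ B` be the unique element
with `φ (β n * b) = ψ (b • n)` for all `b`; `β : N → B` is `B`-linear and bijective.) -/
theorem mod_free_of (k B : Type) [Field k] [CommRing B] [IsLocalRing B] [Algebra k B]
    [Module.Finite k B]
    (h3 : ∀ (V : Type) [AddCommGroup V] [Module k V] [FiniteDimensional k V]
      (X Y : Module.End k V), Commute X Y → IsNilpotent Y → MuTwo X Y → STwo X Y →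
      finrank k V + 1 ≤ finrank k (cen X Y))
    (hres : Function.Surjective (algebraMap k (IsLocalRing.ResidueField B)))
    (hG : InfIrred (⊥ : Ideal B)) (y z : B)
    (hm : IsLocalRing.maximalIdeal B = Ideal.span {y, z})
    (N : Type) [AddCommGroup N] [Module k N] [Module B N] [IsScalarTower k B N]
    [Module.Finite k N] (h1 : finrank k N = finrank k B)
    (h2 : finrank k (Module.End B N) = finrank k B) : Module.Free B N := by
  have hart : IsArtinianRing B := IsArtinianRing.of_finite k B
  have hfin : Module.Finite B N := Module.Finite.of_restrictScalars_finite k B N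
  obtain ⟨n, hn⟩ : ∃ n : ℕ, IsLocalRing.maximalIdeal B ^ n = ⊥ := by
    have h := IsArtinianRing.isNilpotent_jacobson_bot (R := B)
    rw [IsLocalRing.jacobson_eq_maximalIdeal ⊥ bot_ne_top] at h
    exact h
  have hym : y ∈ IsLocalRing.maximalIdeal B := by
    rw [hm]; exact Ideal.subset_span (by simp)
  have hzm : z ∈ IsLocalRing.maximalIdeal B := by
    rw [hm]; exact Ideal.subset_span (by simp)
  let X : Module.End k N := (LinearMap.lsmul B N y).restrictScalars k
  let Y : Module.End k N := (LinearMap.lsmul B N z).restrictScalars k
  have hX : ∀ v, X v = y • v := fun v => rfl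
  have hY : ∀ v, Y v = z • v := fun v => rfl
  have hcomm : Commute X Y := by
    refine LinearMap.ext fun v => ?_
    show y • (z • v) = z • (y • v)
    exact smul_comm y z v
  have hnil : IsNilpotent Y := by
    refine ⟨n, ?_⟩
    have hp : ∀ j : ℕ, ∀ v, (Y ^ j) v = z ^ j • v := by
      intro j
      induction j with
      | zero => intro v; simp
      | succ j ih =>
        intro v
        rw [pow_succ, Module.End.mul_apply, ih, hY, ← mul_smul, pow_succ]
    have hz0 : z ^ n = 0 := by
      have := Ideal.pow_mem_pow hzm n
      rw [hn] at this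
      exact (Submodule.mem_bot B).1 this
    refine LinearMap.ext fun v => ?_
    rw [hp, hz0, zero_smul, LinearMap.zero_apply]
  -- the centraliser
  have hcen : finrank k (cen X Y) = finrank k (Module.End B N) := by
    have hlin : ∀ Z : Module.End k N, Z ∈ cen X Y → ∀ (b : B) (v : N), Z (b • v) = b • Z v := by
      intro Z hZ
      have hZy : ∀ v, Z (y • v) = y • Z v := fun v => (LinearMap.congr_fun hZ.1 v).symm
      have hZz : ∀ v, Z (z • v) = z • Z v := fun v => (LinearMap.congr_fun hZ.2 v).symm
      have hstep : ∀ j : ℕ, ∀ b : B, ∃ a : B, (∀ v, Z (a • v) = a • Z v) ∧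
          b - a ∈ IsLocalRing.maximalIdeal B ^ j := by
        intro j
        induction j with
        | zero =>
          intro b
          exact ⟨0, fun v => by rw [zero_smul, zero_smul, map_zero], by simp⟩
        | succ j ih =>
          intro b
          obtain ⟨c, hc⟩ := hres (IsLocalRing.residue B b)
          have hbc : b - algebraMap k B c ∈ IsLocalRing.maximalIdeal B := by
            rw [← IsLocalRing.residue_eq_zero_iff, map_sub, ← hc, sub_eq_zero]
            rfl
          rw [hm, Ideal.mem_span_pair] at hbc
          obtain ⟨b1, b2, hb⟩ := hbc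
          obtain ⟨a1, ha1, he1⟩ := ih b1
          obtain ⟨a2, ha2, he2⟩ := ih b2
          refine ⟨algebraMap k B c + (a1 * y + a2 * z), fun v => ?_, ?_⟩
          · rw [add_smul, add_smul, add_smul, add_smul, mul_smul, mul_smul, mul_smul, mul_smul,
              map_add, map_add, ha1, ha2, hZy, hZz, algebraMap_smul, algebraMap_smul, map_smul]
          · have h5 : b - (algebraMap k B c + (a1 * y + a2 * z)) =
                (b1 - a1) * y + (b2 - a2) * z := by
              linear_combination -hb
            rw [h5, pow_succ]
            exact Ideal.add_mem _ (Ideal.mul_mem_mul he1 hym) (Ideal.mul_mem_mul he2 hzm)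
      intro b v
      obtain ⟨a, ha, hba⟩ := hstep n b
      rw [hn] at hba
      have : b = a := sub_eq_zero.1 ((Submodule.mem_bot B).1 hba)
      rw [this, ha]
    let T : (Module.End B N) →ₗ[k] cen X Y :=
      { toFun := fun f => ⟨f.restrictScalars k, by
          rw [mem_cen]
          constructor
          · refine LinearMap.ext fun v => ?_
            exact (f.map_smul y v).symm
          · refine LinearMap.ext fun v => ?_
            exact (f.map_smul z v).symm⟩
        map_add' := fun _ _ => rfl
        map_smul' := fun _ _ => rfl }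
    have hT : Function.Bijective T := by
      constructor
      · intro a b hab
        have h5 : (a.restrictScalars k : N →ₗ[k] N) = b.restrictScalars k :=
          congrArg Subtype.val hab
        exact LinearMap.restrictScalars_injective k h5
      · rintro ⟨Z, hZ⟩
        exact ⟨{ toFun := Z, map_add' := Z.map_add, map_smul' := hlin Z hZ }, rfl⟩
    exact (LinearEquiv.finrank_eq (LinearEquiv.ofBijective T hT)).symm
  have hno : ¬ (MuTwo X Y ∧ STwo X Y) := by
    rintro ⟨hmu, hst⟩
    have h5 := h3 N X Y hcomm hnil hmu hst
    rw [hcen, h2, h1] at h5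
    omega
  have hpos : 0 < finrank k B := Module.finrank_pos
  by_cases hmu : MuTwo X Y
  · -- the socle of `N` has dimension at most one
    have hst : ¬ STwo X Y := fun h => hno ⟨hmu, h⟩
    obtain ⟨φ, hφ⟩ := exists_frob (k := k) hG
    have hS : finrank k (SS X Y) ≤ 1 := by
      unfold STwo at hst
      omega
    obtain ⟨ψ, hψ⟩ : ∃ ψ : N →ₗ[k] k, ∀ u : N, u ∈ SS X Y → u ≠ 0 → ψ u ≠ 0 := by
      obtain ⟨v, hv⟩ := finrank_le_one_iff.1 hS
      by_cases hv0 : (v : N) = 0
      · refine ⟨0, fun u hu hu0 => ?_⟩
        obtain ⟨c, hc⟩ := hv ⟨u, hu⟩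
        exfalso
        apply hu0
        have h5 : c • (v : N) = u := congrArg Subtype.val hc
        rw [← h5, hv0, smul_zero]
      · obtain ⟨ψ, hψ⟩ : ∃ ψ : N →ₗ[k] k, ψ (v : N) ≠ 0 := by
          by_contra h
          push Not at h
          exact hv0 ((Module.forall_dual_apply_eq_zero_iff k (v : N)).1 h)
        refine ⟨ψ, fun u hu hu0 => ?_⟩
        obtain ⟨c, hc⟩ := hv ⟨u, hu⟩
        have h5 : c • (v : N) = u := congrArg Subtype.val hc
        rw [← h5, map_smul, smul_eq_mul]
        refine mul_ne_zero ?_ hψ
        rintro rfl
        rw [zero_smul] at h5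
        exact hu0 h5.symm
    obtain ⟨f, hf⟩ := frob_lift (M := N) hφ ψ
    have hinj : Function.Injective f := by
      rw [injective_iff_map_eq_zero]
      intro x hx
      by_contra hx0
      have hex : ∃ j : ℕ, ∀ a ∈ IsLocalRing.maximalIdeal B ^ j, a • x = 0 := by
        refine ⟨n, fun a ha => ?_⟩
        rw [hn] at ha
        rw [(Submodule.mem_bot B).1 ha, zero_smul]
      classical
      have hj := Nat.find_spec hex
      have hj0 : Nat.find hex ≠ 0 := by
        intro h
        rw [h] at hj
        apply hx0
        have := hj 1 (by simp)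
        rwa [one_smul] at this
      have hlt := Nat.find_min hex (Nat.sub_one_lt hj0)
      push Not at hlt
      obtain ⟨a, ha, hax⟩ := hlt
      have hkill : ∀ b ∈ IsLocalRing.maximalIdeal B, b • (a • x) = 0 := by
        intro b hb
        rw [← mul_smul]
        apply hj
        have : Nat.find hex = (Nat.find hex - 1) + 1 := by omega
        rw [this, pow_succ']
        exact Ideal.mul_mem_mul hb ha
      have hu : a • x ∈ SS X Y := ⟨hkill y hym, hkill z hzm⟩
      apply hψ _ hu hax
      rw [← hf, map_smul, hx, smul_zero, map_zero]
    have hbij : Function.Bijective f := by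
      refine ⟨hinj, ?_⟩
      exact (LinearMap.injective_iff_surjective_of_finrank_eq_finrank
        (f := f.restrictScalars k) h1).1 hinj
    exact Module.Free.of_equiv (LinearEquiv.ofBijective f hbij).symm
  · have hle : finrank k (N ⧸ KK X Y) ≤ 1 := by
      have h5 := Submodule.finrank_quotient_add_finrank (KK X Y)
      unfold MuTwo at hmu
      omega
    obtain ⟨w, hw⟩ := finrank_le_one_iff.1 hle
    obtain ⟨v, rfl⟩ := Submodule.Quotient.mk_surjective _ w
    have htop : (⊤ : Submodule B N) ≤ Submodule.span B {v} := by
      refine Submodule.le_of_le_smul_of_le_jacobson_bot (I := IsLocalRing.maximalIdeal B)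
        hfin.fg_top (by rw [IsLocalRing.jacobson_eq_maximalIdeal ⊥ bot_ne_top]) ?_
      intro u _
      obtain ⟨c, hc⟩ := hw (Submodule.Quotient.mk u)
      have h5 : c • v - u ∈ KK X Y := by
        rw [← Submodule.Quotient.eq]
        exact hc
      obtain ⟨_, ⟨p, rfl⟩, _, ⟨q, rfl⟩, hpq⟩ := Submodule.mem_sup.1 h5
      have h6 : u = algebraMap k B c • v + (- (y • p) + - (z • q)) := by
        rw [algebraMap_smul]
        rw [hX, hY] at hpq
        rw [← neg_add, hpq]
        abel
      rw [h6]
      refine Submodule.add_mem_sup (Submodule.smul_mem _ _ (Submodule.mem_span_singleton_self v)) ?_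
      refine Submodule.add_mem _ (Submodule.neg_mem _ ?_) (Submodule.neg_mem _ ?_)
      · exact Submodule.smul_mem_smul hym Submodule.mem_top
      · exact Submodule.smul_mem_smul hzm Submodule.mem_top
    let g : B →ₗ[B] N := LinearMap.toSpanSingleton B N v
    have hsurj : Function.Surjective g := by
      intro u
      obtain ⟨b, hb⟩ := Submodule.mem_span_singleton.1 (htop (Submodule.mem_top : u ∈ ⊤))
      exact ⟨b, hb⟩
    have hbij : Function.Bijective g := by
      refine ⟨?_, hsurj⟩
      exact (LinearMap.injective_iff_surjective_of_finrank_eq_finrank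
        (f := g.restrictScalars k) h1.symm).2 hsurj
    exact Module.Free.of_equiv (LinearEquiv.ofBijective g hbij)

end Pool.Agent.HWN
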