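import Pool.Agent.HWN.Defs

set_option autoImplicit false

namespace Pool.Agent.HWN

open Module

universe u

section ModQ

variable {B : Type} [CommRing B] [IsLocalRing B]

/-- a nonzero element killed by all nonunits -/
private theorem ModQ_socle [IsArtinianRing B] :
    ∃ s : B, s ≠ 0 ∧ ∀ x ∈ IsLocalRing.maximalIdeal B, s * x = 0 := by
  classical
  have hex : ∃ n : ℕ, IsLocalRing.maximalIdeal B ^ n = ⊥ := by
    obtain ⟨n, hn⟩ := IsArtinianRing.isNilpotent_jacobson_bot (R := B)
    refine ⟨n, ?_⟩
    rw [← IsLocalRing.jacobson_eq_maximalIdeal (⊥ : Ideal B) bot_ne_top]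
    exact hn
  have h1 := Nat.find_spec hex
  have h2 := fun m (hm : m < Nat.find hex) => Nat.find_min hex hm
  set n := Nat.find hex with hn
  have hn0 : n ≠ 0 := by
    intro h0
    rw [h0, pow_zero, Ideal.one_eq_top] at h1
    exact bot_ne_top h1.symm
  obtain ⟨m, hm⟩ := Nat.exists_eq_succ_of_ne_zero hn0
  have h3 : IsLocalRing.maximalIdeal B ^ m ≠ ⊥ := h2 m (by omega)
  obtain ⟨s, hs, hs0⟩ := Submodule.exists_mem_ne_zero_of_ne_bot h3
  refine ⟨s, hs0, fun x hx => ?_⟩
  have h4 : s * x ∈ IsLocalRing.maximalIdeal B ^ n := by
    rw [hm, pow_succ]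
    exact Ideal.mul_mem_mul hs hx
  rw [h1] at h4
  exact h4

end ModQ

theorem mod_free_q_of (k B : Type) [Field k] [CommRing B] [IsLocalRing B] [Algebra k B]
    [Module.Finite k B]
    (h1 : ∀ (N : Type) [AddCommGroup N] [Module k N] [Module B N] [IsScalarTower k B N]
      [Module.Finite k N], finrank k N = finrank k B →
      finrank k (Module.End B N) = finrank k B → Module.Free B N)
    (h2 : ∀ (m : ℕ) (N N1 : Type) [AddCommGroup N] [Module k N] [Module B N]
      [IsScalarTower k B N] [Module.Finite k N] [AddCommGroup N1] [Module k N1] [Module B N1]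
      [IsScalarTower k B N1] [Module.Finite k N1] (i : N1 →ₗ[B] (Fin m → B)),
      Function.Injective i → ∀ (π : (Fin m → B) →ₗ[B] N), Function.Surjective π →
      LinearMap.range i = LinearMap.ker π →
      finrank k (Module.End B N) + m * finrank k N1 =
        finrank k (Module.End B N1) + m * finrank k N)
    (N : Type) [AddCommGroup N] [Module k N] [Module B N] [IsScalarTower k B N]
    [Module.Finite k N] (q : ℕ) (g : Fin (q + 1) → N) (hg : Submodule.span B (Set.range g) = ⊤)
    (h3 : finrank k N = q * finrank k B)
    (h4 : finrank k (Module.End B N) = q ^ 2 * finrank k B) : Module.Free B N := by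
  classical
  have hart : IsArtinianRing B := IsArtinianRing.of_finite k B
  have hb : 0 < finrank k B := finrank_pos
  set π : (Fin (q + 1) → B) →ₗ[B] N := Fintype.linearCombination B g with hπ
  have hπs : Function.Surjective π := by
    rw [← LinearMap.range_eq_top, hπ, Fintype.range_linearCombination]
    exact hg
  -- the kernel
  have hfk : Module.Finite k (LinearMap.ker π) :=
    Module.Finite.of_injective ((LinearMap.ker π).subtype.restrictScalars k)
      (LinearMap.ker π).injective_subtype
  have hdim : finrank k (LinearMap.ker π) = finrank k B := by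
    have h5 := LinearMap.finrank_range_add_finrank_ker (π.restrictScalars k)
    have h6 : finrank k (LinearMap.range (π.restrictScalars k)) = finrank k N := by
      rw [LinearMap.range_eq_top.2 (show Function.Surjective (π.restrictScalars k) from hπs),
        finrank_top]
    have h7 : finrank k (LinearMap.ker (π.restrictScalars k)) = finrank k (LinearMap.ker π) := rfl
    have h8 : finrank k (Fin (q + 1) → B) = (q + 1) * finrank k B := by
      rw [Module.finrank_pi_fintype]
      simp
    rw [h6, h7, h8, h3] at h5
    have : (q + 1) * finrank k B = q * finrank k B + finrank k B := by ring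
    omega
  have hEnd : finrank k (Module.End B (LinearMap.ker π)) = finrank k B := by
    have h5 := h2 (q + 1) N (LinearMap.ker π) (LinearMap.ker π).subtype
      (LinearMap.ker π).injective_subtype π hπs (Submodule.range_subtype _)
    rw [h3, h4, hdim] at h5
    have e : (q + 1) * (q * finrank k B) + finrank k B =
        q ^ 2 * finrank k B + (q + 1) * finrank k B := by ring
    omega
  have hfree : Module.Free B (LinearMap.ker π) := h1 (LinearMap.ker π) hdim hEnd
  have hfin : Module.Finite B (LinearMap.ker π) := Module.Finite.of_restrictScalars_finite k B _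
  have hrank : finrank B (LinearMap.ker π) = 1 := by
    have h5 : finrank k B * finrank B (LinearMap.ker π) = finrank k (LinearMap.ker π) :=
      Module.finrank_mul_finrank k B _
    rw [hdim] at h5
    exact Nat.eq_of_mul_eq_mul_left hb (by rw [h5, mul_one])
  let bas : Basis (Fin 1) B (LinearMap.ker π) := Module.finBasisOfFinrankEq B _ hrank
  set w : LinearMap.ker π := bas 0 with hw
  have hw0 : ∀ x : B, x • w = 0 → x = 0 := by
    intro x hx
    have h5 := congrArg bas.repr hx
    rw [map_smul, map_zero, hw, Basis.repr_self] at h5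
    have h6 := DFunLike.congr_fun h5 0
    simpa using h6
  have hwrel : ∑ j, (w : Fin (q + 1) → B) j • g j = 0 := by
    have h5 : π (w : Fin (q + 1) → B) = 0 := w.2
    have h6 : π (w : Fin (q + 1) → B) = ∑ j, (w : Fin (q + 1) → B) j • g j := rfl
    rw [← h6]
    exact h5
  obtain ⟨i, hi⟩ : ∃ i, IsUnit ((w : Fin (q + 1) → B) i) := by
    by_contra hcon
    push Not at hcon
    obtain ⟨s, hs0, hs⟩ := ModQ_socle (B := B)
    apply hs0
    apply hw0
    apply Subtype.ext
    funext j
    exact hs _ ((IsLocalRing.mem_maximalIdeal _).2 (hcon j))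
  obtain ⟨a, ha⟩ := hi.exists_left_inv
  have hgi : g i ∈ Submodule.span B (Set.range (g ∘ i.succAbove)) := by
    rw [Fin.sum_univ_succAbove _ i] at hwrel
    have h5 : (w : Fin (q + 1) → B) i • g i ∈ Submodule.span B (Set.range (g ∘ i.succAbove)) := by
      rw [eq_neg_of_add_eq_zero_left hwrel]
      refine Submodule.neg_mem _ (Submodule.sum_mem _ fun j _ => Submodule.smul_mem _ _ ?_)
      exact Submodule.subset_span ⟨j, rfl⟩
    have h6 := Submodule.smul_mem _ a h5
    rwa [smul_smul, ha, one_smul] at h6
  have hspan : Submodule.span B (Set.range (g ∘ i.succAbove)) = ⊤ := by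
    rw [eq_top_iff, ← hg, Submodule.span_le]
    rintro _ ⟨j, rfl⟩
    rcases Fin.eq_self_or_eq_succAbove i j with h5 | ⟨j', h5⟩
    · rw [h5]
      exact hgi
    · rw [h5]
      exact Submodule.subset_span ⟨j', rfl⟩
  set π' : (Fin q → B) →ₗ[B] N := Fintype.linearCombination B (g ∘ i.succAbove) with hπ'
  have hπs' : Function.Surjective π' := by
    rw [← LinearMap.range_eq_top, hπ', Fintype.range_linearCombination]
    exact hspan
  have hdim' : finrank k (Fin q → B) = finrank k N := by
    rw [Module.finrank_pi_fintype, h3]
    simp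
  have hinj : Function.Injective (π'.restrictScalars k) :=
    (LinearMap.injective_iff_surjective_of_finrank_eq_finrank hdim').2 hπs'
  exact Module.Free.of_equiv (LinearEquiv.ofBijective π' ⟨hinj, hπs'⟩)

end Pool.Agent.HWN
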