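import Pool.Agent.HWN.Frob

set_option autoImplicit false

namespace Pool.Agent.HWN

open Module

universe u

private theorem stab_fin (k B : Type*) [Field k] [CommRing B] [Algebra k B] (X Y : Type*)
    [AddCommGroup X] [Module k X] [Module B X] [IsScalarTower k B X] [Module.Finite k X]
    [AddCommGroup Y] [Module k Y] [Module B Y] [IsScalarTower k B Y] [Module.Finite k Y] :
    Module.Finite k (X →ₗ[B] Y) :=
  Module.Finite.of_injective (LinearMap.restrictScalarsₗ k B X Y k)
    (LinearMap.restrictScalars_injective k)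

private theorem stab_cnt {k W A C : Type*} [Field k] [AddCommGroup W] [Module k W]
    [Module.Finite k W] [AddCommGroup A] [Module k A] [AddCommGroup C] [Module k C]
    (p : W →ₗ[k] A) (q : C →ₗ[k] W) (hp : Function.Surjective p) (hq : Function.Injective q)
    (h : LinearMap.range q = LinearMap.ker p) : finrank k W = finrank k A + finrank k C := by
  have h1 := LinearMap.finrank_range_add_finrank_ker p
  rw [LinearMap.range_eq_top.2 hp, finrank_top, ← h, LinearMap.finrank_range_of_inj hq] at h1
  exact h1.symm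

/-! [HWN Stab]  Endomorphisms of a module and of its syzygy over a self-injective algebra.

PAPER PROOF. `W = {(f, h, g) ∈ End N × End F × End N1 | π h = f π, h i = i g}`. The projection to `f` is onto
(`F` projective) with kernel `≅ Hom (F, N1)`, the projection to `g` is onto (`B` self-injective) with kernel
`≅ Hom (N, F)`. -/
theorem stab_end (k B : Type) [Field k] [CommRing B] [IsLocalRing B] [Algebra k B]
    [Module.Finite k B] (hG : InfIrred (⊥ : Ideal B)) (m : ℕ)
    (N N1 : Type) [AddCommGroup N] [Module k N] [Module B N] [IsScalarTower k B N]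
    [Module.Finite k N] [AddCommGroup N1] [Module k N1] [Module B N1] [IsScalarTower k B N1]
    [Module.Finite k N1] (i : N1 →ₗ[B] (Fin m → B)) (hi : Function.Injective i)
    (π : (Fin m → B) →ₗ[B] N) (hπ : Function.Surjective π)
    (hex : LinearMap.range i = LinearMap.ker π) :
    finrank k (Module.End B N) + m * finrank k N1 = finrank k (Module.End B N1) + m * finrank k N := by
  obtain ⟨φ, hφ⟩ := exists_frob (k := k) hG
  have fNN : Module.Finite k (N →ₗ[B] N) := stab_fin k B N N
  have fFF : Module.Finite k ((Fin m → B) →ₗ[B] (Fin m → B)) := stab_fin k B _ _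
  have f11 : Module.Finite k (N1 →ₗ[B] N1) := stab_fin k B N1 N1
  have hπi : ∀ x, π (i x) = 0 := by
    intro x
    have h1 : i x ∈ LinearMap.ker π := by rw [← hex]; exact ⟨x, rfl⟩
    exact h1
  have hker : ∀ x, π x = 0 → ∃ y, i y = x := by
    intro x hx
    have h1 : x ∈ LinearMap.range i := by rw [hex]; exact hx
    exact h1
  -- factorisation through `i`
  have hfac : ∀ (X : Type) [AddCommGroup X] [Module B X] (h : X →ₗ[B] (Fin m → B)),
      (∀ x, π (h x) = 0) → ∃ g : X →ₗ[B] N1, ∀ x, i (g x) = h x := by
    intro X _ _ h hh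
    have h1 : ∀ x, h x ∈ LinearMap.range i := fun x => by
      rw [hex]
      exact hh x
    refine ⟨(LinearEquiv.ofInjective i hi).symm.toLinearMap ∘ₗ LinearMap.codRestrict _ h h1,
      fun x => ?_⟩
    have h2 := (LinearEquiv.ofInjective i hi).apply_symm_apply (LinearMap.codRestrict _ h h1 x)
    exact congrArg Subtype.val h2
  -- factorisation through `π`
  have hdes : ∀ (X : Type) [AddCommGroup X] [Module B X] (h : (Fin m → B) →ₗ[B] X),
      (∀ x, h (i x) = 0) → ∃ f : N →ₗ[B] X, ∀ x, f (π x) = h x := by
    intro X _ _ h hh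
    have h1 : LinearMap.ker π ≤ LinearMap.ker h := by
      rw [← hex]
      rintro x ⟨y, rfl⟩
      exact hh y
    refine ⟨(LinearMap.ker π).liftQ h h1 ∘ₗ (π.quotKerEquivOfSurjective hπ).symm.toLinearMap,
      fun x => ?_⟩
    have h2 : (π.quotKerEquivOfSurjective hπ).symm (π x) = Submodule.Quotient.mk x := by
      rw [LinearEquiv.symm_apply_eq]
      rfl
    rw [LinearMap.comp_apply, LinearEquiv.coe_coe, h2]
    rfl
  -- the space `W`
  let W : Submodule k ((N →ₗ[B] N) × ((Fin m → B) →ₗ[B] (Fin m → B)) × (N1 →ₗ[B] N1)) :=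
    { carrier := {w | (∀ x, π (w.2.1 x) = w.1 (π x)) ∧ ∀ y, w.2.1 (i y) = i (w.2.2 y)}
      zero_mem' := ⟨fun x => by simp, fun y => by simp⟩
      add_mem' := by
        rintro a b ⟨h1, h2⟩ ⟨h3, h4⟩
        refine ⟨fun x => ?_, fun y => ?_⟩
        · simp only [Prod.fst_add, Prod.snd_add, LinearMap.add_apply, map_add, h1, h3]
        · simp only [Prod.snd_add, Prod.fst_add, LinearMap.add_apply, map_add, h2, h4]
      smul_mem' := by
        rintro c a ⟨h1, h2⟩
        refine ⟨fun x => ?_, fun y => ?_⟩
        · simp only [Prod.smul_fst, Prod.smul_snd, LinearMap.smul_apply, LinearMap.map_smul_of_tower, h1]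
        · simp only [Prod.smul_fst, Prod.smul_snd, LinearMap.smul_apply, LinearMap.map_smul_of_tower, h2] }
  let p1 : W →ₗ[k] (N →ₗ[B] N) := LinearMap.fst k _ _ ∘ₗ W.subtype
  let p3 : W →ₗ[k] (N1 →ₗ[B] N1) := LinearMap.snd k _ _ ∘ₗ LinearMap.snd k _ _ ∘ₗ W.subtype
  let q1 : ((Fin m → B) →ₗ[B] N1) →ₗ[k] W :=
    { toFun := fun g => ⟨(0, i ∘ₗ g, g ∘ₗ i), fun x => hπi (g x), fun y => rfl⟩
      map_add' := fun a b => by
        apply Subtype.ext
        refine Prod.ext ?_ (Prod.ext ?_ ?_)
        · exact (add_zero (0 : N →ₗ[B] N)).symm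
        · refine LinearMap.ext fun x => ?_
          exact map_add i _ _
        · rfl
      map_smul' := fun c a => by
        apply Subtype.ext
        refine Prod.ext ?_ (Prod.ext ?_ ?_)
        · exact (smul_zero c).symm
        · refine LinearMap.ext fun x => ?_
          exact LinearMap.map_smul_of_tower i c _
        · rfl }
  let q3 : (N →ₗ[B] (Fin m → B)) →ₗ[k] W :=
    { toFun := fun g => ⟨(π ∘ₗ g, g ∘ₗ π, 0), fun x => rfl, fun y => by
        show g (π (i y)) = i 0
        rw [hπi, map_zero, map_zero]⟩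
      map_add' := fun a b => by
        apply Subtype.ext
        refine Prod.ext ?_ (Prod.ext ?_ ?_)
        · refine LinearMap.ext fun x => ?_
          exact map_add π _ _
        · rfl
        · exact (add_zero (0 : N1 →ₗ[B] N1)).symm
      map_smul' := fun c a => by
        apply Subtype.ext
        refine Prod.ext ?_ (Prod.ext ?_ ?_)
        · refine LinearMap.ext fun x => ?_
          exact LinearMap.map_smul_of_tower π c _
        · rfl
        · exact (smul_zero c).symm }
  have fW : Module.Finite k W := inferInstance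
  have hp1 : Function.Surjective p1 := by
    intro f
    obtain ⟨h, hh⟩ := Module.projective_lifting_property π (f ∘ₗ π) hπ
    have hh' : ∀ x, π (h x) = f (π x) := fun x => LinearMap.congr_fun hh x
    obtain ⟨g, hg⟩ := hfac N1 (h ∘ₗ i) (fun y => by
      rw [LinearMap.comp_apply, hh', hπi, map_zero])
    exact ⟨⟨(f, h, g), hh', fun y => (hg y).symm⟩, rfl⟩
  have hp3 : Function.Surjective p3 := by
    intro g
    -- extension of `i ∘ g`
    have hext : ∀ j : Fin m, ∃ e : (Fin m → B) →ₗ[B] B, ∀ y, e (i y) = i (g y) j := by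
      intro j
      let c : N1 →ₗ[B] B := LinearMap.proj j ∘ₗ i ∘ₗ g
      let ψ : N1 →ₗ[k] k := φ ∘ₗ (c.restrictScalars k)
      obtain ⟨l, hl⟩ := (i.restrictScalars k).exists_leftInverse_of_injective
        (LinearMap.ker_eq_bot.2 hi)
      obtain ⟨e, he⟩ := frob_lift hφ (ψ ∘ₗ l)
      refine ⟨e, fun y => ?_⟩
      have h1 : e ∘ₗ i = c := by
        apply frob_ext hφ
        intro x
        rw [LinearMap.comp_apply, he, LinearMap.comp_apply]
        have h2 : l (i x) = x := LinearMap.congr_fun hl x
        rw [h2]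
        rfl
      exact LinearMap.congr_fun h1 y
    choose e he using hext
    let h : (Fin m → B) →ₗ[B] (Fin m → B) := LinearMap.pi e
    have hh : ∀ y, h (i y) = i (g y) := fun y => funext fun j => he j y
    obtain ⟨f, hf⟩ := hdes N (π ∘ₗ h) (fun y => by
      rw [LinearMap.comp_apply, hh, hπi])
    exact ⟨⟨(f, h, g), fun x => (hf x).symm, hh⟩, rfl⟩
  have hq1 : Function.Injective q1 := by
    intro a b hab
    have h1 : i ∘ₗ a = i ∘ₗ b := congrArg (fun w : W => w.1.2.1) hab
    exact LinearMap.ext fun x => hi (LinearMap.congr_fun h1 x)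
  have hq3 : Function.Injective q3 := by
    intro a b hab
    have h1 : a ∘ₗ π = b ∘ₗ π := congrArg (fun w : W => w.1.2.1) hab
    refine LinearMap.ext fun x => ?_
    obtain ⟨y, rfl⟩ := hπ x
    exact LinearMap.congr_fun h1 y
  have hr1 : LinearMap.range q1 = LinearMap.ker p1 := by
    apply le_antisymm
    · rintro _ ⟨g, rfl⟩
      rfl
    · rintro ⟨⟨f, h, g⟩, hw1, hw2⟩ hw
      have hf : f = 0 := hw
      subst hf
      obtain ⟨g', hg'⟩ := hfac (Fin m → B) h (fun x => hw1 x)
      refine ⟨g', ?_⟩
      apply Subtype.ext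
      refine Prod.ext rfl (Prod.ext ?_ ?_)
      · exact LinearMap.ext hg'
      · refine LinearMap.ext fun y => hi ?_
        exact (hg' (i y)).trans (hw2 y)
  have hr3 : LinearMap.range q3 = LinearMap.ker p3 := by
    apply le_antisymm
    · rintro _ ⟨g, rfl⟩
      rfl
    · rintro ⟨⟨f, h, g⟩, hw1, hw2⟩ hw
      have hf : g = 0 := hw
      subst hf
      obtain ⟨g', hg'⟩ := hdes (Fin m → B) h (fun y => (hw2 y).trans (map_zero i))
      refine ⟨g', ?_⟩
      apply Subtype.ext
      refine Prod.ext ?_ (Prod.ext ?_ rfl)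
      · refine LinearMap.ext fun x => ?_
        obtain ⟨y, rfl⟩ := hπ x
        show π (g' (π y)) = f (π y)
        rw [hg']
        exact hw1 y
      · exact LinearMap.ext hg'
  have hc1 := stab_cnt (k := k) (W := W) (A := N →ₗ[B] N) (C := (Fin m → B) →ₗ[B] N1)
    p1 q1 hp1 hq1 hr1
  have hc3 := stab_cnt (k := k) (W := W) (A := N1 →ₗ[B] N1) (C := N →ₗ[B] (Fin m → B))
    p3 q3 hp3 hq3 hr3
  have hd1 : finrank k ((Fin m → B) →ₗ[B] N1) = m * finrank k N1 := by
    rw [← LinearEquiv.finrank_eq ((Pi.basisFun B (Fin m)).constr k (M' := N1)),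
      Module.finrank_pi_fintype]
    simp
  have hd3 : finrank k (N →ₗ[B] (Fin m → B)) = m * finrank k N := by
    let T : (N →ₗ[B] (Fin m → B)) →ₗ[k] (Fin m → Dual k N) :=
      { toFun := fun g j => φ ∘ₗ ((LinearMap.proj j ∘ₗ g).restrictScalars k)
        map_add' := fun a b => by
          funext j
          ext x
          exact map_add φ _ _
        map_smul' := fun c a => by
          funext j
          ext x
          exact map_smul φ c _ }
    have hT : Function.Bijective T := by
      constructor
      · intro a b hab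
        refine LinearMap.ext fun x => funext fun j => ?_
        have h1 : LinearMap.proj j ∘ₗ a = LinearMap.proj j ∘ₗ b := by
          apply frob_ext hφ
          intro x
          exact LinearMap.congr_fun (congrFun hab j) x
        exact LinearMap.congr_fun h1 x
      · intro ψ
        choose e he using fun j => frob_lift (M := N) hφ (ψ j)
        refine ⟨LinearMap.pi e, ?_⟩
        funext j
        ext x
        exact he j x
    rw [LinearEquiv.finrank_eq (LinearEquiv.ofBijective T hT), Module.finrank_pi_fintype]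
    simp [Subspace.dual_finrank_eq]
  have h1 : finrank k (Module.End B N) = finrank k (N →ₗ[B] N) := rfl
  have h2 : finrank k (Module.End B N1) = finrank k (N1 →ₗ[B] N1) := rfl
  rw [h1, h2, ← hd1, ← hd3, ← hc1, hc3]

end Pool.Agent.HWN
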