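import Pool.Agent.HWN.Defs

/-! The operators `G(a,v,r)`. -/

set_option autoImplicit false

namespace Pool.Agent.HWN

open Module Finset

variable {k : Type*} {V : Type*} [Field k] [AddCommGroup V] [Module k V]

theorem GG_apply (Y : Module.End k V) (a : ℕ) (v : V) (r : Module.Dual k V) (u : V) :
    GG Y a v r u = ∑ j ∈ range a, r ((Y ^ j) u) • (Y ^ (a - 1 - j)) v := by
  simp only [GG, LinearMap.sum_apply, LinearMap.smulRight_apply, LinearMap.comp_apply]

theorem GG_comm (Y : Module.End k V) (a : ℕ) (v : V) (r : Module.Dual k V)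
    (hv : (Y ^ a) v = 0) (hr : ∀ u : V, r ((Y ^ a) u) = 0) : Commute (GG Y a v r) Y := by
  refine LinearMap.ext fun u => ?_
  rw [Module.End.mul_apply, Module.End.mul_apply, GG_apply, GG_apply, map_sum]
  have h1 : ∑ j ∈ range a, r ((Y ^ j) (Y u)) • (Y ^ (a - 1 - j)) v =
      ∑ j ∈ range a, r ((Y ^ (j + 1)) u) • (Y ^ (a - (j + 1))) v := by
    refine sum_congr rfl fun j hj => ?_
    rw [show a - 1 - j = a - (j + 1) by omega, pow_succ Y j, Module.End.mul_apply]
  have h2 : ∑ j ∈ range a, Y (r ((Y ^ j) u) • (Y ^ (a - 1 - j)) v) =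
      ∑ j ∈ range a, r ((Y ^ j) u) • (Y ^ (a - j)) v := by
    refine sum_congr rfl fun j hj => ?_
    have hj' := mem_range.mp hj
    rw [map_smul, show a - j = (a - 1 - j) + 1 by omega, pow_succ' Y, Module.End.mul_apply]
  rw [h1, h2]
  have e1 := sum_range_succ (fun j => r ((Y ^ j) u) • (Y ^ (a - j)) v) a
  have e2 := sum_range_succ' (fun j => r ((Y ^ j) u) • (Y ^ (a - j)) v) a
  rw [hr, zero_smul, add_zero] at e1
  rw [e2] at e1
  rw [← e1]
  simp [hv]

theorem GG_mod (Y : Module.End k V) (a : ℕ) (ha : 1 ≤ a) (v : V) (r : Module.Dual k V) (u : V) :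
    GG Y a v r u - r ((Y ^ (a - 1)) u) • v ∈ LinearMap.range Y := by
  obtain ⟨b, rfl⟩ : ∃ b, a = b + 1 := ⟨a - 1, by omega⟩
  rw [GG_apply, sum_range_succ]
  simp only [Nat.add_sub_cancel, Nat.sub_self, pow_zero, Module.End.one_apply,
    add_sub_cancel_right]
  refine Submodule.sum_mem _ fun j hj => Submodule.smul_mem _ _ ?_
  have hj' := mem_range.mp hj
  rw [show b - j = (b - j - 1) + 1 by omega, pow_succ']
  exact ⟨_, rfl⟩

theorem GG_ker (Y : Module.End k V) (a : ℕ) (ha : 1 ≤ a) (v : V) (r : Module.Dual k V) (u : V)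
    (hu : Y u = 0) : GG Y a v r u = r u • (Y ^ (a - 1)) v := by
  obtain ⟨b, rfl⟩ : ∃ b, a = b + 1 := ⟨a - 1, by omega⟩
  rw [GG_apply, sum_range_succ']
  have : ∑ j ∈ range b, r ((Y ^ (j + 1)) u) • (Y ^ (b + 1 - 1 - (j + 1))) v = 0 := by
    refine sum_eq_zero fun j _ => ?_
    rw [pow_succ, Module.End.mul_apply, hu, map_zero, map_zero, zero_smul]
  rw [this, zero_add]
  simp

theorem GG_poly (Y : Module.End k V) (a : ℕ) (ha : 1 ≤ a) (v : V) (r : Module.Dual k V) (u : V) :
    ∃ c : Polynomial k, c.coeff 0 = r ((Y ^ (a - 1)) u) ∧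
      GG Y a v r u = (Polynomial.aeval Y c) v := by
  obtain ⟨b, rfl⟩ : ∃ b, a = b + 1 := ⟨a - 1, by omega⟩
  refine ⟨∑ j ∈ range (b + 1), Polynomial.C (r ((Y ^ j) u)) * Polynomial.X ^ (b - j), ?_, ?_⟩
  · rw [Polynomial.finsetSum_coeff, sum_range_succ]
    have : ∑ j ∈ range b, (Polynomial.C (r ((Y ^ j) u)) * Polynomial.X ^ (b - j)).coeff 0 = 0 := by
      refine sum_eq_zero fun j hj => ?_
      have hj' := mem_range.mp hj
      rw [Polynomial.coeff_C_mul_X_pow, if_neg (by omega)]
    rw [this]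
    simp
  · rw [GG_apply, map_sum, LinearMap.sum_apply]
    refine sum_congr rfl fun j _ => ?_
    rw [map_mul, map_pow, Polynomial.aeval_C, Polynomial.aeval_X, Module.End.mul_apply]
    rfl

/-- if `Z u = c(Y) u`, `Z` commutes with `Y`, `Y` is nilpotent, `c(0) ≠ 0`, `u ≠ 0`, then `Z` is
not nilpotent. -/
theorem not_nil_of (Y Z : Module.End k V) (hY : IsNilpotent Y) (hZ : Commute Z Y)
    (c : Polynomial k) (hc : c.coeff 0 ≠ 0) (u : V) (hu : u ≠ 0)
    (h : Z u = (Polynomial.aeval Y c) u) : ¬ IsNilpotent Z := by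
  rintro ⟨N, hN⟩
  set C := Polynomial.aeval Y c with hC
  have hZC : Commute Z C := by
    rw [hC, Polynomial.aeval_eq_sum_range (R := k)]
    exact Commute.sum_right _ _ _ fun i _ => (hZ.pow_right i).smul_right _
  -- powers
  have hpow : ∀ n : ℕ, (Z ^ n) u = (C ^ n) u := by
    intro n
    induction n with
    | zero => rfl
    | succ n ih =>
      rw [pow_succ', Module.End.mul_apply, ih, pow_succ, Module.End.mul_apply, ← h]
      exact LinearMap.congr_fun ((hZC.pow_right n).eq) u
  -- C is a unit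
  have hunit : IsUnit C := by
    have e : C = algebraMap k (Module.End k V) (c.coeff 0) +
        Polynomial.aeval Y (c - Polynomial.C (c.coeff 0)) := by
      rw [map_sub, Polynomial.aeval_C, ← hC]; abel
    have hdvd : Polynomial.X ∣ c - Polynomial.C (c.coeff 0) := by
      rw [Polynomial.X_dvd_iff]; simp
    obtain ⟨d, hd⟩ := hdvd
    have hnil : IsNilpotent (Polynomial.aeval Y (c - Polynomial.C (c.coeff 0))) := by
      rw [hd, map_mul, Polynomial.aeval_X]
      have hcm : Commute Y (Polynomial.aeval Y d) := by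
        rw [Polynomial.aeval_eq_sum_range (R := k)]
        exact Commute.sum_right _ _ _ fun i _ => ((Commute.refl Y).pow_right i).smul_right _
      exact hcm.isNilpotent_mul_right hY
    have hu1 : IsUnit (algebraMap k (Module.End k V) (c.coeff 0)) :=
      (IsUnit.mk0 _ hc).map _
    rw [e]
    exact IsNilpotent.isUnit_add_left_of_commute hnil hu1
      ((Algebra.commutes (c.coeff 0) _).symm)
  have h0 : (C ^ N) u = 0 := by rw [← hpow, hN]; rfl
  have hinj : Function.Injective (C ^ N) := by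
    have := (hunit.pow N)
    rw [Module.End.isUnit_iff] at this
    exact this.1
  exact hu (hinj (by rw [h0, map_zero]))

end Pool.Agent.HWN
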