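import Pool.Agent.HWN.Defs

set_option autoImplicit false

namespace Pool.Agent.HWN

open Module

universe u

/-! [HWN LemF]  Division by an endomorphism.

Proof. Let `p : V → YV` be a projection and `s : YV → V` a linear section of `Y`. Put
`U' x = U (s (p x)) + s (U (x - p x))`. For `x = Y v`: `p x = x` and `s x - v ∈ ker Y ⊆ ker U`, so `U' (Y v) = U v`.
For all `x`: `Y (U' x) = U (Y (s (p x))) + U (x - p x) = U x`. (Nilpotency is not used.) -/
theorem lemF {k : Type*} {V : Type*} [Field k] [AddCommGroup V] [Module k V]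
    [FiniteDimensional k V] (Y U : Module.End k V) (hY : IsNilpotent Y) (hU : Commute U Y)
    (h1 : ∀ u : V, U u ∈ LinearMap.range Y) (h2 : ∀ u : V, Y u = 0 → U u = 0) :
    ∃ U' : Module.End k V, Commute U' Y ∧ U = Y * U' := by
  obtain ⟨p, hp⟩ := (LinearMap.range Y).subtype.exists_leftInverse_of_injective
    (Submodule.ker_subtype _)
  obtain ⟨s, hs⟩ := Y.rangeRestrict.exists_rightInverse_of_surjective
    (LinearMap.range_rangeRestrict Y)
  have hp' : ∀ x : LinearMap.range Y, p (x : V) = x := fun x => LinearMap.congr_fun hp x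
  have hs' : ∀ x : LinearMap.range Y, Y (s x) = (x : V) := fun x =>
    congrArg Subtype.val (LinearMap.congr_fun hs x)
  obtain ⟨W, hW⟩ : ∃ W : Module.End k V,
      W = U ∘ₗ s ∘ₗ p + s ∘ₗ (LinearMap.codRestrict (LinearMap.range Y) U h1) ∘ₗ
        (LinearMap.id - (LinearMap.range Y).subtype ∘ₗ p) := ⟨_, rfl⟩
  have hWx : ∀ x : V, W x = U (s (p x)) + s ⟨U (x - (p x : V)), h1 _⟩ := by
    intro x
    rw [hW]
    rfl
  have hYU : ∀ x : V, Y (U x) = U (Y x) := fun x => (LinearMap.congr_fun hU.eq x).symm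
  have hYW : ∀ x : V, Y (W x) = U x := by
    intro x
    rw [hWx, map_add, hs', hYU, hs', ← map_add]
    congr 1
    abel
  have hWY : ∀ v : V, W (Y v) = U v := by
    intro v
    have e1 : p (Y v) = ⟨Y v, LinearMap.mem_range_self Y v⟩ :=
      hp' ⟨Y v, LinearMap.mem_range_self Y v⟩
    have e2 : U (Y v - (p (Y v) : V)) = 0 := by
      rw [e1, sub_self, map_zero]
    have e3 : U (s (p (Y v))) = U v := by
      have e4 : Y (s (p (Y v)) - v) = 0 := by
        rw [map_sub, hs', e1, sub_self]
      have e5 := h2 _ e4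
      rw [map_sub, sub_eq_zero] at e5
      exact e5
    have e6 : (⟨U (Y v - (p (Y v) : V)), h1 _⟩ : LinearMap.range Y) = 0 := Subtype.ext e2
    rw [hWx, e3, e6, map_zero, add_zero]
  refine ⟨W, ?_, ?_⟩
  · apply LinearMap.ext
    intro x
    exact (hWY x).trans (hYW x).symm
  · apply LinearMap.ext
    intro x
    exact (hYW x).symm

end Pool.Agent.HWN
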