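import Pool.Agent.HWN.Defs

set_option autoImplicit false

namespace Pool.Agent.HWN

open Module

universe u

section

variable {k : Type*} {V : Type*} [Field k] [AddCommGroup V] [Module k V]

/-- rank one maps determine a scalar -/
private theorem Term_scalar (Y W : Module.End k V)
    (hW : ∀ (q : Module.Dual k V) (p : V), (∀ u, q (Y u) = 0) → Y p = 0 →
      ∀ u, q u • W p = q (W u) • p)
    (p1 : V) (hp1 : p1 ≠ 0) (hYp1 : Y p1 = 0) (q0 : Module.Dual k V) (hq0 : ∀ u, q0 (Y u) = 0)
    (u0 : V) (hu0 : q0 u0 = 1) :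
    ∃ c : k, (∀ p, Y p = 0 → W p = c • p) ∧
      ∀ q : Module.Dual k V, (∀ u, q (Y u) = 0) → ∀ u, q (W u) = c * q u := by
  refine ⟨q0 (W u0), ?_, ?_⟩
  · intro p hp
    have h := hW q0 p hq0 hp u0
    rwa [hu0, one_smul] at h
  · intro q hq u
    have h1 := hW q0 p1 hq0 hYp1 u0
    rw [hu0, one_smul] at h1
    have h2 := hW q p1 hq hYp1 u
    rw [h1, smul_smul] at h2
    have h3 : (q u * q0 (W u0) - q (W u)) • p1 = 0 := by
      rw [sub_smul, h2, sub_self]
    have h4 := (smul_eq_zero.1 h3).resolve_right hp1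
    linear_combination -h4

private theorem Term_mul1 (Y : Module.End k V) (q : Module.Dual k V) (p : V) (hp : Y p = 0) :
    Y * (LinearMap.smulRight q p : Module.End k V) = 0 := by
  ext u
  show Y (q u • p) = 0
  rw [map_smul, hp, smul_zero]

private theorem Term_mul2 (Y : Module.End k V) (q : Module.Dual k V) (p : V)
    (hq : ∀ u, q (Y u) = 0) : (LinearMap.smulRight q p : Module.End k V) * Y = 0 := by
  ext u
  show q (Y u) • p = 0
  rw [hq, zero_smul]

/-- what commutes with `Y` commutes with the polynomials in `Y` -/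
private theorem Term_aeval (Y Z : Module.End k V) (h : Y * Z = Z * Y) (p : Polynomial k) :
    Polynomial.aeval Y p * Z = Z * Polynomial.aeval Y p := by
  have hc : Commute Y Z := h
  induction p using Polynomial.induction_on' with
  | add p q hp hq => rw [map_add, add_mul, mul_add, hp, hq]
  | monomial n a =>
    rw [Polynomial.aeval_monomial, mul_assoc, (hc.pow_left n).eq, ← mul_assoc,
      Algebra.commutes a Z, mul_assoc]

/-- `Z = q(.) p` in the centralizer gives the relation of `Term_scalar` -/
private theorem Term_rel (W : Module.End k V) (q : Module.Dual k V) (p : V)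
    (h : W * (LinearMap.smulRight q p : Module.End k V) =
      (LinearMap.smulRight q p : Module.End k V) * W) (u : V) :
    q u • W p = q (W u) • p := by
  have h1 := LinearMap.congr_fun h u
  have h2 : W (q u • p) = q (W u) • p := h1
  rwa [map_smul] at h2

end

theorem terminal_of (k : Type*) [Field k]
    (hT : ∀ (V : Type u) [AddCommGroup V] [Module k V] [FiniteDimensional k V]
      (X Y : Module.End k V), Commute X Y → IsNilpotent Y → finrank k V ≤ finrank k (cen X Y))
    (hF : ∀ (V : Type u) [AddCommGroup V] [Module k V] [FiniteDimensional k V]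
      (Y U : Module.End k V), IsNilpotent Y → Commute U Y → (∀ u : V, U u ∈ LinearMap.range Y) →
      (∀ u : V, Y u = 0 → U u = 0) → ∃ U' : Module.End k V, Commute U' Y ∧ U = Y * U')
    (hGc : ∀ (V : Type u) [AddCommGroup V] [Module k V] (Y : Module.End k V) (a : ℕ) (v : V)
      (r : Module.Dual k V), (Y ^ a) v = 0 → (∀ u : V, r ((Y ^ a) u) = 0) →
      Commute (GG Y a v r) Y)
    (hGk : ∀ (V : Type u) [AddCommGroup V] [Module k V] (Y : Module.End k V) (a : ℕ), 1 ≤ a →
      ∀ (v : V) (r : Module.Dual k V) (u : V), Y u = 0 → GG Y a v r u = r u • (Y ^ (a - 1)) v)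
    (V : Type u) [AddCommGroup V] [Module k V]
    [FiniteDimensional k V] (X Y : Module.End k V) (hXY : Commute X Y) (hY : IsNilpotent Y)
    (h1 : ∀ u : V, X u ∈ LinearMap.range Y) (h2 : ∀ u : V, Y u = 0 → X u = 0)
    (hr : 2 ≤ finrank k (LinearMap.ker Y)) : finrank k V + 1 ≤ finrank k (cen X Y) := by
  by_contra hcon
  have hle : finrank k (cen X Y) ≤ finrank k V := by omega
  -- centralizers contained in `cen X Y` are equal to it
  have heq : ∀ W : Module.End k V, Commute W Y → cen W Y ≤ cen X Y → cen W Y = cen X Y := by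
    intro W hW hWX
    exact Submodule.eq_of_le_of_finrank_le hWX (hle.trans (hT V W Y hW hY))
  -- a vector of the kernel
  obtain ⟨p1, hYp1, hp1⟩ : ∃ p1 : V, Y p1 = 0 ∧ p1 ≠ 0 := by
    by_contra hno
    have h3 : LinearMap.ker Y = ⊥ := by
      rw [Submodule.eq_bot_iff]
      intro x hx
      by_contra hx0
      exact hno ⟨x, LinearMap.mem_ker.1 hx, hx0⟩
    rw [h3, finrank_bot] at hr
    omega
  -- a functional
  obtain ⟨q0, u0, hq0, hu0⟩ : ∃ (q0 : Module.Dual k V) (u0 : V), (∀ u, q0 (Y u) = 0) ∧
      q0 u0 = 1 := by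
    have h3 : LinearMap.range Y < ⊤ := by
      rw [lt_top_iff_ne_top]
      intro h4
      have h5 : Function.Injective Y :=
        LinearMap.injective_iff_surjective.2 (LinearMap.range_eq_top.1 h4)
      exact hp1 (h5 (by rw [hYp1, map_zero]))
    obtain ⟨f, hf0, hf⟩ := Submodule.exists_le_ker_of_lt_top _ h3
    obtain ⟨u, hu⟩ : ∃ u, f u ≠ 0 := by
      by_contra hno
      apply hf0
      ext u
      by_contra hu
      exact hno ⟨u, hu⟩
    refine ⟨f, (f u)⁻¹ • u, fun w => hf (LinearMap.mem_range_self Y w), ?_⟩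
    rw [map_smul, smul_eq_mul, inv_mul_cancel₀ hu]
  -- membership in the range
  have hran : ∀ w : V, (∀ q : Module.Dual k V, (∀ u, q (Y u) = 0) → q w = 0) →
      w ∈ LinearMap.range Y := by
    intro w hw
    by_contra hno
    obtain ⟨f, hf, hf2⟩ := Submodule.exists_le_ker_of_notMem hno
    exact hf (hw f fun u => hf2 (LinearMap.mem_range_self Y u))
  -- the main induction
  have hmain : ∀ j : ℕ, ∃ (p : Polynomial k) (W : Module.End k V), Commute W Y ∧
      X = Polynomial.aeval Y p + Y ^ (j + 1) * W := by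
    intro j
    induction j with
    | zero =>
      obtain ⟨U, hU, hXU⟩ := hF V Y X hY hXY h1 h2
      refine ⟨0, U, hU, ?_⟩
      rw [map_zero, zero_add, zero_add, pow_one]
      exact hXU
    | succ j ih =>
      obtain ⟨p, W, hW, hX⟩ := ih
      have hsub : cen W Y ≤ cen X Y := by
        intro Z hZ
        obtain ⟨hZ1, hZ2⟩ := mem_cen.1 hZ
        refine mem_cen.2 ⟨?_, hZ2⟩
        have h3 : Y ^ (j + 1) * Z = Z * Y ^ (j + 1) :=
          ((show Commute Y Z from hZ2).pow_left (j + 1)).eq
        rw [hX, add_mul, mul_add, Term_aeval Y Z hZ2 p, mul_assoc, hZ1, ← mul_assoc, h3,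
          mul_assoc]
      have hWX := heq W hW hsub
      have hrel : ∀ (q : Module.Dual k V) (p' : V), (∀ u, q (Y u) = 0) → Y p' = 0 →
          ∀ u, q u • W p' = q (W u) • p' := by
        intro q p' hq hp' u
        have m1 := Term_mul1 Y q p' hp'
        have m2 := Term_mul2 Y q p' hq
        have hZ2 : Y * (LinearMap.smulRight q p' : Module.End k V) =
            (LinearMap.smulRight q p' : Module.End k V) * Y := by rw [m1, m2]
        have hZX : (LinearMap.smulRight q p' : Module.End k V) ∈ cen X Y := by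
          refine mem_cen.2 ⟨?_, hZ2⟩
          have e1 : Y ^ (j + 1) * W * (LinearMap.smulRight q p' : Module.End k V) = 0 := by
            have e : Y ^ (j + 1) * W = W * Y ^ j * Y := by
              rw [mul_assoc, ← pow_succ]
              exact (hW.pow_right (j + 1)).eq.symm
            rw [e, mul_assoc, m1, mul_zero]
          have e2 : (LinearMap.smulRight q p' : Module.End k V) * (Y ^ (j + 1) * W) = 0 := by
            rw [pow_succ', mul_assoc, ← mul_assoc, m2, zero_mul]
          rw [hX, add_mul, mul_add, Term_aeval Y _ hZ2 p, e1, e2]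
        rw [← hWX] at hZX
        exact Term_rel W q p' (mem_cen.1 hZX).1 u
      obtain ⟨c, hc1, hc2⟩ := Term_scalar Y W hrel p1 hp1 hYp1 q0 hq0 u0 hu0
      obtain ⟨U, hU, hWU⟩ := hF V Y (W - c • 1) hY
        (hW.sub_left ((Commute.one_left Y).smul_left c))
        (by
          intro u
          apply hran
          intro q hq
          have h3 : (W - c • (1 : Module.End k V)) u = W u - c • u := rfl
          rw [h3, map_sub, map_smul, hc2 q hq u, smul_eq_mul, sub_self])
        (by
          intro u hu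
          have h3 : (W - c • (1 : Module.End k V)) u = W u - c • u := rfl
          rw [h3, hc1 u hu, sub_self])
      refine ⟨p + Polynomial.C c * Polynomial.X ^ (j + 1), U, hU, ?_⟩
      have hW' : W = c • 1 + Y * U := by rw [← hWU]; abel
      rw [hX, map_add, map_mul, map_pow, Polynomial.aeval_X, Polynomial.aeval_C, hW', mul_add,
        ← add_assoc, mul_smul_comm, mul_one, Algebra.algebraMap_eq_smul_one, smul_mul_assoc,
        one_mul, ← mul_assoc, ← pow_succ]
  obtain ⟨N, hN⟩ := hY
  obtain ⟨p, W, hW, hX⟩ := hmain N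
  have hX' : X = Polynomial.aeval Y p := by
    rw [pow_succ, hN, zero_mul, zero_mul, add_zero] at hX
    exact hX
  -- everything commuting with `Y` is in `cen X Y`
  have hall : ∀ Z : Module.End k V, Y * Z = Z * Y → Z ∈ cen X Y := by
    intro Z hZ
    refine mem_cen.2 ⟨?_, hZ⟩
    rw [hX']
    exact Term_aeval Y Z hZ p
  -- the nilpotency index
  obtain ⟨T, hT1, hT2, hT3⟩ : ∃ T : ℕ, 1 ≤ T ∧ Y ^ T = 0 ∧ Y ^ (T - 1) ≠ 0 := by
    classical
    have hex : ∃ n, Y ^ n = 0 := ⟨N, hN⟩
    refine ⟨Nat.find hex, ?_, Nat.find_spec hex, ?_⟩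
    · rw [Nat.one_le_iff_ne_zero]
      intro h0
      have h3 := Nat.find_spec hex
      rw [h0, pow_zero] at h3
      apply hp1
      have h4 := LinearMap.congr_fun h3 p1
      exact h4
    · refine Nat.find_min hex ?_
      have : Nat.find hex ≠ 0 := by
        intro h0
        have h3 := Nat.find_spec hex
        rw [h0, pow_zero] at h3
        apply hp1
        have h4 := LinearMap.congr_fun h3 p1
        exact h4
      omega
  obtain ⟨v, hv⟩ : ∃ v, (Y ^ (T - 1)) v ≠ 0 := by
    by_contra hno
    apply hT3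
    ext u
    by_contra hu
    exact hno ⟨u, hu⟩
  obtain ⟨r, hr1⟩ : ∃ r : Module.Dual k V, r ((Y ^ (T - 1)) v) = 1 := by
    obtain ⟨f, hf⟩ : ∃ f : Module.Dual k V, f ((Y ^ (T - 1)) v) ≠ 0 := by
      by_contra hno
      apply hv
      rw [← Module.forall_dual_apply_eq_zero_iff k]
      intro f
      by_contra hf
      exact hno ⟨f, hf⟩
    refine ⟨(f ((Y ^ (T - 1)) v))⁻¹ • f, ?_⟩
    show (f ((Y ^ (T - 1)) v))⁻¹ * f ((Y ^ (T - 1)) v) = 1
    exact inv_mul_cancel₀ hf
  have hGY : Commute (GG Y T v r) Y := hGc V Y T v r (by rw [hT2]; rfl) (by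
    intro u
    rw [hT2]
    exact map_zero r)
  have hGX : cen (GG Y T v r) Y = cen X Y :=
    heq _ hGY fun Z hZ => hall Z (mem_cen.1 hZ).2
  have hrel : ∀ (q : Module.Dual k V) (p' : V), (∀ u, q (Y u) = 0) → Y p' = 0 →
      ∀ u, q u • (GG Y T v r) p' = q ((GG Y T v r) u) • p' := by
    intro q p' hq hp' u
    have hZ : (LinearMap.smulRight q p' : Module.End k V) ∈ cen X Y :=
      hall _ (by rw [Term_mul1 Y q p' hp', Term_mul2 Y q p' hq])
    rw [← hGX] at hZ
    exact Term_rel _ q p' (mem_cen.1 hZ).1 u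
  obtain ⟨c, hc1, -⟩ := Term_scalar Y (GG Y T v r) hrel p1 hp1 hYp1 q0 hq0 u0 hu0
  have hwk : Y ((Y ^ (T - 1)) v) = 0 := by
    have h3 : (Y * Y ^ (T - 1)) v = 0 := by
      rw [← pow_succ', show T - 1 + 1 = T by omega, hT2]
      rfl
    exact h3
  have hc : c = 1 := by
    have h3 := hc1 _ hwk
    rw [hGk V Y T hT1 v r _ hwk, hr1, one_smul] at h3
    have h4 : (c - 1) • (Y ^ (T - 1)) v = 0 := by
      rw [sub_smul, one_smul, ← h3, sub_self]
    have h5 := (smul_eq_zero.1 h4).resolve_right hv
    linear_combination h5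
  have hker : LinearMap.ker Y ≤ Submodule.span k {(Y ^ (T - 1)) v} := by
    intro u hu
    have hu' : Y u = 0 := LinearMap.mem_ker.1 hu
    have h3 := hc1 u hu'
    rw [hGk V Y T hT1 v r u hu', hc, one_smul] at h3
    rw [Submodule.mem_span_singleton]
    exact ⟨r u, h3⟩
  have h6 : finrank k (LinearMap.ker Y) ≤ 1 :=
    (Submodule.finrank_mono hker).trans (finrank_span_singleton hv).le
  omega

end Pool.Agent.HWN
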