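import Pool.Agent.HWN.Steps
import Pool.Agent.HWN.GProps
import Pool.Agent.HWN.Conds
import Pool.Agent.HWN.Cases
import Pool.Agent.HWN.LemF
import Pool.Agent.HWN.Term
import Pool.Agent.HWN.AnyField

/-! Theorem 2: two commuting endomorphisms, one nilpotent, with `dim V/(XV+YV) ≥ 2` and
`dim (ker X ∩ ker Y) ≥ 2`, have a centraliser of dimension `> dim V`. -/

set_option autoImplicit false

namespace Pool.Agent.HWN

open Module

universe u

theorem terminal {k : Type*} {V : Type u} [Field k] [IsAlgClosed k] [AddCommGroup V] [Module k V]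
    [FiniteDimensional k V] (X Y : Module.End k V) (hXY : Commute X Y) (hY : IsNilpotent Y)
    (h1 : ∀ u : V, X u ∈ LinearMap.range Y) (h2 : ∀ u : V, Y u = 0 → X u = 0)
    (hr : 2 ≤ finrank k (LinearMap.ker Y)) : finrank k V + 1 ≤ finrank k (cen X Y) :=
  terminal_of.{u} k (fun V _ _ _ => thm1 k V) (fun _ _ _ _ => lemF) (fun _ _ _ => GG_comm)
    (fun _ _ _ => GG_ker) V X Y hXY hY h1 h2 hr

theorem thm2 (k : Type*) [Field k] [IsAlgClosed k] (V : Type u) [AddCommGroup V] [Module k V]
    [FiniteDimensional k V] (X Y : Module.End k V) (hXY : Commute X Y) (hY : IsNilpotent Y)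
    (hm : MuTwo X Y) (hs : STwo X Y) : finrank k V + 1 ≤ finrank k (cen X Y) := by
  suffices h : ∀ (n : ℕ) (V : Type u) [AddCommGroup V] [Module k V] [FiniteDimensional k V]
      (X Y : Module.End k V), Commute X Y → IsNilpotent Y → MuTwo X Y → STwo X Y →
      finrank k V = n → finrank k V + 1 ≤ finrank k (cen X Y) from
    h _ V X Y hXY hY hm hs rfl
  intro n
  induction n using Nat.strong_induction_on with
  | _ n ih =>
    intro V _ _ _ X Y hXY hY hm hs hn
    have hI : IH.{u} k (finrank k V) := by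
      intro W _ _ _ X' Y' h1 h2 h3 h4 h5
      exact ih _ (hn ▸ h5) W X' Y' h1 h2 h3 h4 rfl
    by_cases hA : ∃ G : Module.End k V, Commute G Y ∧ ¬ IsNilpotent (X * G)
    · obtain ⟨G, hG, hXG⟩ := hA
      exact stepA hI X Y G hXY hY hG hm hs hXG
    · push Not at hA
      have hA1 : ∀ (a : ℕ) (u : V), 1 ≤ a → Y ((Y ^ (a - 1)) u) = 0 →
          X ((Y ^ (a - 1)) u) ∈ LinearMap.range (Y ^ a) := by
        intro a u ha hu
        by_contra hc
        obtain ⟨r, hr0, hr1⟩ := Submodule.exists_le_ker_of_notMem hc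
        have hpow : (Y ^ a) u = 0 := by
          obtain ⟨b, rfl⟩ : ∃ b, a = b + 1 := ⟨a - 1, by omega⟩
          rw [pow_succ']; exact hu
        have hrr : ∀ w : V, r ((Y ^ a) w) = 0 := fun w => hr1 ⟨w, rfl⟩
        have hGc := GG_comm Y a u r hpow hrr
        refine absurd (hA _ hGc) ?_
        obtain ⟨c, hc0, hcu⟩ := GG_poly Y a ha u r (X u)
        have hcomm : ∀ w : V, X ((Y ^ (a - 1)) w) = (Y ^ (a - 1)) (X w) := fun w =>
          LinearMap.congr_fun (hXY.pow_right (a - 1)).eq w
        have hXu : X u ≠ 0 := by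
          intro h0
          apply hr0
          rw [hcomm, h0, map_zero, map_zero]
        refine not_nil_of Y (X * GG Y a u r) hY (hXY.mul_left hGc) c ?_ (X u) hXu ?_
        · rw [hc0, ← hcomm]; exact hr0
        · rw [Module.End.mul_apply, hcu]
          have : Commute X (Polynomial.aeval Y c) := by
            exact Polynomial.aeval_eq_sum_range (R := k) Y ▸
              (Commute.sum_right _ _ _ fun i _ => (hXY.pow_right i).smul_right _)
          exact LinearMap.congr_fun this.eq u
      rcases cases X Y hXY hY hm hs hA1 with ⟨hK, hS⟩ | ⟨a, v, r, hp, h1, h2⟩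
      · refine terminal X Y hXY hY ?_ ?_ ?_
        · intro u; rw [← hK]; exact Submodule.mem_sup_left ⟨u, rfl⟩
        · intro u hu
          have : u ∈ SS X Y := by rw [hS]; exact hu
          exact this.1
        · rw [← hS]; exact hs
      · exact stepB hI X Y hXY hY a v r hp (mu_cond X Y a hp.pos v r hm h1)
          (s_cond X Y hXY a hp.pos v r hs h2)

/-- any field -/
theorem thm3 (k : Type u) [Field k] (V : Type u) [AddCommGroup V] [Module k V]
    [FiniteDimensional k V] (X Y : Module.End k V) (hXY : Commute X Y) (hY : IsNilpotent Y)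
    (hm : MuTwo X Y) (hs : STwo X Y) : finrank k V + 1 ≤ finrank k (cen X Y) :=
  thm3_of k V X Y hXY hY hm hs (fun K _ _ W _ _ _ X Y h1 h2 h3 h4 => thm2 K W X Y h1 h2 h3 h4)

end Pool.Agent.HWN
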