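import Pool.Agent.HWN.Core
import Pool.Agent.HWN.T2
import Pool.Agent.HWN.Mod1
import Pool.Agent.HWN.Stab
import Pool.Agent.HWN.ModQ
import Pool.Agent.HWC.QuotGor

/-! (HWC) for modules of rank `q` with `q + 1` generators, in codimension two. -/

set_option autoImplicit false

namespace Pool.Agent.HWN

open IsLocalRing Module Pool.Agent.HWC

theorem mod_free (k B : Type) [Field k] [CommRing B] [IsLocalRing B] [Algebra k B]
    [Module.Finite k B]
    (hres : Function.Surjective (algebraMap k (IsLocalRing.ResidueField B)))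
    (hG : InfIrred (⊥ : Ideal B)) (y z : B)
    (hm : IsLocalRing.maximalIdeal B = Ideal.span {y, z})
    (N : Type) [AddCommGroup N] [Module k N] [Module B N] [IsScalarTower k B N]
    [Module.Finite k N] (h1 : finrank k N = finrank k B)
    (h2 : finrank k (Module.End B N) = finrank k B) : Module.Free B N :=
  mod_free_of k B (fun V _ _ _ X Y h1 h2 h3 h4 => thm3 k V X Y h1 h2 h3 h4) hres hG y z hm N h1 h2

theorem mod_free_q (k B : Type) [Field k] [CommRing B] [IsLocalRing B] [Algebra k B]
    [Module.Finite k B]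
    (hres : Function.Surjective (algebraMap k (IsLocalRing.ResidueField B)))
    (hG : InfIrred (⊥ : Ideal B)) (y z : B)
    (hm : IsLocalRing.maximalIdeal B = Ideal.span {y, z})
    (N : Type) [AddCommGroup N] [Module k N] [Module B N] [IsScalarTower k B N]
    [Module.Finite k N] (q : ℕ) (g : Fin (q + 1) → N)
    (hg : Submodule.span B (Set.range g) = ⊤)
    (h3 : finrank k N = q * finrank k B)
    (h4 : finrank k (Module.End B N) = q ^ 2 * finrank k B) : Module.Free B N :=
  mod_free_q_of k B (fun N _ _ _ _ _ h1 h2 => mod_free k B hres hG y z hm N h1 h2)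
    (fun m N N1 _ _ _ _ _ _ _ _ _ _ i hi π hπ hex => stab_end k B hG m N N1 i hi π hπ hex)
    N q g hg h3 h4

/-- `m / x` -/
theorem max_quot (R : Type) [CommRing R] [IsLocalRing R] (x y z : R)
    (hm : maximalIdeal R = Ideal.span {x, y, z}) [IsLocalRing (R ⧸ Ideal.span {x})] :
    maximalIdeal (R ⧸ Ideal.span {x}) =
      Ideal.span {Ideal.Quotient.mk (Ideal.span {x}) y, Ideal.Quotient.mk (Ideal.span {x}) z} := by
  have hxm : x ∈ maximalIdeal R := by rw [hm]; exact Ideal.subset_span (by simp)
  have hle : Ideal.span {x} ≤ maximalIdeal R := by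
    rw [Ideal.span_le, Set.singleton_subset_iff]; exact hxm
  have hnu : ∀ w ∈ maximalIdeal R,
      Ideal.Quotient.mk (Ideal.span {x}) w ∈ maximalIdeal (R ⧸ Ideal.span {x}) := by
    intro w hw
    rw [mem_maximalIdeal, mem_nonunits_iff]
    intro hu
    obtain ⟨c, hc⟩ := hu.exists_right_inv
    obtain ⟨c, rfl⟩ := Ideal.Quotient.mk_surjective c
    rw [← map_mul, ← map_one (Ideal.Quotient.mk (Ideal.span {x})), Ideal.Quotient.eq] at hc
    have h1 : (1 : R) ∈ maximalIdeal R := by
      have h2 := (maximalIdeal R).sub_mem ((maximalIdeal R).mul_mem_right c hw) (hle hc)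
      rwa [sub_sub_cancel] at h2
    exact (Ideal.ne_top_iff_one _).1 (maximalIdeal.isMaximal R).ne_top h1
  apply le_antisymm
  · intro b hb
    obtain ⟨r, rfl⟩ := Ideal.Quotient.mk_surjective b
    have hr : r ∈ maximalIdeal R := by
      rw [mem_maximalIdeal, mem_nonunits_iff] at hb ⊢
      exact fun hu => hb (hu.map (Ideal.Quotient.mk (Ideal.span {x})))
    rw [hm, Ideal.mem_span_insert] at hr
    obtain ⟨a, w, hw, rfl⟩ := hr
    obtain ⟨b, c, rfl⟩ := Ideal.mem_span_pair.1 hw
    have h0 : Ideal.Quotient.mk (Ideal.span {x}) x = 0 :=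
      Ideal.Quotient.eq_zero_iff_mem.2 (Ideal.mem_span_singleton_self x)
    rw [map_add, map_mul, h0, mul_zero, zero_add, map_add, map_mul, map_mul]
    exact Ideal.mem_span_pair.2 ⟨_, _, rfl⟩
  · rw [Ideal.span_le]
    intro w hw
    rcases hw with rfl | hw
    · exact hnu y (by rw [hm]; exact Ideal.subset_span (by simp))
    · rw [Set.mem_singleton_iff] at hw
      subst hw
      exact hnu z (by rw [hm]; exact Ideal.subset_span (by simp))

/-- the main theorem, for `M` itself. -/
theorem codim_two (R : Type) [CommRing R] [IsDomain R] [IsLocalRing R] [IsNoetherianRing R]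
    (hR : Pkg R) (x y z : R) (hx0 : x ≠ 0) (hm : maximalIdeal R = Ideal.span {x, y, z})
    (k : Type) [Field k] (φ : k →+* R ⧸ Ideal.span {x})
    (hφ : ∀ b : R ⧸ Ideal.span {x}, ∃ c : k, ¬ IsUnit (b - φ c))
    (M : Type) [AddCommGroup M] [Module R M] [Module.Finite R M] [NoZeroSMulDivisors R M]
    (hM : finrank R M ≤ 1 ∨
      ∃ g : Fin (finrank R M + 1) → M, Submodule.span R (Set.range g) = ⊤)
    (hrefl : Module.IsReflexive R (TensorProduct R M (Module.Dual R M))) :
    Module.Free R M := by
  have hTF : TF R M := fun s m h0 => smul_eq_zero.mp h0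
  have hxm : x ∈ maximalIdeal R := by rw [hm]; exact Ideal.subset_span (by simp)
  obtain ⟨q, hAF⟩ := exists_AF R hR M hTF _ hxm hx0
  have hq : finrank R M = q := rank_of_AF R M hTF x hx0 q hAF
  have hne : Ideal.span {x} ≠ ⊤ := by
    intro h
    rw [Ideal.span_singleton_eq_top] at h
    exact (mem_maximalIdeal x).1 hxm h
  have : Nontrivial (R ⧸ Ideal.span {x}) := Ideal.Quotient.nontrivial_iff.2 hne
  have hloc : IsLocalRing (R ⧸ Ideal.span {x}) :=
    IsLocalRing.of_surjective' (Ideal.Quotient.mk _) Ideal.Quotient.mk_surjective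
  let _ : Algebra k (R ⧸ Ideal.span {x}) := φ.toAlgebra
  have hres : Function.Surjective (algebraMap k (ResidueField (R ⧸ Ideal.span {x}))) := by
    intro w
    obtain ⟨b, rfl⟩ := IsLocalRing.residue_surjective w
    obtain ⟨c, hc⟩ := hφ b
    refine ⟨c, ?_⟩
    rw [IsScalarTower.algebraMap_apply k (R ⧸ Ideal.span {x}) (ResidueField _)]
    have h1 : b - φ c ∈ maximalIdeal (R ⧸ Ideal.span {x}) := hc
    rw [← IsLocalRing.residue_eq_zero_iff, map_sub, sub_eq_zero] at h1
    exact h1.symm
  have hG := quot_infIrred R hR x hxm hx0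
  have hmB := max_quot R x y z hm
  rcases Nat.lt_or_ge 1 q with h1 | h1
  · rw [hq] at hM
    rcases hM with hM | ⟨g, hg⟩
    · omega
    refine core R hR x hxm hx0 k hres M q hAF hrefl ?_
    intro _ _ _ _ h3 h4
    refine mod_free_q k _ hres hG _ _ hmB _ q (fun i => Submodule.Quotient.mk (g i)) ?_ h3 h4
    rw [eq_top_iff]
    rintro v -
    obtain ⟨u, rfl⟩ := Submodule.Quotient.mk_surjective _ v
    have hu : u ∈ Submodule.span R (Set.range g) := by rw [hg]; trivial
    induction hu using Submodule.span_induction with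
    | mem w hw =>
      obtain ⟨i, rfl⟩ := hw
      exact Submodule.subset_span ⟨i, rfl⟩
    | zero => exact Submodule.zero_mem _
    | add a b _ _ ha hb => exact Submodule.add_mem _ ha hb
    | smul r a _ ha =>
      exact Submodule.smul_mem _ (Ideal.Quotient.mk (Ideal.span {x}) r) ha
  · obtain rfl | rfl : q = 0 ∨ q = 1 := by omega
    · obtain ⟨N, j, p, hjp, hpj⟩ := hAF
      have : Subsingleton M := by
        refine ⟨fun u v => ?_⟩
        have h2 : ∀ w : M, w = 0 := by
          intro w
          have h3 : x ^ N • w = 0 := by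
            rw [← hjp, Subsingleton.elim (p w) 0, map_zero]
          exact (hTF _ _ h3).resolve_left (pow_ne_zero N hx0)
        rw [h2 u, h2 v]
      exact Module.Free.of_subsingleton R M
    · refine core R hR x hxm hx0 k hres M 1 hAF hrefl ?_
      intro _ _ _ _ h3 h4
      rw [one_mul] at h3
      rw [one_pow, one_mul] at h4
      exact mod_free k _ hres hG _ _ hmB _ h3 h4

/-- with the dual version. -/
theorem codim_two_dual (R : Type) [CommRing R] [IsDomain R] [IsLocalRing R] [IsNoetherianRing R]
    (hR : Pkg R) (x y z : R) (hx0 : x ≠ 0) (hm : maximalIdeal R = Ideal.span {x, y, z})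
    (k : Type) [Field k] (φ : k →+* R ⧸ Ideal.span {x})
    (hφ : ∀ b : R ⧸ Ideal.span {x}, ∃ c : k, ¬ IsUnit (b - φ c))
    (M : Type) [AddCommGroup M] [Module R M] [Module.Finite R M] [NoZeroSMulDivisors R M]
    (hM : ∃ g : Fin (finrank R (Module.Dual R M) + 1) → Module.Dual R M,
      Submodule.span R (Set.range g) = ⊤)
    (hrefl : Module.IsReflexive R (TensorProduct R M (Module.Dual R M))) :
    Module.Free R M := by
  have hTF : TF R M := fun s m h0 => smul_eq_zero.mp h0
  have hMr : Module.IsReflexive R M := reflexive R hR M hTF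
  have hfin : Module.Finite R (Module.Dual R M) := inferInstance
  have hnz : NoZeroSMulDivisors R (Module.Dual R M) := ⟨fun {s f} h0 => by
    by_cases hs : s = 0
    · exact Or.inl hs
    · refine Or.inr (LinearMap.ext fun m => ?_)
      have h1 := LinearMap.congr_fun h0 m
      rw [LinearMap.smul_apply, LinearMap.zero_apply, smul_eq_mul] at h1
      exact (mul_eq_zero.mp h1).resolve_left hs⟩
  let e : M ≃ₗ[R] Module.Dual R (Module.Dual R M) := Module.evalEquiv R M
  have h2 : Module.IsReflexive R
      (TensorProduct R (Module.Dual R M) (Module.Dual R (Module.Dual R M))) :=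
    Module.equiv
      ((TensorProduct.comm R M (Module.Dual R M)).trans
        (TensorProduct.congr (LinearEquiv.refl R _) e))
  have h3 : Module.Free R (Module.Dual R M) :=
    codim_two R hR x y z hx0 hm k φ hφ (Module.Dual R M) (Or.inr hM) h2
  exact Module.Free.of_equiv e.symm

end Pool.Agent.HWN
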