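import Pool.Agent.HWN.Defs

/-!
# HWN: the Frobenius form of a local algebra with irreducible zero ideal (helper38)
-/

set_option autoImplicit false

namespace Pool.Agent.HWN

open Module IsLocalRing

section socle

variable {B : Type*} [CommRing B] [IsLocalRing B] [IsArtinianRing B]

theorem frob_socle (hG : InfIrred (⊥ : Ideal B)) :
    ∃ s : B, s ≠ 0 ∧ (∀ x ∈ maximalIdeal B, x * s = 0) ∧ ∀ y : B, y ≠ 0 → ∃ c, c * y = s := by
  obtain ⟨n, hn⟩ : ∃ n : ℕ, maximalIdeal B ^ n = ⊥ := by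
    have h := IsArtinianRing.isNilpotent_jacobson_bot (R := B)
    rw [IsLocalRing.jacobson_eq_maximalIdeal ⊥ bot_ne_top] at h
    exact h
  have hex : ∃ n : ℕ, maximalIdeal B ^ n = ⊥ := ⟨n, hn⟩
  classical
  let N := Nat.find hex
  have hN : maximalIdeal B ^ N = ⊥ := Nat.find_spec hex
  have hN0 : N ≠ 0 := by
    intro h
    rw [h, pow_zero, Ideal.one_eq_top] at hN
    have h1 : (1 : B) ∈ (⊥ : Ideal B) := by rw [← hN]; exact Submodule.mem_top
    exact one_ne_zero ((Submodule.mem_bot B).1 h1)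
  have hlt : maximalIdeal B ^ (N - 1) ≠ ⊥ := Nat.find_min hex (Nat.sub_one_lt hN0)
  obtain ⟨s, hs, hs0⟩ := Submodule.exists_mem_ne_zero_of_ne_bot hlt
  have hkill : ∀ x ∈ maximalIdeal B, x * s = 0 := by
    intro x hx
    have h4 : x * s ∈ maximalIdeal B ^ N := by
      have : N = (N - 1) + 1 := by omega
      rw [this, pow_succ']
      exact Ideal.mul_mem_mul hx hs
    rw [hN] at h4
    exact (Submodule.mem_bot B).1 h4
  refine ⟨s, hs0, hkill, fun y hy => ?_⟩
  have h1 : Ideal.span {y} ⊓ Ideal.span {s} ≠ (⊥ : Ideal B) := by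
    intro h
    rcases hG.2 h with h2 | h2
    · exact hy (Ideal.span_singleton_eq_bot.1 h2)
    · exact hs0 (Ideal.span_singleton_eq_bot.1 h2)
  obtain ⟨z, ⟨hz1, hz2⟩, hz0⟩ := Submodule.exists_mem_ne_zero_of_ne_bot h1
  obtain ⟨p, hp⟩ := Ideal.mem_span_singleton'.1 hz1
  obtain ⟨q, hq⟩ := Ideal.mem_span_singleton'.1 hz2
  have hqu : IsUnit q := by
    by_contra hn
    have hqm : q ∈ maximalIdeal B := (mem_maximalIdeal q).2 hn
    exact hz0 (by rw [← hq, hkill q hqm])
  obtain ⟨w, hw⟩ := hqu.exists_left_inv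
  exact ⟨w * p, by rw [mul_assoc, hp, ← hq, ← mul_assoc, hw, one_mul]⟩

end socle

section frob

variable (k B : Type*) [Field k] [CommRing B] [IsLocalRing B] [Algebra k B] [Module.Finite k B]

/-- `φ` is a Frobenius form: `B`-linear maps to `B` are the same as `k`-linear maps to `k` -/
def IsFrob (φ : B →ₗ[k] k) : Prop := ∀ b : Dual k B, ∃! c : B, ∀ x, φ (c * x) = b x

variable {k B}

theorem exists_frob (hG : InfIrred (⊥ : Ideal B)) : ∃ φ : B →ₗ[k] k, IsFrob k B φ := by
  have : IsArtinianRing B := IsArtinianRing.of_finite k B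
  obtain ⟨s, hs0, -, hs⟩ := frob_socle hG
  obtain ⟨φ, hφ⟩ : ∃ φ : B →ₗ[k] k, φ s ≠ 0 := by
    by_contra h
    push Not at h
    exact hs0 ((Module.forall_dual_apply_eq_zero_iff k s).1 h)
  refine ⟨φ, ?_⟩
  let θ : B →ₗ[k] Dual k B := (LinearMap.compr₂ (LinearMap.mul k B) φ)
  have hθ : ∀ c x, θ c x = φ (c * x) := fun c x => rfl
  have hinj : Function.Injective θ := by
    rw [injective_iff_map_eq_zero]
    intro c hc
    by_contra hc0
    obtain ⟨d, hd⟩ := hs c hc0
    apply hφ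
    rw [← hd, mul_comm, ← hθ, hc, LinearMap.zero_apply]
  have hfr : finrank k B = finrank k (Dual k B) := (Subspace.dual_finrank_eq).symm
  have hsurj : Function.Surjective θ :=
    (LinearMap.injective_iff_surjective_of_finrank_eq_finrank hfr).1 hinj
  intro b
  obtain ⟨c, hc⟩ := hsurj b
  refine ⟨c, fun x => by rw [← hθ, hc], fun c' hc' => hinj ?_⟩
  rw [hc]
  ext x
  rw [hθ, hc']

variable {φ : B →ₗ[k] k} (hφ : IsFrob k B φ)
variable {M : Type*} [AddCommGroup M] [Module k M] [Module B M] [IsScalarTower k B M]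

include hφ in
omit [IsLocalRing B] [Module.Finite k B] in
theorem frob_ext {f g : M →ₗ[B] B} (h : ∀ x, φ (f x) = φ (g x)) : f = g := by
  ext x
  obtain ⟨c, -, hc⟩ := hφ (φ ∘ₗ (LinearMap.mul k B (g x)))
  rw [hc (f x) (fun y => ?_), hc (g x) (fun y => rfl)]
  have h2 := h (y • x)
  rw [f.map_smul, g.map_smul, smul_eq_mul, smul_eq_mul, mul_comm, mul_comm y] at h2
  exact h2

include hφ in
omit [IsLocalRing B] [Module.Finite k B] in
theorem frob_lift (ψ : M →ₗ[k] k) : ∃ f : M →ₗ[B] B, ∀ x, φ (f x) = ψ x := by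
  have h1 : ∀ x : M, ∃! c : B, ∀ y : B, φ (c * y) = ψ (y • x) := by
    intro x
    exact hφ (ψ ∘ₗ ((LinearMap.toSpanSingleton B M x).restrictScalars k))
  choose F hF hu using h1
  refine ⟨{ toFun := F
            map_add' := ?_
            map_smul' := ?_ }, ?_⟩
  · intro x x'
    refine (hu (x + x') (F x + F x') (fun y => ?_)).symm
    rw [add_mul, map_add, hF, hF, smul_add, map_add]
  · intro b x
    refine (hu (b • x) (b * F x) (fun y => ?_)).symm
    rw [mul_comm b, mul_assoc, hF, mul_comm, mul_smul]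
  · intro x
    have := hF x 1
    rw [mul_one, one_smul] at this
    exact this

end frob

end Pool.Agent.HWN
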