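import Pool.Agent.HWN.Defs

/-! `X + t G` is nilpotent for finitely many `t` only, if `G` is not nilpotent. -/

set_option autoImplicit false

namespace Pool.Agent.HWN

open Module

universe u

private theorem NonNil_mat {k n : Type*} [Field k] [Fintype n] [DecidableEq n]
    (X G : Matrix n n k) (N : ℕ) (hG : G ^ N ≠ 0) :
    {t : k | (X + t • G) ^ N = 0}.Finite := by
  -- the polynomial matrix
  let P : Matrix n n (Polynomial k) :=
    X.map Polynomial.C + (Polynomial.X : Polynomial k) • G.map Polynomial.C
  have hev : ∀ t : k, P.map (Polynomial.eval t) = X + t • G := by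
    intro t
    ext i j
    simp [P]
    exact mul_comm _ _
  have hevN : ∀ (t : k) (M : ℕ), (P ^ M).map (Polynomial.eval t) = (X + t • G) ^ M := by
    intro t M
    have := map_pow (Polynomial.evalRingHom t).mapMatrix P M
    rw [← hev t]
    exact this
  -- degrees and top coefficients
  have hdeg : ∀ (M : ℕ) (i j : n), ((P ^ M) i j).natDegree ≤ M ∧
      ((P ^ M) i j).coeff M = (G ^ M) i j := by
    intro M
    induction M with
    | zero =>
      intro i j
      rw [pow_zero, pow_zero]
      by_cases h : i = j
      · subst h; simp
      · simp [Matrix.one_apply_ne h]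
    | succ M ih =>
      intro i j
      have hP1 : ∀ a b : n, (P a b).natDegree ≤ 1 := by
        intro a b
        have : P a b = Polynomial.C (X a b) + Polynomial.X * Polynomial.C (G a b) := by
          simp [P]
        rw [this]
        refine Polynomial.natDegree_add_le_of_degree_le (by simp) ?_
        refine Polynomial.natDegree_mul_le.trans ?_
        simp
      have hP2 : ∀ a b : n, (P a b).coeff 1 = G a b := by
        intro a b
        have : P a b = Polynomial.C (X a b) + Polynomial.X * Polynomial.C (G a b) := by
          simp [P]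
        rw [this]
        simp [Polynomial.coeff_C]
      rw [pow_succ, pow_succ, Matrix.mul_apply, Matrix.mul_apply]
      constructor
      · refine Polynomial.natDegree_sum_le_of_forall_le _ _ fun l _ => ?_
        exact Polynomial.natDegree_mul_le.trans (Nat.add_le_add (ih i l).1 (hP1 l j))
      · rw [Polynomial.finsetSum_coeff]
        refine Finset.sum_congr rfl fun l _ => ?_
        rw [Polynomial.coeff_mul_add_eq_of_natDegree_le (ih i l).1 (hP1 l j), (ih i l).2, hP2]
  obtain ⟨i, j, hij⟩ : ∃ i j, (G ^ N) i j ≠ 0 := by
    by_contra h
    push Not at h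
    exact hG (Matrix.ext h)
  have hne : (P ^ N) i j ≠ 0 := by
    intro h0
    apply hij
    rw [← (hdeg N i j).2, h0, Polynomial.coeff_zero]
  refine (Polynomial.finite_setOfPred_isRoot hne).subset ?_
  intro t ht
  have ht' : (X + t • G) ^ N = 0 := ht
  change Polynomial.eval t ((P ^ N) i j) = 0
  have := hevN t N
  rw [ht'] at this
  exact congrFun (congrFun this i) j

theorem nonnil_finite {k : Type*} {V : Type*} [Field k] [AddCommGroup V] [Module k V]
    [FiniteDimensional k V] (X G : Module.End k V) (hG : ¬ IsNilpotent G) :
    {t : k | IsNilpotent (X + t • G)}.Finite := by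
  let b := Module.finBasis k V
  let φ : Module.End k V ≃ₐ[k] Matrix (Fin (finrank k V)) (Fin (finrank k V)) k :=
    LinearMap.toMatrixAlgEquiv b
  have h := NonNil_mat (φ X) (φ G) (finrank k V) (by
    intro h0
    apply hG
    refine ⟨finrank k V, φ.injective ?_⟩
    rw [map_pow, h0, map_zero])
  refine h.subset ?_
  intro t ht
  have ht' : IsNilpotent (X + t • G) := ht
  have h1 : (X + t • G) ^ (finrank k V) = 0 := by
    obtain ⟨m, hm⟩ := ht'
    have hker := Module.End.ker_pow_eq_ker_pow_finrank_of_le (f := X + t • G)
      (m := max m (finrank k V)) (le_max_right _ _)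
    have h0 : (X + t • G) ^ (max m (finrank k V)) = 0 := pow_eq_zero_of_le (le_max_left _ _) hm
    rw [h0, LinearMap.ker_zero] at hker
    exact LinearMap.ker_eq_top.mp hker.symm
  change (φ X + t • φ G) ^ (finrank k V) = 0
  rw [← map_smul, ← map_add, ← map_pow, h1, map_zero]

end Pool.Agent.HWN
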