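import Pool.Agent.HWN.Fin
import Pool.Agent.HWN.Clauses
import Pool.Agent.HWQ.CoeffQ

/-! Proof of `CodimTwo`. -/

set_option autoImplicit false

namespace Pool.Agent.HWN

open IsLocalRing Module Pool.Agent.HWC

theorem codimTwo : CodimTwo := by
  intro R _ _ _ _ hR x y z hx0 hm ⟨F, _, ⟨f⟩⟩ M _ _ _ _ hM hrefl
  have hxm : x ∈ maximalIdeal R := by rw [hm]; exact Ideal.subset_span (by simp)
  obtain ⟨k, _, φ, hφ⟩ := Pool.Agent.HWQ.FieldQ_coeff R (pkg_of_gorOne R hR) x hxm hx0 F f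
  rcases hM with h | h | h
  · exact codim_two R (pkg_of_gorOne R hR) x y z hx0 hm k φ hφ M (Or.inl h) hrefl
  · exact codim_two R (pkg_of_gorOne R hR) x y z hx0 hm k φ hφ M (Or.inr h) hrefl
  · exact codim_two_dual R (pkg_of_gorOne R hR) x y z hx0 hm k φ hφ M h hrefl

end Pool.Agent.HWN
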