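import Pool.Agent.HWN.Defs

/-! Semicontinuity of the dimension of the centraliser. -/

set_option autoImplicit false

namespace Pool.Agent.HWN

open Module

universe u

private theorem Semi_ker {k W U : Type*} [Field k] [AddCommGroup W] [Module k W]
    [FiniteDimensional k W] [AddCommGroup U] [Module k U] (A B : W →ₗ[k] U) :
    {t : k | finrank k (LinearMap.ker A) < finrank k (LinearMap.ker (A + t • B))}.Finite := by
  obtain ⟨W1, hW1⟩ := (LinearMap.ker A).exists_isCompl
  have hinj : LinearMap.ker (A.domRestrict W1) = ⊥ := by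
    rw [LinearMap.ker_eq_bot']
    intro u hu
    have h1 : (u : W) ∈ LinearMap.ker A ⊓ W1 := ⟨hu, u.2⟩
    rw [hW1.inf_eq_bot] at h1
    exact Subtype.ext h1
  obtain ⟨C, hC⟩ := LinearMap.exists_leftInverse_of_injective _ hinj
  let M : Module.End k W1 := C ∘ₗ B.domRestrict W1
  have hfin : {c : k | M.HasEigenvalue c}.Finite := Module.End.finite_hasEigenvalue M
  have hfin2 : ((fun c : k => -c⁻¹) '' {c : k | M.HasEigenvalue c}).Finite := hfin.image _
  refine hfin2.subset ?_
  intro t ht
  by_contra hcon
  have hlt : finrank k (LinearMap.ker A) < finrank k (LinearMap.ker (A + t • B)) := ht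
  -- `(A + tB)|W1` is injective
  have hi : LinearMap.ker (A + t • B) ⊓ W1 = ⊥ := by
    rw [eq_bot_iff]
    rintro u ⟨hu, hu1⟩
    by_contra hne
    have hne' : u ≠ 0 := hne
    have h1 : C ((A + t • B) u) = 0 := by
      rw [show (A + t • B) u = 0 from hu, map_zero]
    have h2 : C (A u) = (⟨u, hu1⟩ : W1) := LinearMap.congr_fun hC ⟨u, hu1⟩
    rw [LinearMap.add_apply, LinearMap.smul_apply, map_add, map_smul, h2] at h1
    have h3 : t • M ⟨u, hu1⟩ = -(⟨u, hu1⟩ : W1) := by
      rw [eq_neg_iff_add_eq_zero, add_comm]; exact h1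
    have ht0 : t ≠ 0 := by
      rintro rfl
      rw [zero_smul] at h3
      have h4 : (⟨u, hu1⟩ : W1) = 0 := by rw [← neg_eq_zero, ← h3]
      exact hne' (congrArg Subtype.val h4)
    apply hcon
    refine ⟨-t⁻¹, ?_, by simp⟩
    refine Module.End.hasEigenvalue_of_hasEigenvector (x := (⟨u, hu1⟩ : W1)) ⟨?_, ?_⟩
    · rw [Module.End.mem_eigenspace_iff]
      have : M ⟨u, hu1⟩ = t⁻¹ • (t • M ⟨u, hu1⟩) := by
        rw [smul_smul, inv_mul_cancel₀ ht0, one_smul]
      rw [this, h3, smul_neg, neg_smul]
    · intro h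
      exact hne' (congrArg Subtype.val h)
  have h1 := Submodule.finrank_sup_add_finrank_inf_eq (LinearMap.ker (A + t • B)) W1
  have h2 := Submodule.finrank_add_eq_of_isCompl hW1
  have h3 := Submodule.finrank_le (LinearMap.ker (A + t • B) ⊔ W1)
  rw [hi, finrank_bot] at h1
  omega

theorem cen_semicont {k : Type*} {V : Type*} [Field k] [AddCommGroup V] [Module k V]
    [FiniteDimensional k V] (X G Y : Module.End k V) :
    {t : k | finrank k (cen X Y) < finrank k (cen (X + t • G) Y)}.Finite := by
  let A : Module.End k V →ₗ[k] (Module.End k V × Module.End k V) :=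
    LinearMap.prod (LinearMap.mulLeft k X - LinearMap.mulRight k X)
      (LinearMap.mulLeft k Y - LinearMap.mulRight k Y)
  let B : Module.End k V →ₗ[k] (Module.End k V × Module.End k V) :=
    LinearMap.prod (LinearMap.mulLeft k G - LinearMap.mulRight k G) 0
  have h := Semi_ker A B
  have e : ∀ t : k, LinearMap.ker (A + t • B) = cen (X + t • G) Y := by
    intro t
    ext Z
    rw [LinearMap.mem_ker, mem_cen]
    change ((X * Z - Z * X) + t • (G * Z - Z * G), (Y * Z - Z * Y) + t • (0 : Module.End k V)) = 0 ↔ _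
    rw [Prod.mk_eq_zero, smul_zero, add_zero, sub_eq_zero (a := Y * Z), add_mul, mul_add,
      smul_mul_assoc, mul_smul_comm]
    refine and_congr_left fun _ => ?_
    rw [← sub_eq_zero (a := X * Z + _)]
    have : X * Z + t • (G * Z) - (Z * X + t • (Z * G)) =
        X * Z - Z * X + t • (G * Z - Z * G) := by
      rw [smul_sub]; abel
    rw [this]
  have e0 : LinearMap.ker A = cen X Y := by
    have := e 0
    rwa [zero_smul, zero_smul, add_zero, add_zero] at this
  rw [e0] at h
  refine h.subset ?_
  intro t ht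
  change finrank k (cen X Y) < finrank k (LinearMap.ker (A + t • B))
  rw [e t]
  exact ht

end Pool.Agent.HWN
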