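import Pool.Agent.HWN.Defs

/-! Fitting decomposition. -/

set_option autoImplicit false

namespace Pool.Agent.HWN

open Module

universe u

private theorem Split_prod {k V V1 V2 : Type*} [Field k] [AddCommGroup V] [Module k V]
    [FiniteDimensional k V] [AddCommGroup V1] [Module k V1] [FiniteDimensional k V1]
    [AddCommGroup V2] [Module k V2] [FiniteDimensional k V2]
    (X Y : Module.End k V) (X' Y' : Module.End k V1) (X'' Y'' : Module.End k V2)
    (e : (V1 × V2) ≃ₗ[k] V) (hX : ∀ p : V1 × V2, X (e p) = e (X' p.1, X'' p.2))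
    (hY : ∀ p : V1 × V2, Y (e p) = e (Y' p.1, Y'' p.2)) :
    finrank k (cen X' Y') + finrank k (cen X'' Y'') ≤ finrank k (cen X Y) := by
  let F : (Module.End k V1 × Module.End k V2) →ₗ[k] Module.End k V :=
    { toFun := fun p => e.toLinearMap ∘ₗ (LinearMap.prodMap p.1 p.2) ∘ₗ e.symm.toLinearMap
      map_add' := by
        intro p q
        refine LinearMap.ext fun w => ?_
        change e (LinearMap.prodMap (p.1 + q.1) (p.2 + q.2) (e.symm w)) =
          e (LinearMap.prodMap p.1 p.2 (e.symm w)) + e (LinearMap.prodMap q.1 q.2 (e.symm w))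
        rw [← map_add]; rfl
      map_smul' := by
        intro c p
        refine LinearMap.ext fun w => ?_
        change e (LinearMap.prodMap (c • p.1) (c • p.2) (e.symm w)) =
          c • e (LinearMap.prodMap p.1 p.2 (e.symm w))
        rw [← map_smul]; rfl }
  have hF : ∀ (p : Module.End k V1 × Module.End k V2) (w : V1 × V2),
      F p (e w) = e (p.1 w.1, p.2 w.2) := by
    intro p w
    change e (LinearMap.prodMap p.1 p.2 (e.symm (e w))) = _
    rw [e.symm_apply_apply]; rfl
  have hmem : ∀ p : cen X' Y' × cen X'' Y'',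
      F ((p.1 : Module.End k V1), (p.2 : Module.End k V2)) ∈ cen X Y := by
    rintro ⟨⟨Z', h1, h2⟩, ⟨Z'', h3, h4⟩⟩
    constructor
    · refine LinearMap.ext fun w => ?_
      obtain ⟨w, rfl⟩ := e.surjective w
      rw [Module.End.mul_apply, Module.End.mul_apply, hF, hX, hX, hF]
      exact congrArg e (Prod.ext (LinearMap.congr_fun h1 w.1) (LinearMap.congr_fun h3 w.2))
    · refine LinearMap.ext fun w => ?_
      obtain ⟨w, rfl⟩ := e.surjective w
      rw [Module.End.mul_apply, Module.End.mul_apply, hF, hY, hY, hF]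
      exact congrArg e (Prod.ext (LinearMap.congr_fun h2 w.1) (LinearMap.congr_fun h4 w.2))
  let G : (cen X' Y' × cen X'' Y'') →ₗ[k] cen X Y :=
    (F ∘ₗ (LinearMap.prodMap (cen X' Y').subtype (cen X'' Y'').subtype)).codRestrict (cen X Y)
      (fun p => hmem p)
  have hG : Function.Injective G := by
    intro p q h
    have h0 : F ((p.1 : Module.End k V1), (p.2 : Module.End k V2)) =
        F ((q.1 : Module.End k V1), (q.2 : Module.End k V2)) := congrArg Subtype.val h
    refine Prod.ext (Subtype.ext (LinearMap.ext fun u => ?_))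
      (Subtype.ext (LinearMap.ext fun u => ?_))
    · have h1 := LinearMap.congr_fun h0 (e (u, 0))
      rw [hF, hF] at h1
      exact congrArg Prod.fst (e.injective h1)
    · have h1 := LinearMap.congr_fun h0 (e (0, u))
      rw [hF, hF] at h1
      exact congrArg Prod.snd (e.injective h1)
  have := LinearMap.finrank_le_finrank_of_injective hG
  rwa [Module.finrank_prod] at this

private theorem Split_cen {k : Type*} {V : Type*} [Field k] [AddCommGroup V] [Module k V]
    [FiniteDimensional k V] (X Y : Module.End k V) (V' V'' : Submodule k V)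
    (hc : IsCompl V' V'') (X' Y' : Module.End k V') (X'' Y'' : Module.End k V'')
    (hX' : ∀ u : V', ((X' u : V') : V) = X u) (hY' : ∀ u : V', ((Y' u : V') : V) = Y u)
    (hX'' : ∀ u : V'', ((X'' u : V'') : V) = X u)
    (hY'' : ∀ u : V'', ((Y'' u : V'') : V) = Y u) :
    finrank k (cen X' Y') + finrank k (cen X'' Y'') ≤ finrank k (cen X Y) := by
  refine Split_prod X Y X' Y' X'' Y'' (Submodule.prodEquivOfIsCompl V' V'' hc) ?_ ?_
  · intro p
    rw [Submodule.coe_prodEquivOfIsCompl', Submodule.coe_prodEquivOfIsCompl', map_add, hX', hX'']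
  · intro p
    rw [Submodule.coe_prodEquivOfIsCompl', Submodule.coe_prodEquivOfIsCompl', map_add, hY', hY'']

theorem split {k : Type*} {V : Type u} [Field k] [AddCommGroup V] [Module k V]
    [FiniteDimensional k V] (X Y : Module.End k V) (hXY : Commute X Y) (hY : IsNilpotent Y)
    (hX : ¬ IsNilpotent X) :
    ∃ (V' V'' : Submodule k V) (X' Y' : Module.End k V') (X'' Y'' : Module.End k V''),
      Commute X' Y' ∧ Commute X'' Y'' ∧ IsNilpotent Y' ∧ IsNilpotent Y'' ∧
      finrank k V' + finrank k V'' = finrank k V ∧ 0 < finrank k V'' ∧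
      (¬ Function.Injective X → 0 < finrank k V') ∧
      finrank k (cen X' Y') + finrank k (cen X'' Y'') ≤ finrank k (cen X Y) ∧
      finrank k (KK X' Y') + finrank k V'' ≤ finrank k (KK X Y) ∧
      finrank k (SS X Y) ≤ finrank k (SS X' Y') := by
  obtain ⟨N0, hN0⟩ := Filter.eventually_atTop.mp (LinearMap.eventually_isCompl_ker_pow_range_pow X)
  have hc : IsCompl (LinearMap.ker (X ^ (N0 + 1))) (LinearMap.range (X ^ (N0 + 1))) :=
    hN0 (N0 + 1) (by omega)
  set N := N0 + 1 with hN
  have hcX : Commute X (X ^ N) := (Commute.refl X).pow_right N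
  have hcY : Commute Y (X ^ N) := hXY.symm.pow_right N
  have hcX' : ∀ u : V, X ((X ^ N) u) = (X ^ N) (X u) := fun u => LinearMap.congr_fun hcX.eq u
  have hcY' : ∀ u : V, Y ((X ^ N) u) = (X ^ N) (Y u) := fun u => LinearMap.congr_fun hcY.eq u
  have mX' : ∀ u ∈ LinearMap.ker (X ^ N), X u ∈ LinearMap.ker (X ^ N) := by
    intro u hu
    have hu' : (X ^ N) u = 0 := hu
    change (X ^ N) (X u) = 0
    rw [← hcX', hu', map_zero]
  have mY' : ∀ u ∈ LinearMap.ker (X ^ N), Y u ∈ LinearMap.ker (X ^ N) := by
    intro u hu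
    have hu' : (X ^ N) u = 0 := hu
    change (X ^ N) (Y u) = 0
    rw [← hcY', hu', map_zero]
  have mX'' : ∀ u ∈ LinearMap.range (X ^ N), X u ∈ LinearMap.range (X ^ N) := by
    rintro _ ⟨u, rfl⟩
    exact ⟨X u, (hcX' u).symm⟩
  have mY'' : ∀ u ∈ LinearMap.range (X ^ N), Y u ∈ LinearMap.range (X ^ N) := by
    rintro _ ⟨u, rfl⟩
    exact ⟨Y u, (hcY' u).symm⟩
  have hXYc : ∀ u : V, X (Y u) = Y (X u) := fun u => LinearMap.congr_fun hXY.eq u
  have hkerX : LinearMap.ker X ≤ LinearMap.ker (X ^ N) := by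
    intro u hu
    have hu' : X u = 0 := hu
    change (X ^ N) u = 0
    rw [hN, pow_succ, Module.End.mul_apply, hu', map_zero]
  have nil_restrict : ∀ (W : Submodule k V) (h : ∀ u ∈ W, Y u ∈ W),
      IsNilpotent (Y.restrict h) := by
    intro W h
    obtain ⟨M, hM⟩ := hY
    refine ⟨M, LinearMap.ext fun u => Subtype.ext ?_⟩
    have : ∀ m : ℕ, (((Y.restrict h) ^ m) u : V) = (Y ^ m) (u : V) := by
      intro m
      induction m with
      | zero => rfl
      | succ m ih =>
        rw [pow_succ', Module.End.mul_apply, pow_succ', Module.End.mul_apply, ← ih]; rfl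
    rw [this, hM]; rfl
  refine ⟨LinearMap.ker (X ^ N), LinearMap.range (X ^ N), X.restrict mX', Y.restrict mY',
    X.restrict mX'', Y.restrict mY'', ?_, ?_, nil_restrict _ mY', nil_restrict _ mY'',
    ?_, ?_, ?_, ?_, ?_, ?_⟩
  · exact LinearMap.ext fun u => Subtype.ext (hXYc u)
  · exact LinearMap.ext fun u => Subtype.ext (hXYc u)
  · exact Submodule.finrank_add_eq_of_isCompl hc
  · by_contra h
    have h0 : finrank k (LinearMap.range (X ^ N)) = 0 := by omega
    rw [Submodule.finrank_eq_zero, LinearMap.range_eq_bot] at h0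
    exact hX ⟨N, h0⟩
  · intro hni
    by_contra h
    have h0 : finrank k (LinearMap.ker (X ^ N)) = 0 := by omega
    rw [Submodule.finrank_eq_zero] at h0
    apply hni
    rw [← LinearMap.ker_eq_bot, eq_bot_iff, ← h0]
    exact hkerX
  · exact Split_cen X Y _ _ hc _ _ _ _ (fun _ => rfl) (fun _ => rfl) (fun _ => rfl) (fun _ => rfl)
  · -- K
    have h1 : (KK (X.restrict mX') (Y.restrict mY')).map (LinearMap.ker (X ^ N)).subtype ⊔
        LinearMap.range (X ^ N) ≤ KK X Y := by
      refine sup_le ?_ ?_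
      · rw [KK, Submodule.map_sup]
        refine sup_le ?_ ?_
        · rintro _ ⟨_, ⟨u, rfl⟩, rfl⟩
          exact Submodule.mem_sup_left ⟨u, rfl⟩
        · rintro _ ⟨_, ⟨u, rfl⟩, rfl⟩
          exact Submodule.mem_sup_right ⟨u, rfl⟩
      · rintro _ ⟨u, rfl⟩
        rw [hN, pow_succ', Module.End.mul_apply]
        exact Submodule.mem_sup_left ⟨_, rfl⟩
    have h2 := Submodule.finrank_mono h1
    have h3 := Submodule.finrank_sup_add_finrank_inf_eq
      ((KK (X.restrict mX') (Y.restrict mY')).map (LinearMap.ker (X ^ N)).subtype)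
      (LinearMap.range (X ^ N))
    have h4 : (KK (X.restrict mX') (Y.restrict mY')).map (LinearMap.ker (X ^ N)).subtype ⊓
        LinearMap.range (X ^ N) = ⊥ := by
      rw [eq_bot_iff, ← hc.inf_eq_bot]
      exact inf_le_inf_right _ (Submodule.map_subtype_le _ _)
    have h5 : finrank k ((KK (X.restrict mX') (Y.restrict mY')).map
        (LinearMap.ker (X ^ N)).subtype) = finrank k (KK (X.restrict mX') (Y.restrict mY')) :=
      LinearEquiv.finrank_eq (Submodule.equivSubtypeMap _ _).symm
    rw [h4, finrank_bot] at h3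
    omega
  · -- S
    have hle : SS X Y ≤ LinearMap.ker (X ^ N) := fun u hu => hkerX hu.1
    let f : SS X Y →ₗ[k] SS (X.restrict mX') (Y.restrict mY') :=
      { toFun := fun u => ⟨⟨u.1, hle u.2⟩, Subtype.ext u.2.1, Subtype.ext u.2.2⟩
        map_add' := fun _ _ => rfl
        map_smul' := fun _ _ => rfl }
    refine LinearMap.finrank_le_finrank_of_injective (f := f) ?_
    intro u w h
    exact Subtype.ext (congrArg (fun z => ((z : SS (X.restrict mX') (Y.restrict mY')).1 : V)) h)

end Pool.Agent.HWN
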