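import Pool.Agent.HWN.T1

/-! Steps A and B. -/

set_option autoImplicit false

namespace Pool.Agent.HWN

open Module

universe u

/-- a non-nilpotent `X` -/
theorem step0 {k : Type*} {V : Type u} [Field k] [IsAlgClosed k] [AddCommGroup V] [Module k V]
    [FiniteDimensional k V] (hI : IH.{u} k (finrank k V)) (X Y : Module.End k V)
    (hXY : Commute X Y) (hY : IsNilpotent Y) (hm : MuTwo X Y) (hs : STwo X Y)
    (hn : ¬ IsNilpotent X) : finrank k V + 1 ≤ finrank k (cen X Y) := by
  obtain ⟨V', V'', X', Y', X'', Y'', h1, h2, h3, h4, h5, h6, -, h7, h8, h9⟩ :=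
    split X Y hXY hY hn
  have hm' : MuTwo X' Y' := by
    unfold MuTwo at hm ⊢
    omega
  have hs' : STwo X' Y' := hs.trans h9
  have i1 := hI V' X' Y' h1 h3 hm' hs' (by omega)
  have i2 := thm1 k V'' X'' Y'' h2 h4
  omega

theorem stepA {k : Type*} {V : Type u} [Field k] [IsAlgClosed k] [AddCommGroup V] [Module k V]
    [FiniteDimensional k V] (hI : IH.{u} k (finrank k V)) (X Y G : Module.End k V)
    (hXY : Commute X Y) (hY : IsNilpotent Y) (hGY : Commute G Y) (hm : MuTwo X Y) (hs : STwo X Y)
    (hn : ¬ IsNilpotent (X * G)) : finrank k V + 1 ≤ finrank k (cen X Y) := by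
  have hf := (cen_semicont X (X * G) Y).union (nonnil_finite X (X * G) hn)
  obtain ⟨t, ht⟩ := hf.exists_notMem
  simp only [Set.mem_union, Set.mem_ofPred_eq, not_or, not_lt] at ht
  obtain ⟨ht1, ht2⟩ := ht
  set Z := X + t • (X * G) with hZ
  have hZX : Z = X * (1 + t • G) := by rw [hZ, mul_add, mul_one, mul_smul_comm]
  have hcomm : Commute Z Y := by
    rw [hZ]
    exact hXY.add_left ((hXY.mul_left hGY).smul_left t)
  have hm' : MuTwo Z Y := by
    have : KK Z Y ≤ KK X Y := by
      refine sup_le_sup_right ?_ _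
      rintro _ ⟨u, rfl⟩
      rw [hZX]
      exact ⟨_, rfl⟩
    have := Submodule.finrank_mono this
    unfold MuTwo at hm ⊢
    omega
  have hs' : STwo Z Y := by
    -- `ψ = 1 + tG` on `ker Y`
    let P := LinearMap.ker Y
    have hψ : ∀ u ∈ P, (1 + t • G) u ∈ P := by
      intro u hu
      have hu' : Y u = 0 := hu
      change Y ((1 + t • G) u) = 0
      have : Y ((1 + t • G) u) = (1 + t • G) (Y u) := by
        have hc : Commute (1 + t • G) Y := (Commute.one_left Y).add_left (hGY.smul_left t)
        exact (LinearMap.congr_fun hc.eq u).symm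
      rw [this, hu', map_zero]
    let ψ : P →ₗ[k] P := (1 + t • G).restrict hψ
    let S : Submodule k P := (SS X Y).comap P.subtype
    have hS : finrank k S = finrank k (SS X Y) := by
      refine LinearEquiv.finrank_eq (Submodule.comapSubtypeEquivOfLe ?_)
      exact inf_le_right
    have hker : (S.comap ψ).map P.subtype ≤ SS Z Y := by
      rintro _ ⟨u, hu, rfl⟩
      have hu1 : ((1 + t • G) (u : V)) ∈ SS X Y := hu
      refine ⟨?_, u.2⟩
      change Z (u : V) = 0
      rw [hZX]
      exact hu1.1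
    have hdim : finrank k S ≤ finrank k (S.comap ψ) := by
      have e1 : S.comap ψ = LinearMap.ker (S.mkQ ∘ₗ ψ) := by
        rw [LinearMap.ker_comp, Submodule.ker_mkQ]
      have e2 := LinearMap.finrank_range_add_finrank_ker (S.mkQ ∘ₗ ψ)
      have e3 : finrank k (LinearMap.range (S.mkQ ∘ₗ ψ)) ≤ finrank k (P ⧸ S) :=
        Submodule.finrank_le _
      have e4 := Submodule.finrank_quotient_add_finrank S
      rw [e1]
      omega
    have h1 := Submodule.finrank_mono hker
    have h2 : finrank k ((S.comap ψ).map P.subtype) = finrank k (S.comap ψ) :=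
      LinearEquiv.finrank_eq (Submodule.equivSubtypeMap P (S.comap ψ)).symm
    unfold STwo at hs ⊢
    omega
  exact (step0 hI Z Y hcomm hY hm' hs' ht2).trans ht1

theorem stepB {k : Type*} {V : Type u} [Field k] [IsAlgClosed k] [AddCommGroup V] [Module k V]
    [FiniteDimensional k V] (hI : IH.{u} k (finrank k V)) (X Y : Module.End k V)
    (hXY : Commute X Y) (hY : IsNilpotent Y) (a : ℕ) (v : V) (r : Module.Dual k V)
    (hp : Prim Y a v r) (hm : ∀ t : k, MuTwo (X + t • GG Y a v r) Y)
    (hs : ∀ t : k, STwo (X + t • GG Y a v r) Y) : finrank k V + 1 ≤ finrank k (cen X Y) := by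
  obtain ⟨ha, hv, hr, hv', v', hv'', hr'⟩ := hp
  obtain ⟨r', hr0, hr1⟩ := Submodule.exists_le_ker_of_notMem hv'
  have hr2 : ∀ u : V, r' ((Y ^ a) u) = 0 := fun u => hr1 ⟨u, rfl⟩
  set G := GG Y a v r with hG
  set G' := GG Y a v' r' with hG'
  have hGY : Commute G Y := GG_comm Y a v r hv hr
  have hGY' : Commute G' Y := GG_comm Y a v' r' hv'' hr2
  have hne : v ≠ 0 := by
    rintro rfl
    exact hv' (by rw [map_zero]; exact Submodule.zero_mem _)
  have hnn : ¬ IsNilpotent (G * G') := by
    obtain ⟨c, hc0, hc⟩ := GG_poly Y a ha v' r' v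
    obtain ⟨d, hd0, hd⟩ := GG_poly Y a ha v r v'
    refine not_nil_of Y (G * G') hY (hGY.mul_left hGY') (c * d) ?_ v hne ?_
    · rw [Polynomial.mul_coeff_zero, hc0, hd0]
      exact mul_ne_zero hr0 hr'
    · rw [Module.End.mul_apply, hG', hc, map_mul, Module.End.mul_apply, ← hd]
      have hcm : Commute G (Polynomial.aeval Y c) := by
        rw [Polynomial.aeval_eq_sum_range (R := k)]
        exact Commute.sum_right _ _ _ fun i _ => (hGY.pow_right i).smul_right _
      exact LinearMap.congr_fun hcm.eq v'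
  have hf := (cen_semicont X G Y).union (nonnil_finite (X * G') (G * G') hnn)
  obtain ⟨t, ht⟩ := hf.exists_notMem
  simp only [Set.mem_union, Set.mem_ofPred_eq, not_or, not_lt] at ht
  obtain ⟨ht1, ht2⟩ := ht
  have e : (X + t • G) * G' = X * G' + t • (G * G') := by rw [add_mul, smul_mul_assoc]
  refine (stepA hI (X + t • G) Y G' (hXY.add_left (hGY.smul_left t)) hY hGY' (hm t) (hs t)
    ?_).trans ht1
  rw [e]
  exact ht2

end Pool.Agent.HWN
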