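import Pool.Agent.HWN.Semi
import Pool.Agent.HWN.NonNil
import Pool.Agent.HWN.Split
import Pool.Agent.HWN.GProps

/-! Theorem 1: `dim V ≤ dim cen X Y` (Motzkin - Taussky), `k` algebraically closed. -/

set_option autoImplicit false

namespace Pool.Agent.HWN

open Module

universe u

/-- a cyclic pair -/
private theorem T1_cyc {k V : Type*} [Field k] [AddCommGroup V] [Module k V]
    [FiniteDimensional k V] (X Y : Module.End k V) (hXY : Commute X Y) (hX : IsNilpotent X)
    (hY : IsNilpotent Y) (v : V) (hv : KK X Y ⊔ Submodule.span k {v} = ⊤) :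
    finrank k V ≤ finrank k (cen X Y) := by
  let ev : cen X Y →ₗ[k] V := (LinearMap.applyₗ v) ∘ₗ (cen X Y).subtype
  let W : Submodule k V := LinearMap.range ev
  have hW : ∀ Z ∈ cen X Y, Z v ∈ W := fun Z hZ => ⟨⟨Z, hZ⟩, rfl⟩
  have hWX : ∀ w ∈ W, X w ∈ W := by
    rintro _ ⟨⟨Z, h1, h2⟩, rfl⟩
    refine hW (X * Z) ⟨?_, ?_⟩
    · rw [h1, ← mul_assoc, h1]
    · rw [← mul_assoc, ← hXY.eq, mul_assoc, h2, mul_assoc]
  have hWY : ∀ w ∈ W, Y w ∈ W := by
    rintro _ ⟨⟨Z, h1, h2⟩, rfl⟩
    refine hW (Y * Z) ⟨?_, ?_⟩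
    · rw [← mul_assoc, hXY.eq, mul_assoc, h1, mul_assoc]
    · rw [h2, ← mul_assoc, h2]
  have hvW : v ∈ W := hW 1 ⟨by rw [mul_one, one_mul], by rw [mul_one, one_mul]⟩
  have hXpow : ∀ (m : ℕ), ∀ w ∈ W, (X ^ m) w ∈ W := by
    intro m
    induction m with
    | zero => exact fun w hw => hw
    | succ m ih =>
      intro w hw
      rw [pow_succ', Module.End.mul_apply]
      exact hWX _ (ih w hw)
  have hYpow : ∀ (m : ℕ), ∀ w ∈ W, (Y ^ m) w ∈ W := by
    intro m
    induction m with
    | zero => exact fun w hw => hw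
    | succ m ih =>
      intro w hw
      rw [pow_succ', Module.End.mul_apply]
      exact hWY _ (ih w hw)
  -- every `u` is `w + X a + Y b`
  have hdec : ∀ u : V, ∃ w ∈ W, ∃ a b : V, u = w + X a + Y b := by
    intro u
    have hu : u ∈ KK X Y ⊔ Submodule.span k {v} := by rw [hv]; trivial
    obtain ⟨_, hx, y, hy, rfl⟩ := Submodule.mem_sup.mp hu
    obtain ⟨_, ⟨a, rfl⟩, _, ⟨b, rfl⟩, rfl⟩ := Submodule.mem_sup.mp hx
    obtain ⟨c, rfl⟩ := Submodule.mem_span_singleton.mp hy
    exact ⟨c • v, Submodule.smul_mem _ _ hvW, a, b, by abel⟩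
  have h1 : ∀ m : ℕ, ∀ u : V, ∃ w ∈ W, ∃ a b : V, u = w + (X ^ m) a + Y b := by
    intro m
    induction m with
    | zero => intro u; exact ⟨0, Submodule.zero_mem _, u, 0, by simp⟩
    | succ m ih =>
      intro u
      obtain ⟨w, hw, a, b, rfl⟩ := ih u
      obtain ⟨w', hw', a', b', rfl⟩ := hdec a
      refine ⟨w + (X ^ m) w', Submodule.add_mem _ hw (hXpow m w' hw'), a', (X ^ m) b' + b, ?_⟩
      have e1 : (X ^ m) (X a') = (X ^ (m + 1)) a' := by rw [pow_succ, Module.End.mul_apply]
      have e2 : (X ^ m) (Y b') = Y ((X ^ m) b') :=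
        LinearMap.congr_fun (hXY.pow_left m).eq b'
      rw [map_add, map_add, map_add, e1, e2]
      abel
  obtain ⟨M, hM⟩ := hX
  have h2 : ∀ u : V, ∃ w ∈ W, ∃ b : V, u = w + Y b := by
    intro u
    obtain ⟨w, hw, a, b, h⟩ := h1 M u
    exact ⟨w, hw, b, by rw [h, hM]; simp⟩
  have h3 : ∀ m : ℕ, ∀ u : V, ∃ w ∈ W, ∃ b : V, u = w + (Y ^ m) b := by
    intro m
    induction m with
    | zero => intro u; exact ⟨0, Submodule.zero_mem _, u, by simp⟩
    | succ m ih =>
      intro u
      obtain ⟨w, hw, b, rfl⟩ := ih u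
      obtain ⟨w', hw', b', rfl⟩ := h2 b
      refine ⟨w + (Y ^ m) w', Submodule.add_mem _ hw (hYpow m w' hw'), b', ?_⟩
      have e1 : (Y ^ m) (Y b') = (Y ^ (m + 1)) b' := by rw [pow_succ, Module.End.mul_apply]
      rw [map_add, e1]
      abel
  obtain ⟨M', hM'⟩ := hY
  have htop : W = ⊤ := by
    rw [eq_top_iff]
    intro u _
    obtain ⟨w, hw, b, h⟩ := h3 M' u
    rw [hM'] at h
    rw [h]
    simpa using hw
  have h4 := LinearMap.finrank_range_le ev
  have h5 : finrank k (LinearMap.range ev) = finrank k V := by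
    rw [show LinearMap.range ev = ⊤ from htop, finrank_top]
  omega

/-- Theorem 1 -/
theorem thm1 (k : Type*) [Field k] [IsAlgClosed k] (V : Type u) [AddCommGroup V] [Module k V]
    [FiniteDimensional k V] (X Y : Module.End k V) (hXY : Commute X Y) (hY : IsNilpotent Y) :
    finrank k V ≤ finrank k (cen X Y) := by
  suffices h : ∀ (n : ℕ) (V : Type u) [AddCommGroup V] [Module k V] [FiniteDimensional k V]
      (X Y : Module.End k V), Commute X Y → IsNilpotent Y → finrank k V = n →
      finrank k V ≤ finrank k (cen X Y) from h _ V X Y hXY hY rfl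
  intro n
  induction n using Nat.strong_induction_on with
  | _ n ih =>
    intro V _ _ _ X Y hXY hY hn
    -- (A)
    have hA : ∀ X : Module.End k V, Commute X Y → ¬ IsNilpotent X → ¬ Function.Injective X →
        finrank k V ≤ finrank k (cen X Y) := by
      intro X hXY h1 h2
      obtain ⟨V', V'', X', Y', X'', Y'', c1, c2, n1, n2, h5, h6, h7, h8, -, -⟩ :=
        split X Y hXY hY h1
      have h7' := h7 h2
      have i1 := ih (finrank k V') (by omega) V' X' Y' c1 n1 rfl
      have i2 := ih (finrank k V'') (by omega) V'' X'' Y'' c2 n2 rfl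
      omega
    rcases Nat.eq_zero_or_pos (finrank k V) with h0 | h0
    · rw [h0]; exact Nat.zero_le _
    have : Nontrivial V := Module.nontrivial_of_finrank_pos h0
    obtain ⟨c, hc⟩ := Module.End.exists_eigenvalue X
    obtain ⟨x, hx, hx0⟩ := hc.exists_hasEigenvector
    rw [Module.End.mem_eigenspace_iff] at hx
    set Z : Module.End k V := X - algebraMap k (Module.End k V) c with hZ
    have hcZ : cen X Y = cen Z Y := by
      ext W
      rw [mem_cen, mem_cen]
      refine and_congr_left fun _ => ?_
      rw [hZ, sub_mul, mul_sub, Algebra.commutes c W]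
      constructor
      · intro h; rw [h]
      · intro h; exact sub_left_injective h
    have hZY : Commute Z Y := by
      rw [hZ]
      exact hXY.sub_left (Algebra.commutes c Y)
    have hZi : ∀ w : V, Z w = X w - c • w := fun w => rfl
    have hZinj : ¬ Function.Injective Z := by
      intro h
      apply hx0
      apply h
      rw [hZi, hx, sub_self, map_zero]
    rw [hcZ]
    by_cases hZn : IsNilpotent Z
    · by_cases hv : ∃ v : V, KK Z Y ⊔ Submodule.span k {v} = ⊤
      · obtain ⟨v, hv⟩ := hv
        exact T1_cyc Z Y hZY hZn hY v hv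
      · -- split off a cyclic summand
        obtain ⟨T, hT1, hT0, hT⟩ : ∃ T, 1 ≤ T ∧ Y ^ T = 0 ∧ Y ^ (T - 1) ≠ 0 := by
          classical
          refine ⟨Nat.find hY, ?_, Nat.find_spec hY, ?_⟩
          · by_contra h
            have h1 : Nat.find hY = 0 := by omega
            have h2 := Nat.find_spec hY
            rw [h1, pow_zero] at h2
            exact one_ne_zero h2
          · have h1 : 1 ≤ Nat.find hY := by
              by_contra h
              have h1 : Nat.find hY = 0 := by omega
              have h2 := Nat.find_spec hY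
              rw [h1, pow_zero] at h2
              exact one_ne_zero h2
            exact Nat.find_min hY (by omega)
        obtain ⟨v, hv0⟩ : ∃ v : V, (Y ^ (T - 1)) v ≠ 0 := by
          by_contra h
          push Not at h
          exact hT (LinearMap.ext h)
        have hv1 : (Y ^ (T - 1)) v ∉ (⊥ : Submodule k V) := fun h => hv0 h
        obtain ⟨r, hr0, -⟩ := Submodule.exists_le_ker_of_notMem hv1
        have hvT : (Y ^ T) v = 0 := by rw [hT0]; rfl
        have hrT : ∀ u : V, r ((Y ^ T) u) = 0 := fun u => by rw [hT0]; exact map_zero r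
        set G := GG Y T v r with hG
        have hGY : Commute G Y := GG_comm Y T v r hvT hrT
        have hne : v ≠ 0 := by rintro rfl; exact hv0 (map_zero _)
        have hGn : ¬ IsNilpotent G := by
          obtain ⟨p, hp0, hp⟩ := GG_poly Y T hT1 v r v
          exact not_nil_of Y G hY hGY p (by rw [hp0]; exact hr0) v hne hp
        have hf := (cen_semicont Z G Y).union (nonnil_finite Z G hGn)
        obtain ⟨t, ht⟩ := hf.exists_notMem
        simp only [Set.mem_union, Set.mem_ofPred_eq, not_or, not_lt] at ht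
        obtain ⟨ht1, ht2⟩ := ht
        refine (hA (Z + t • G) (hZY.add_left (hGY.smul_left t)) ht2 ?_).trans ht1
        intro hinj
        have hsurj := LinearMap.injective_iff_surjective.mp hinj
        apply hv
        refine ⟨v, ?_⟩
        rw [eq_top_iff]
        intro u _
        obtain ⟨w, rfl⟩ := hsurj u
        obtain ⟨w', hw'⟩ := GG_mod Y T hT1 v r w
        have e : (Z + t • G) w = (Z w + Y (t • w')) + (t * r ((Y ^ (T - 1)) w)) • v := by
          rw [LinearMap.add_apply, LinearMap.smul_apply, map_smul, hw', smul_sub, mul_smul]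
          abel
        rw [e]
        refine Submodule.add_mem _ (Submodule.mem_sup_left (Submodule.add_mem _
          (Submodule.mem_sup_left ⟨w, rfl⟩) (Submodule.mem_sup_right ⟨_, rfl⟩))) ?_
        exact Submodule.mem_sup_right (Submodule.smul_mem _ _ (Submodule.mem_span_singleton_self v))
    · exact hA Z hZY hZn hZinj

end Pool.Agent.HWN
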